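import Pool.Agent.Y752.QF.Stm2
import Pool.Agent.TH612.GS.Stm3

set_option autoImplicit false

/-! Project QF (helper752), second wave: shift vectors in `[-H,H]^k` (sign patterns) and explicit
remainder `X^ε (X^(κ/2) + X^(3/2) H^(-1/2) + X H^(-1/8))`. -/

namespace Pool.Agent.Y752.QF

open MeasureTheory Set Filter Complex Topology
open Pool.Agent.TH612.GS (mP zN SepA)
open Pool.Agent.TH612.CF (pw)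
open Pool.Agent.H306R2.RG (FD cf)
open Pool.Agent.H306R2.RZ (js)
open scoped ENNReal

noncomputable section

variable {k : ℕ}

/-- the sign pattern applied to a vector -/
def sv (σ : Fin k → Bool) (γ : Fin k → ℝ) : Fin k → ℝ := fun j => if σ j then γ j else -γ j

/-- RR3: hyperbolic region and product, `N^4 ≤ H`, all sign patterns -/
def S_RR3 : Prop := ∀ (k : ℕ) (ε : ℝ), 0 < ε → ∃ C : ℝ, 1 ≤ C ∧ ∀ (σ : Fin k → Bool) (H : ℝ) (N W : ℕ),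
  1 ≤ W → W ≤ N → (N : ℝ) ^ 4 ≤ H →
  ∫⁻ γ, ENNReal.ofReal (‖QQ2 N (sv σ γ) - PP2 W (sv σ γ)‖ ^ 2) ∂(mP (Fin k) H) ≤
    ENNReal.ofReal (C * H ^ k * H ^ ε / W)

/-- GA3 -/
def S_GA3 : Prop := ∀ (k : ℕ) (ε : ℝ), 0 < ε → ∃ C : ℝ, 1 ≤ C ∧ ∀ (σ : Fin k → Bool) (H θ : ℝ) (N : ℕ),
  0 < θ → 1 ≤ N → (N : ℝ) ^ 4 ≤ H →
  mP (Fin k) H {γ | θ ≤ ‖AN2 N (sv σ γ) - arithA (sv σ γ) * QQ2 N (sv σ γ)‖ ^ 2} ≤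
    ENNReal.ofReal (C * H ^ k * H ^ ε / (N * θ))

/-- BX3 -/
def S_BX3 : Prop := ∀ (k : ℕ) (ε : ℝ), 0 < ε → ∃ C : ℝ, 1 ≤ C ∧ ∀ (σ : Fin k → Bool) (H : ℝ) (N Y : ℕ),
  1 ≤ N → N ^ 2 ≤ Y → (Y : ℝ) ≤ H →
  ∫⁻ γ, ENNReal.ofReal (‖DS Y (sv σ γ) - AN2 N (sv σ γ)‖ ^ 2) ∂(mP (Fin k) H) ≤
    ENNReal.ofReal (C * H ^ k * H ^ ε / N)

/-- ZT3 (on the separated vectors) -/
def S_ZT3 : Prop := ∀ k : ℕ, ∃ (C T₀ : ℝ) (B : ℕ), 0 < C ∧ 3 ≤ T₀ ∧ ∀ (σ : Fin k → Bool) (H θ : ℝ) (N : ℕ),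
  T₀ ≤ H → 0 < θ → 1 ≤ N → (N : ℝ) ≤ H →
  mP (Fin k) H (SepA (fun _ => 0) H ∩
    {γ | θ ≤ ‖QQ2 N (sv σ γ) - ∏ e ∈ Ed k, riemannZeta (1 + le (sv σ γ) e)‖ ^ 2}) ≤
    ENNReal.ofReal (C * Real.log H ^ B * H ^ k / (N * θ))

/-- MT3: explicit -/
def S_MT3 : Prop := ∀ (k : ℕ) (ε : ℝ), 0 < ε → ε ≤ 1 / 8 → ∃ (C H₀ : ℝ), 0 < C ∧ 1 ≤ H₀ ∧
  ∀ (σ : Fin k → Bool) (H : ℝ), H₀ ≤ H →
  mP (Fin k) H {γ | H ^ (ε - 1 / 8) < ‖DS ⌊H⌋₊ (sv σ γ) - Mt (sv σ γ)‖} ≤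
    ENNReal.ofReal (C * H ^ k * H ^ (-ε))

/-- REP3: different factors -/
def S_REP3 : Prop := ∀ (T K V : ℝ), 0 ≤ T → 0 ≤ K → 0 ≤ V → ∀ (k : ℕ) (F : Finset DC)
  (f g : Fin k → DC → ℝ → ℂ), (∀ j p, Continuous (f j p)) → (∀ j p, Continuous (g j p)) →
  (∀ j, ∀ w : DC → ℂ, ∫ u in (0:ℝ)..T, ‖∑ p ∈ F, w p * (f j p u - g j p u)‖ ^ 2 ≤
    K * ∑ p ∈ F, ‖w p‖ ^ 2) →
  (∀ j, ∀ p ∈ F, ∫ u in (0:ℝ)..T, ‖f j p u‖ ^ 2 ≤ V) →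
  (∀ j, ∀ p ∈ F, ∫ u in (0:ℝ)..T, ‖g j p u‖ ^ 2 ≤ V) → ∀ c : DC → ℂ,
  ∫⁻ γ, ENNReal.ofReal (‖∑ p ∈ F, c p * (∏ j, f j p (γ j) - ∏ j, g j p (γ j))‖ ^ 2) ∂(mP (Fin k) T) ≤
    ENNReal.ofReal (4 ^ k * K * V ^ (k - 1) * ∑ p ∈ F, ‖c p‖ ^ 2)

/-- CJ: conjugation for real characters -/
def S_CJ : Prop := ∀ (p : DC) (u : ℝ), p.1 ≠ 0 → p.2 ≠ 1 → p.2 ^ 2 = 1 →
  LL p (1 / 2 + I * ((-u : ℝ) : ℂ)) = (starRingEnd ℂ) (LL p (1 / 2 + I * (u : ℂ))) ∧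
  ∀ Y : ℕ, PY Y p (-u) = (starRingEnd ℂ) (PY Y p u)

/-- ESK: the weighted sum of the errors, exponent `κ` -/
def S_ESK (κ : ℝ) : Prop := ∀ B ε : ℝ, 0 < ε → ∃ C : ℝ, 0 < C ∧ ∀ (b : Bool) (X Z : ℕ), 1 ≤ X →
  (Z : ℝ) ≤ (X : ℝ) ^ B → ∑ m ∈ Finset.Icc 1 Z, ‖Ee b X m‖ ^ 2 / m ≤ C * (X : ℝ) ^ (κ + ε)

/-- PL3: polynomials, exponent `κ`, all sign patterns -/
def S_PL3 (κ : ℝ) : Prop := ∀ (k : ℕ) (A ε : ℝ), 0 < ε → ∃ C : ℝ, 0 < C ∧ ∀ (σ : Fin k → Bool) (b : Bool)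
  (X Y : ℕ) (H : ℝ), 1 ≤ X → 1 ≤ Y → (Y : ℝ) ≤ H → (Y : ℝ) ≤ (X : ℝ) ^ A →
  ∫⁻ γ, ENNReal.ofReal (‖∑ p ∈ QFs b X, ∏ j, PY Y p (sv σ γ j) -
      (3 / Real.pi ^ 2 * X : ℝ) * DS Y (sv σ γ)‖ ^ 2)
    ∂(mP (Fin k) H) ≤ ENNReal.ofReal (C * (X : ℝ) ^ (κ + ε) * H ^ k)

/-! ### Heath-Brown's large sieve for the families -/

/-- HBF: large sieve for real characters over squarefree numbers, with a coprimality condition -/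
def S_HBF : Prop := ∀ ε : ℝ, 0 < ε → ∃ C : ℝ, 0 < C ∧ ∀ (b : Bool) (X M l : ℕ), 1 ≤ X → 1 ≤ M → 1 ≤ l →
  ∑ m ∈ (Finset.Icc 1 M).filter Squarefree, ‖∑ p ∈ (QFs b X).filter (fun p => Nat.Coprime p.1 l),
    cv p m‖ ^ 2 ≤ C * ((X : ℝ) * M) ^ ε * (X + M) * X

open Classical in
/-- NSQC: as NSQ, with a coprimality condition -/
def S_NSQC : Prop := ∀ ε : ℝ, 0 < ε → ∃ C : ℝ, 0 < C ∧ ∀ D n a l : ℕ, Odd n → ¬ IsSquare n → a % 2 = 1 →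
  1 ≤ l →
  |∑ d ∈ (Finset.Icc 1 D).filter (fun d => Squarefree d ∧ d % 8 = a ∧ Nat.Coprime d l), js d n| ≤
    C * Real.sqrt D * (n : ℝ) ^ (1 / 4 + ε) * (l : ℝ) ^ ε

/-- ARC: pointwise estimate with the squarefree part -/
def S_ARC : Prop := ∀ ε : ℝ, 0 < ε → ∃ C : ℝ, 0 < C ∧ ∀ (b : Bool) (X m l : ℕ), 1 ≤ X → 1 ≤ m → 1 ≤ l →
  Squarefree m → ‖Ee b X (l ^ 2 * m)‖ ≤ C * (X : ℝ) ^ (1 / 2 : ℝ) * (m : ℝ) ^ (1 / 4 : ℝ) *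
    ((l : ℝ) * m) ^ ε

end

end Pool.Agent.Y752.QF
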