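import Pool.Agent.Y752.QF.Stm3
import Pool.Agent.H306R2.RZ.Defs4

set_option autoImplicit false

/-! Project QF (helper752), third wave: the exponent `κ = 1` (square-root size) for the weighted sum of
the errors. -/

namespace Pool.Agent.Y752.QF

open Pool.Agent.H306R2.RZ (js osf sqf LSB LSP)

noncomputable section

/-- HBL: Heath-Brown's large sieve for real characters -/
def S_HBL : Prop := ∀ ε : ℝ, 0 < ε → ∃ C : ℝ, 0 < C ∧ ∀ M N : ℕ, 1 ≤ M → 1 ≤ N →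
  LSB M N (C * ((M : ℝ) * N) ^ ε * (M + N))

/-- HBE: sums over all numerators in a class mod 8, mean square over odd squarefree moduli -/
def S_HBE : Prop := ∀ ε : ℝ, 0 < ε → ∃ C : ℝ, 0 < C ∧ ∀ N E l a : ℕ, 1 ≤ N → 1 ≤ E → 1 ≤ l → a % 2 = 1 →
  ∑ n ∈ osf N, |∑ e ∈ (Finset.Icc 1 E).filter (fun e => e % 8 = a ∧ Nat.Coprime e l), js e n| ^ 2 ≤
    C * ((N : ℝ) * E) ^ ε * (N * E + (E : ℝ) ^ 2)

/-- PVC: Polya-Vinogradov with a class mod 8 and a coprimality condition -/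
def S_PVC : Prop := ∀ ε : ℝ, 0 < ε → ∃ C : ℝ, 0 < C ∧ ∀ n E l a : ℕ, Odd n → ¬ IsSquare n → 1 ≤ l →
  a % 2 = 1 →
  |∑ e ∈ (Finset.Icc 1 E).filter (fun e => e % 8 = a ∧ Nat.Coprime e l), js e n| ≤
    C * (n : ℝ) ^ (1 / 2 + ε) * (l : ℝ) ^ ε

open Classical in
/-- NS2: squarefree numerators, mean square over odd squarefree moduli `n ≥ 2` -/
def S_NS2 : Prop := ∀ ε : ℝ, 0 < ε → ∃ C : ℝ, 0 < C ∧ ∀ D N l a : ℕ, 1 ≤ D → 1 ≤ N → 1 ≤ l → a % 2 = 1 →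
  ∑ n ∈ (osf N).filter (fun n => 2 ≤ n),
    |∑ d ∈ (Finset.Icc 1 D).filter (fun d => Squarefree d ∧ d % 8 = a ∧ Nat.Coprime d l), js d n| ^ 2 ≤
    C * ((D : ℝ) * N * l) ^ ε * (D * N)

end

end Pool.Agent.Y752.QF
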