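import Pool.Agent.TH612.GS.Stm

set_option autoImplicit false

/-! Project QF (helper752): products of shifted central values of L-functions of the real primitive
characters of given parity and conductor at most `X`, for almost all shift vectors in `[0,H]^k`,
`H ≥ X^(1+η)`. Definitions and statements of the parts. -/

namespace Pool.Agent.Y752.QF

open MeasureTheory Set Filter Complex Topology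
open Pool.Agent.TH612.GS (mP zN)
open Pool.Agent.TH612.CF (pw)
open scoped ENNReal

noncomputable section

/-- Dirichlet characters of all moduli -/
abbrev DC := Σ N : ℕ, DirichletCharacter ℂ N

/-- the value at a natural number -/
def cv (p : DC) (n : ℕ) : ℂ := p.2 (n : ZMod p.1)

open Classical in
/-- the L-function -/
def LL (p : DC) (s : ℂ) : ℂ :=
  if h : p.1 ≠ 0 then (haveI : NeZero p.1 := ⟨h⟩; DirichletCharacter.LFunction p.2 s) else 0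

/-- the real primitive characters `χ ≠ 1` of given parity (`b = true`: odd) and conductor `≤ X` -/
def QFset (b : Bool) (X : ℕ) : Set DC :=
  {p | p.1 ≠ 0 ∧ p.1 ≤ X ∧ p.2.IsPrimitive ∧ p.2 ^ 2 = 1 ∧ p.2 ≠ 1 ∧
    p.2 (-1) = if b then -1 else 1}

open Classical in
/-- the same as a finset -/
def QFs (b : Bool) (X : ℕ) : Finset DC := if h : (QFset b X).Finite then h.toFinset else ∅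

/-- the Dirichlet polynomial on the critical line -/
def PY (Y : ℕ) (p : DC) (u : ℝ) : ℂ := ∑ n ∈ Finset.Icc 1 Y, cv p n * (n : ℂ) ^ (-(1 / 2 + I * (u : ℂ)))

/-! ### the L-function as a smoothed sum -/

/-- forward difference -/
def fwd (f : ℕ → ℂ) (n : ℕ) : ℂ := f (n + 1) - f n

/-- the smoothing -/
def cut (R : ℕ) (x : ℝ) : ℝ := 1 - (1 - Real.exp (-x)) ^ (R + 1)

/-- `n^(-s) (1 - e^(-n/N))^(R+1)` -/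
def ff (R : ℕ) (N : ℝ) (s : ℂ) (n : ℕ) : ℂ := (n : ℂ) ^ (-s) * ((1 - Real.exp (-(n / N))) ^ (R + 1) : ℝ)

/-- L1A: the differences of `ff` -/
def S_L1a : Prop := ∀ R : ℕ, 1 ≤ R → ∃ C : ℝ, 0 < C ∧ ∀ (N : ℝ) (s : ℂ) (n : ℕ), 1 ≤ N →
  1 / 4 ≤ s.re → s.re ≤ 2 → 1 ≤ n →
  ‖fwd^[R] (ff R N s) n‖ ≤ C * (2 + |s.im|) ^ R * (n : ℝ) ^ (-s.re - R) * (min 1 (n / N)) ^ (R + 1)

/-- L1: the L-function and the smoothed sum -/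
def S_L1 : Prop := ∀ R : ℕ, 2 ≤ R → ∃ C : ℝ, 0 < C ∧ ∀ (p : DC) (u N : ℝ), p.1 ≠ 0 → p.2 ≠ 1 →
  1 ≤ N → ‖LL p (1 / 2 + I * (u : ℂ)) -
    ∑' n : ℕ, cv p n * (n : ℂ) ^ (-(1 / 2 + I * (u : ℂ))) * (cut R (n / N) : ℂ)‖ ≤
  C * (p.1 : ℝ) ^ R * (2 + |u|) ^ R * N ^ (1 / 2 - (R : ℝ))

/-! ### correlations -/

/-- `(1/H) ∫ e^(-|u|/H) e^(-iuy) du` -/
def ker (H y : ℝ) : ℝ := 2 / (1 + (H * y) ^ 2)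

/-- KER: the integral -/
def S_KER : Prop := ∀ H y : ℝ, 0 < H →
  ∫ u : ℝ, (Real.exp (-(|u| / H)) : ℂ) * Complex.exp (-(I * u * y)) = (H * ker H y : ℝ)

/-- COR: correlation of two bounded sequences -/
def S_COR : Prop := ∀ K : ℝ, 1 ≤ K → ∃ C : ℝ, 0 < C ∧
  ∀ (a b : ℕ → ℂ) (v w : ℕ → ℝ) (Y Z : ℕ) (H N Q P ρ0 : ℝ) (ρ : ℕ → ℝ),
  (∀ n, ‖a n‖ ≤ 1) → (∀ n, ‖b n‖ ≤ 1) →
  Antitone v → Antitone w → (∀ n, 0 ≤ v n) → (∀ n, v n ≤ 1) → (∀ n, 0 ≤ w n) → (∀ n, w n ≤ 1) →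
  (∀ n : ℕ, 1 ≤ n → v n ≤ K * (N / n) ^ 3) → (∀ n : ℕ, 1 ≤ n → w n ≤ K * (N / n) ^ 3) →
  1 ≤ Y → Y ≤ Z → 2 ≤ H → H ≤ N → N ≤ H ^ 2 → 1 ≤ Q → 0 ≤ P → P ≤ 1 → 0 ≤ ρ0 → (∀ r, 0 ≤ ρ r) →
  (∀ R : ℕ, ∑ r ∈ Finset.Icc 1 R, ρ r ≤ P * R) →
  (∀ A B : ℕ, A ≤ B → ‖∑ n ∈ Finset.Ioc A B, a n * (starRingEnd ℂ) (b n)‖ ≤ ρ0 * (B - A) + Q) →
  (∀ r A B : ℕ, 1 ≤ r → A ≤ B →
    ‖∑ n ∈ Finset.Ioc A B, a (n + r) * (starRingEnd ℂ) (b n)‖ ≤ ρ r * (B - A) + Q) →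
  (∀ r A B : ℕ, 1 ≤ r → A ≤ B →
    ‖∑ n ∈ Finset.Ioc A B, a n * (starRingEnd ℂ) (b (n + r))‖ ≤ ρ r * (B - A) + Q) →
  ‖∑ m ∈ Finset.Ioc Y Z, ∑ n ∈ Finset.Ioc Y Z, a m * (starRingEnd ℂ) (b n) *
      ((v m * w n / (Real.sqrt m * Real.sqrt n) * ker H (Real.log m - Real.log n) : ℝ) : ℂ)‖ ≤
    C * (1 + Real.log Z) ^ 2 * (ρ0 + P * N / H + Q * (1 / Y + 1 / H))

/-- CC1: two primitive characters of different moduli -/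
def S_CC1 : Prop := ∃ C : ℝ, 0 < C ∧ ∀ p p' : DC, p.1 ≠ 0 → p'.1 ≠ 0 → p.2.IsPrimitive →
  p'.2.IsPrimitive → p.1 ≠ p'.1 → ∀ r A B : ℕ, A ≤ B →
  ‖∑ n ∈ Finset.Ioc A B, cv p (n + r) * (starRingEnd ℂ) (cv p' n)‖ ≤
    C * Real.sqrt (p.1 * p'.1) * (1 + Real.log (p.1 * p'.1))

/-- CC2: one primitive character -/
def S_CC2 : Prop := ∀ p : DC, p.1 ≠ 0 → p.2.IsPrimitive → ∀ r A B : ℕ, A ≤ B →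
  ‖∑ n ∈ Finset.Ioc A B, cv p (n + r) * (starRingEnd ℂ) (cv p n)‖ ≤
    (∑ d ∈ (Nat.gcd p.1 r).divisors, (d : ℝ)) / p.1 * (B - A) + p.1

/-- OP: the operator bound -/
def S_OP : Prop := ∀ η A ε : ℝ, 0 < η → 0 < ε → ∃ (C : ℝ) (X0 : ℕ), 0 < C ∧
  ∀ (X : ℕ) (H : ℝ) (Y : ℕ), X0 ≤ X → (X : ℝ) ^ (1 + η) ≤ H → H ≤ (X : ℝ) ^ A → 1 ≤ Y →
  (Y : ℝ) ≤ H → ∀ F : Finset DC,
  (∀ p ∈ F, p.1 ≠ 0 ∧ p.1 ≤ X ∧ p.2.IsPrimitive ∧ p.2 ≠ 1) →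
  (∀ p ∈ F, ∀ p' ∈ F, p.1 = p'.1 → p = p') → ∀ w : DC → ℂ,
  ∫ u in (0:ℝ)..H, ‖∑ p ∈ F, w p * (LL p (1 / 2 + I * (u : ℂ)) - PY Y p u)‖ ^ 2 ≤
    C * (X : ℝ) ^ ε * (1 + F.card * X / Y) * H * ∑ p ∈ F, ‖w p‖ ^ 2

/-- WIN: second moments -/
def S_WIN : Prop := ∀ η A ε : ℝ, 0 < η → 0 < ε → ∃ (C : ℝ) (X0 : ℕ), 0 < C ∧
  ∀ (X : ℕ) (H : ℝ) (Y : ℕ), X0 ≤ X → (X : ℝ) ^ (1 + η) ≤ H → H ≤ (X : ℝ) ^ A → X ≤ Y →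
  (Y : ℝ) ≤ H → ∀ p : DC, p.1 ≠ 0 → p.1 ≤ X → p.2.IsPrimitive → p.2 ≠ 1 →
  (∫ u in (0:ℝ)..H, ‖LL p (1 / 2 + I * (u : ℂ))‖ ^ 2 ≤ C * (X : ℝ) ^ ε * H) ∧
  ∫ u in (0:ℝ)..H, ‖PY Y p u‖ ^ 2 ≤ C * (X : ℝ) ^ ε * H

/-- REP: replacement of the factors one at a time -/
def S_REP : Prop := ∀ (T K V : ℝ), 0 ≤ T → 0 ≤ K → 0 ≤ V → ∀ (k : ℕ) (F : Finset DC)
  (f g : DC → ℝ → ℂ), (∀ p, Continuous (f p)) → (∀ p, Continuous (g p)) →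
  (∀ w : DC → ℂ, ∫ u in (0:ℝ)..T, ‖∑ p ∈ F, w p * (f p u - g p u)‖ ^ 2 ≤ K * ∑ p ∈ F, ‖w p‖ ^ 2) →
  (∀ p ∈ F, ∫ u in (0:ℝ)..T, ‖f p u‖ ^ 2 ≤ V) → (∀ p ∈ F, ∫ u in (0:ℝ)..T, ‖g p u‖ ^ 2 ≤ V) →
  ∀ c : DC → ℂ,
  ∫⁻ γ, ENNReal.ofReal (‖∑ p ∈ F, c p * (∏ j, f p (γ j) - ∏ j, g p (γ j))‖ ^ 2) ∂(mP (Fin k) T) ≤
    ENNReal.ofReal (4 ^ k * K * V ^ (k - 1) * ∑ p ∈ F, ‖c p‖ ^ 2)

/-! ### averages of real characters -/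

/-- `∏_{p ∣ n} p/(p+1)` -/
def hw (n : ℕ) : ℝ := ∏ p ∈ n.primeFactors, ((p : ℝ) / (p + 1))

/-- the main term of the average of `χ(m)` -/
def mm (X m : ℕ) : ℝ := 3 / Real.pi ^ 2 * X * (if IsSquare m then hw m else 0)

/-- the error of the average of `χ(m)` -/
def Ee (b : Bool) (X m : ℕ) : ℂ := ∑ p ∈ QFs b X, cv p m - (mm X m : ℂ)

/-- INJ: finiteness, and the conductor determines the character -/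
def S_IN : Prop := ∀ (b : Bool) (X : ℕ), (QFset b X).Finite ∧
  ∀ p ∈ QFset b X, ∀ p' ∈ QFset b X, p.1 = p'.1 → p = p'

/-- AR: pointwise estimate -/
def S_AR : Prop := ∀ ε : ℝ, 0 < ε → ∃ C : ℝ, 0 < C ∧ ∀ (b : Bool) (X m : ℕ), 1 ≤ X → 1 ≤ m →
  ‖Ee b X m‖ ≤ C * (X : ℝ) ^ (1 / 2 : ℝ) * (m : ℝ) ^ (1 / 4 + ε)

/-- LS: mean square over the numbers -/
def S_LS : Prop := ∃ C : ℝ, 0 < C ∧ ∀ (b : Bool) (X M : ℕ), 1 ≤ X →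
  ∑ m ∈ Finset.Ioc M (2 * M), ‖∑ p ∈ QFs b X, cv p m‖ ^ 2 ≤
    C * (X * M + (X : ℝ) ^ 3 * (1 + Real.log X))

/-- ES: the weighted sum of the errors -/
def S_ES : Prop := ∀ B : ℝ, ∃ C : ℝ, 0 < C ∧ ∀ (b : Bool) (X Z : ℕ), 1 ≤ X → (Z : ℝ) ≤ (X : ℝ) ^ B →
  ∑ m ∈ Finset.Icc 1 Z, ‖Ee b X m‖ ^ 2 / m ≤ C * (X : ℝ) ^ (9 / 5 : ℝ)

/-! ### the main term -/

variable {k : ℕ}

/-- the edges -/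
def Ed (k : ℕ) : Finset (Fin k × Fin k) := Finset.univ.filter fun e => e.1 ≤ e.2

/-- the exponents -/
def le (γ : Fin k → ℝ) (e : Fin k × Fin k) : ℂ := I * ((γ e.1 : ℂ) + (γ e.2 : ℂ))

/-- sum over the box -/
def DS (Y : ℕ) (γ : Fin k → ℝ) : ℂ :=
  ∑ n ∈ Fintype.piFinset (fun _ : Fin k => Finset.Icc 1 Y),
    ((if IsSquare (∏ j, n j) then hw (∏ j, n j) else 0 : ℝ) : ℂ) *
      ∏ j, (n j : ℂ) ^ (-(1 / 2 + I * (γ j : ℂ)))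

/-- the coefficients `h(m) τ_γ(m^2)` -/
def D2 (γ : Fin k → ℝ) (m : ℕ) : ℂ := (hw m : ℂ) * (∏ j : Fin k, pw (-(I * (γ j : ℂ)))) (m ^ 2)

/-- hyperbolic sum -/
def AN2 (N : ℕ) (γ : Fin k → ℝ) : ℂ := ∑ m ∈ Finset.Icc 1 N, D2 γ m / m

/-- the convolution of the `n^(-l_e)` -/
def XX2 (γ : Fin k → ℝ) : ArithmeticFunction ℂ := ∏ e ∈ Ed k, pw (-le γ e)

/-- its hyperbolic sum -/
def PP2 (W : ℕ) (γ : Fin k → ℝ) : ℂ := ∑ m ∈ Finset.Icc 1 W, XX2 γ m / m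

/-- product of partial sums of zeta -/
def QQ2 (N : ℕ) (γ : Fin k → ℝ) : ℂ := ∏ e ∈ Ed k, zN N (1 + le γ e)

/-- the local factor -/
def lf (γ : Fin k → ℝ) (p : ℕ) : ℂ :=
  (∏ e ∈ Ed k, (1 - (p : ℂ) ^ (-(1 + le γ e)))) *
    ((((∏ j : Fin k, (1 - (p : ℂ) ^ (-(1 / 2 + I * (γ j : ℂ))))⁻¹) +
      ∏ j : Fin k, (1 + (p : ℂ) ^ (-(1 / 2 + I * (γ j : ℂ))))⁻¹) / 2 + 1 / p) / (1 + 1 / p))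

/-- the arithmetic factor -/
def arithA (γ : Fin k → ℝ) : ℂ := ∏' p : Nat.Primes, lf γ p

/-- the prediction, divided by `(3/π²) X` -/
def Mt (γ : Fin k → ℝ) : ℂ := arithA γ * ∏ e ∈ Ed k, riemannZeta (1 + le γ e)

/-- RR: the sum over the hyperbolic region and the product -/
def S_RR : Prop := ∀ (k : ℕ) (ε : ℝ), 0 < ε → ∃ C : ℝ, 1 ≤ C ∧ ∀ (H : ℝ) (N W : ℕ), 1 ≤ W → W ≤ N →
  (N : ℝ) ^ (k + 1) ≤ H →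
  ∫⁻ γ, ENNReal.ofReal (‖QQ2 N γ - PP2 W γ‖ ^ 2) ∂(mP (Fin k) H) ≤
    ENNReal.ofReal (C * H ^ k * H ^ ε / W)

/-- PS: the arithmetic factor as a Dirichlet series -/
def S_PS : Prop := ∀ k : ℕ, ∃ gg : ℕ → ℝ, (∀ b, 0 ≤ gg b) ∧
  (∀ σ : ℝ, 1 / 2 < σ → Summable fun b : ℕ => gg b * (b : ℝ) ^ (-σ)) ∧
  ∀ γ : Fin k → ℝ, ∃ ps : ArithmeticFunction ℂ, (∀ b, ‖ps b‖ ≤ gg b) ∧
    (∀ m : ℕ, 1 ≤ m → D2 γ m = (XX2 γ * ps) m) ∧ ∑' b : ℕ, ps b / b = arithA γ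

/-- GA: hyperbolic sum and prediction with partial sums, outside a small set -/
def S_GA : Prop := ∀ (k : ℕ) (ε : ℝ), 0 < ε → ∃ C : ℝ, 1 ≤ C ∧ ∀ (H θ : ℝ) (N : ℕ), 0 < θ → 1 ≤ N →
  (N : ℝ) ^ (k + 1) ≤ H →
  mP (Fin k) H {γ | θ ≤ ‖AN2 N γ - arithA γ * QQ2 N γ‖ ^ 2} ≤
    ENNReal.ofReal (C * H ^ k * H ^ ε / (N * θ))

/-- BX: box sum and hyperbolic sum -/
def S_BX : Prop := ∀ (k : ℕ) (ε : ℝ), 0 < ε → ∃ C : ℝ, 1 ≤ C ∧ ∀ (H : ℝ) (N Y : ℕ), 1 ≤ N →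
  N ^ 2 ≤ Y → (Y : ℝ) ≤ H →
  ∫⁻ γ, ENNReal.ofReal (‖DS Y γ - AN2 N γ‖ ^ 2) ∂(mP (Fin k) H) ≤
    ENNReal.ofReal (C * H ^ k * H ^ ε / N)

/-- the shift vectors with all entries at least `√H` -/
def Sep2 (k : ℕ) (H : ℝ) : Set (Fin k → ℝ) := {γ | ∀ j, H ^ (1 / 2 : ℝ) ≤ γ j ∧ γ j ≤ H}

/-- ZT: partial sums of zeta and zeta, outside a small set -/
def S_ZT : Prop := ∀ k : ℕ, ∃ (C T₀ : ℝ) (B : ℕ), 0 < C ∧ 3 ≤ T₀ ∧ ∀ (H θ : ℝ) (N : ℕ), T₀ ≤ H →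
  0 < θ → 1 ≤ N → (N : ℝ) ≤ H →
  mP (Fin k) H (Sep2 k H ∩ {γ | θ ≤ ‖QQ2 N γ - ∏ e ∈ Ed k, riemannZeta (1 + le γ e)‖ ^ 2}) ≤
    ENNReal.ofReal (C * Real.log H ^ B * H ^ k / (N * θ))

/-- MT: the box sum and the prediction, outside a small set -/
def S_MT : Prop := ∀ (k : ℕ) (A : ℝ), 1 ≤ A → ∃ (δ : ℝ) (Y0 : ℕ), 0 < δ ∧ ∀ (H : ℝ) (Y : ℕ),
  Y0 ≤ Y → (Y : ℝ) ≤ H → H ≤ (Y : ℝ) ^ A →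
  mP (Fin k) H {γ | (Y : ℝ) ^ (-δ) < ‖DS Y γ - Mt γ‖} ≤ ENNReal.ofReal (H ^ k * (Y : ℝ) ^ (-δ))

/-- PL: polynomials -/
def S_PL : Prop := ∀ (k : ℕ) (A ε : ℝ), 0 < ε → ∃ C : ℝ, 0 < C ∧ ∀ (b : Bool) (X Y : ℕ) (H : ℝ), 1 ≤ X →
  1 ≤ Y → (Y : ℝ) ≤ H → (Y : ℝ) ≤ (X : ℝ) ^ A →
  ∫⁻ γ, ENNReal.ofReal (‖∑ p ∈ QFs b X, ∏ j, PY Y p (γ j) - (3 / Real.pi ^ 2 * X : ℝ) * DS Y γ‖ ^ 2)
    ∂(mP (Fin k) H) ≤ ENNReal.ofReal (C * (X : ℝ) ^ (9 / 5 + ε) * H ^ k)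

end

end Pool.Agent.Y752.QF
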