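import Pool.Agent.Y752.QF.Sw

set_option autoImplicit false

/-! Project QF: the family as an explicit double sum. -/

namespace Pool.Agent.Y752.QF

open Complex MeasureTheory

noncomputable section

open Classical in
/-- the real primitive characters modulo `q` other than the trivial one, of given parity -/
def fq (b : Bool) (q : ℕ) : Finset (DirichletCharacter ℂ (q + 1)) :=
  Finset.univ.filter fun χ => χ.IsPrimitive ∧ χ ^ 2 = 1 ∧ χ ≠ 1 ∧ χ (-1) = if b then -1 else 1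

theorem sum_QFs (hIN : S_IN) (b : Bool) (X : ℕ) (g : DC → ℂ) :
    ∑ p ∈ QFs b X, g p = ∑ q ∈ Finset.range X, ∑ χ ∈ fq b q, g ⟨q + 1, χ⟩ := by
  classical
  rw [Finset.sum_sigma']
  symm
  refine Finset.sum_bij (fun x _ => (⟨x.1 + 1, x.2⟩ : DC)) ?_ ?_ ?_ ?_
  · intro x hx
    rw [Finset.mem_sigma, Finset.mem_range] at hx
    rw [mem_QFs hIN]
    have h2 := hx.2
    unfold fq at h2
    rw [Finset.mem_filter] at h2
    exact ⟨Nat.succ_ne_zero _, hx.1, h2.2.1, h2.2.2.1, h2.2.2.2.1, h2.2.2.2.2⟩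
  · rintro ⟨q, χ⟩ _ ⟨q', χ'⟩ _ h
    rw [Sigma.mk.inj_iff] at h
    obtain ⟨h1, h2⟩ := h
    have h3 : q = q' := by simpa using h1
    subst h3
    have h4 : χ = χ' := eq_of_heq h2
    rw [h4]
  · rintro ⟨N, χ⟩ hp
    rw [mem_QFs hIN] at hp
    obtain ⟨h1, h2, h3, h4, h5, h6⟩ := hp
    cases N with
    | zero => exact absurd rfl h1
    | succ q =>
      refine ⟨⟨q, χ⟩, ?_, rfl⟩
      rw [Finset.mem_sigma, Finset.mem_range]
      refine ⟨h2, ?_⟩
      unfold fq
      rw [Finset.mem_filter]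
      exact ⟨Finset.mem_univ _, h3, h4, h5, h6⟩
  · intro x _
    rfl

theorem LL_succ (q : ℕ) (χ : DirichletCharacter ℂ (q + 1)) (s : ℂ) :
    LL ⟨q + 1, χ⟩ s = DirichletCharacter.LFunction χ s := by
  unfold LL
  rw [dif_pos (Nat.succ_ne_zero _)]

end

end Pool.Agent.Y752.QF
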