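import Pool.Agent.H306R2.RG.Defs
import Pool.Agent.Y752.QF.Stm

set_option autoImplicit false

/-! Project QF (helper752): statements about counting real characters. -/

namespace Pool.Agent.Y752.QF

open Pool.Agent.H306R2.RG (FD F8 F4 F1 cf)
open Pool.Agent.H306R2.RZ (js)

noncomputable section

/-- the four families of given parity -/
def fam (b : Bool) (i : Fin 4) : FD :=
  ![F8 (if b then -1 else 1), F4 (if b then -1 else 1), F1 (if b then -1 else 1) 1,
    F1 (if b then -1 else 1) 5] i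

open Classical in
/-- FM: the sum over the characters through the families -/
def S_FM : Prop := ∀ (b : Bool) (X m : ℕ), 1 ≤ m →
  ∑ p ∈ QFs b X, cv p m = ∑ i : Fin 4,
    ∑ d ∈ (Finset.Icc 1 (X / (fam b i).r)).filter (fun d => (fam b i).A d ∧ Squarefree d),
      ((cf (fam b i) d m : ℝ) : ℂ)

open Classical in
/-- SQF: squarefree numbers in a class mod 8, coprime to `m` -/
def S_SQF : Prop := ∃ C : ℝ, 0 < C ∧ ∀ D m a : ℕ, 1 ≤ m → a < 8 → a % 2 = 1 →
  |(((Finset.Icc 1 D).filter fun d => Squarefree d ∧ d % 8 = a ∧ d.Coprime m).card : ℝ) -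
    1 / Real.pi ^ 2 * D * ∏ p ∈ m.primeFactors.erase 2, ((p : ℝ) / (p + 1))| ≤
    C * m.divisors.card * Real.sqrt D

open Classical in
/-- NSQ: squarefree numbers in a class mod 8, twisted by a nontrivial Jacobi symbol -/
def S_NSQ : Prop := ∀ ε : ℝ, 0 < ε → ∃ C : ℝ, 0 < C ∧ ∀ D n a : ℕ, Odd n → ¬ IsSquare n → a % 2 = 1 →
  |∑ d ∈ (Finset.Icc 1 D).filter (fun d => Squarefree d ∧ d % 8 = a), js d n| ≤
    C * Real.sqrt D * (n : ℝ) ^ (1 / 4 + ε)

end

end Pool.Agent.Y752.QF
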