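import Pool.Agent.Y752.QF.Fin
import Pool.Agent.Y752.QF.Conv
import Pool.Agent.Y331.QF.L1a
import Pool.Agent.Y331.QF.Ker
import Pool.Agent.Y331.QF.Cor
import Pool.Agent.Y471.QF.L1b
import Pool.Agent.Y815.QF.CC1
import Pool.Agent.Y68.QF.CC2
import Pool.Agent.Y975.QF.Op
import Pool.Agent.Y975.QF.Win
import Pool.Agent.Y832.QF.Ar
import Pool.Agent.Y832.QF.Rep
import Pool.Agent.Y845.QF.In
import Pool.Agent.Y900.QF.Sqf
import Pool.Agent.Y369.QF.Nsq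
import Pool.Agent.Y986.QF.Ls
import Pool.Agent.Y986.QF.RR
import Pool.Agent.Y165.QF.Ga
import Pool.Agent.Y165.QF.Bx
import Pool.Agent.Y945.QF.Zt
import Pool.Agent.Y762.QF.PS
import Pool.Agent.Y547.QF.Mt
import Pool.Agent.Y532.QF.Pl

set_option autoImplicit false

/-! Project QF: the parts put together. -/

namespace Pool.Agent.Y752.QF

noncomputable section

theorem t_L1 : S_L1 := Pool.Agent.Y471.QF.L1 Pool.Agent.Y331.QF.L1a
theorem t_CC1 : S_CC1 := Pool.Agent.Y815.QF.CC1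
theorem t_IN : S_IN := Pool.Agent.Y845.QF.IN
theorem t_OP : S_OP := Pool.Agent.Y975.QF.OP t_L1 Pool.Agent.Y331.QF.KER Pool.Agent.Y331.QF.COR t_CC1
  Pool.Agent.Y68.QF.CC2
theorem t_WIN : S_WIN := Pool.Agent.Y975.QF.WIN t_OP
theorem t_AR : S_AR := Pool.Agent.Y832.QF.AR Pool.Agent.Y845.QF.FM Pool.Agent.Y900.QF.SQF
  Pool.Agent.Y369.QF.NSQ
theorem t_LS : S_LS := Pool.Agent.Y986.QF.LS t_CC1 t_IN
theorem t_PS : S_PS := Pool.Agent.Y762.QF.PS.t_PS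

end

end Pool.Agent.Y752.QF
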