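import Pool.Agent.Y752.QF.Final
import Pool.Agent.Y752.QF.Stm3

set_option autoImplicit false

/-! Project QF: final assembly, second wave. -/

namespace Pool.Agent.Y752.QF

open MeasureTheory Set Filter Complex Topology
open Pool.Agent.TH612.GS (mP zN SepA)
open Pool.Agent.TH521.GS (mor)
open scoped ENNReal

noncomputable section

lemma sv_cont {k : ℕ} (σ : Fin k → Bool) : Continuous fun γ : Fin k → ℝ => sv σ γ := by
  refine continuous_pi fun j => ?_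
  unfold sv
  cases σ j
  · simp only [Bool.false_eq_true, if_false]
    fun_prop
  · simp only [if_true]
    fun_prop

lemma sv_apply {k : ℕ} (σ : Fin k → Bool) (γ : Fin k → ℝ) (j : Fin k) :
    sv σ γ j = (if σ j then 1 else -1) * γ j := by
  unfold sv
  cases σ j <;> simp

theorem partA3 (hOP : S_OP) (hW : S_WIN) (hR : S_REP3) (hIN : S_IN) (hCJ : S_CJ)
    (k : ℕ) (hk : 1 ≤ k) (η A ε : ℝ) (hη : 0 < η) (hε : 0 < ε) :
    ∃ (C : ℝ) (X0 : ℕ), 0 < C ∧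
    ∀ (σ : Fin k → Bool) (b : Bool) (X : ℕ) (H : ℝ), X0 ≤ X → (X : ℝ) ^ (1 + η) ≤ H →
    H ≤ (X : ℝ) ^ A →
    mP (Fin k) H {γ | (X : ℝ) ^ (ε / 2) * ((X : ℝ) ^ (1 / 2 : ℝ) + (X : ℝ) ^ (3 / 2 : ℝ) * H ^ (-(1 / 2) : ℝ)) ≤
      ‖∑ p ∈ QFs b X, (∏ j, LL p (1 / 2 + I * (sv σ γ j : ℂ)) - ∏ j, PY ⌊H⌋₊ p (sv σ γ j))‖} ≤
      ENNReal.ofReal (C * (X : ℝ) ^ (-(ε / 2)) * H ^ k) := by
  classical
  have hk0 : (0:ℝ) < (k:ℝ) + 1 := by positivity
  set ε1 : ℝ := ε / (2 * (k + 1)) with hε1'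
  have hε10 : 0 < ε1 := by positivity
  have hkε : (k : ℝ) * ε1 ≤ ε / 2 := by
    rw [hε1', mul_div_assoc', div_le_div_iff₀ (by positivity) (by norm_num)]
    nlinarith
  obtain ⟨C1, X1, hC1, h1⟩ := hOP η A ε1 hη hε10
  obtain ⟨C2, X2, hC2, h2⟩ := hW η A ε1 hη hε10
  set C3 : ℝ := 4 ^ k * (3 * C1) * C2 ^ (k - 1) with hC3
  have hC30 : 0 < C3 := by positivity
  refine ⟨C3, X1 + X2 + 2, hC30, ?_⟩
  intro σ b X H hX hH1 hH2
  have hX2' : 2 ≤ X := by omega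
  have hX1' : 1 ≤ X := by omega
  have hXr : (2:ℝ) ≤ X := by exact_mod_cast hX2'
  have hX0 : (0:ℝ) < X := by linarith
  have hX1r : (1:ℝ) ≤ X := by linarith
  set F := QFs b X with hF
  have hcard : (F.card : ℝ) ≤ X := by exact_mod_cast card_QFs hIN b X
  have hXH : (X : ℝ) ≤ H := by
    refine le_trans ?_ hH1
    conv_lhs => rw [← Real.rpow_one (X : ℝ)]
    exact Real.rpow_le_rpow_of_exponent_le hX1r (by linarith)
  have hHpos : 0 < H := by linarith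
  have hH1r : 1 ≤ H := by linarith
  set Y : ℕ := ⌊H⌋₊ with hY
  have hYH : (Y : ℝ) ≤ H := Nat.floor_le hHpos.le
  have hYX : X ≤ Y := Nat.le_floor hXH
  have hY1 : 1 ≤ Y := hX1'.trans hYX
  have hYr : (X : ℝ) ≤ Y := by exact_mod_cast hYX
  have hY0 : (0:ℝ) < Y := by linarith
  have hYge : H / 2 ≤ Y := by
    have := Nat.lt_floor_add_one H
    rw [← hY] at this
    linarith
  set hh : ℝ := H ^ (-(1 / 2) : ℝ) with hhh
  have hh0 : 0 < hh := Real.rpow_pos_of_pos hHpos _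
  have hhsq : hh ^ 2 = 1 / H := by
    rw [hhh, ← Real.rpow_natCast, ← Real.rpow_mul hHpos.le]
    norm_num
    exact Real.rpow_neg_one H
  -- part 1
  set K : ℝ := C1 * (X : ℝ) ^ ε1 * (1 + F.card * X / Y) * H with hK
  have hK0 : 0 ≤ K := by positivity
  set V : ℝ := C2 * (X : ℝ) ^ ε1 * H with hV
  have hV0 : 0 ≤ V := by positivity
  have hmem : ∀ p ∈ F, p.1 ≠ 0 ∧ p.1 ≤ X ∧ p.2.IsPrimitive ∧ p.2 ≠ 1 := by
    intro p hp
    rw [hF, mem_QFs hIN] at hp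
    exact ⟨hp.1, hp.2.1, hp.2.2.1, hp.2.2.2.2.1⟩
  have hreal : ∀ p ∈ F, p.2 ^ 2 = 1 := by
    intro p hp
    rw [hF, mem_QFs hIN] at hp
    exact hp.2.2.2.1
  have hinj : ∀ p ∈ F, ∀ p' ∈ F, p.1 = p'.1 → p = p' := by
    intro p hp p' hp' h
    rw [hF, mem_QFs hIN] at hp hp'
    exact (hIN b X).2 p hp p' hp' h
  set f : Fin k → DC → ℝ → ℂ := fun j p u =>
    if p ∈ F then LL p (1 / 2 + I * (((if σ j then 1 else -1) * u : ℝ) : ℂ)) else 0 with hf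
  set g : Fin k → DC → ℝ → ℂ := fun j p u => PY Y p ((if σ j then 1 else -1) * u) with hg
  have hfF : ∀ j, ∀ p ∈ F, f j p = fun u : ℝ =>
      LL p (1 / 2 + I * (((if σ j then 1 else -1) * u : ℝ) : ℂ)) := by
    intro j p hp
    funext u
    rw [hf]
    simp only [hp, if_true]
  have hfc : ∀ j p, Continuous (f j p) := by
    intro j p
    by_cases hp : p ∈ F
    · rw [hfF j p hp]
      exact (LL_cont (hmem p hp).1 (hmem p hp).2.2.2).comp (continuous_const.mul continuous_id)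
    · have : f j p = fun _ => 0 := by
        funext u
        rw [hf]
        simp only [hp, if_false]
      rw [this]
      exact continuous_const
  have hgc : ∀ j p, Continuous (g j p) := by
    intro j p
    rw [hg]
    exact (PY_cont Y p).comp (continuous_const.mul continuous_id)
  have hft : ∀ j, σ j = true → ∀ p ∈ F, ∀ u : ℝ, f j p u = LL p (1 / 2 + I * (u : ℂ)) ∧
      g j p u = PY Y p u := by
    intro j hj p hp u
    rw [hfF j p hp, hg]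
    simp only [hj, if_true, one_mul, and_self]
  have hff : ∀ j, σ j = false → ∀ p ∈ F, ∀ u : ℝ,
      f j p u = (starRingEnd ℂ) (LL p (1 / 2 + I * (u : ℂ))) ∧
      g j p u = (starRingEnd ℂ) (PY Y p u) := by
    intro j hj p hp u
    obtain ⟨q1, q2⟩ := hCJ p u (hmem p hp).1 (hmem p hp).2.2.2 (hreal p hp)
    rw [hfF j p hp, hg, ← q1, ← q2 Y]
    simp only [hj, Bool.false_eq_true, if_false, neg_mul, one_mul, and_self]
  have hop : ∀ j, ∀ w : DC → ℂ, ∫ u in (0:ℝ)..H, ‖∑ p ∈ F, w p * (f j p u - g j p u)‖ ^ 2 ≤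
      K * ∑ p ∈ F, ‖w p‖ ^ 2 := by
    intro j w
    cases hj : σ j with
    | true =>
      have h := h1 X H Y (by omega) hH1 hH2 hY1 hYH F hmem hinj w
      refine le_trans (le_of_eq ?_) h
      apply intervalIntegral.integral_congr
      intro u _
      dsimp only
      congr 2
      refine Finset.sum_congr rfl fun p hp => ?_
      rw [(hft j hj p hp u).1, (hft j hj p hp u).2]
    | false =>
      have h := h1 X H Y (by omega) hH1 hH2 hY1 hYH F hmem hinj (fun p => (starRingEnd ℂ) (w p))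
      simp only [RCLike.norm_conj] at h
      refine le_trans (le_of_eq ?_) h
      apply intervalIntegral.integral_congr
      intro u _
      dsimp only
      rw [← RCLike.norm_conj]
      congr 2
      rw [map_sum]
      refine Finset.sum_congr rfl fun p hp => ?_
      rw [(hff j hj p hp u).1, (hff j hj p hp u).2, map_mul, map_sub, Complex.conj_conj, Complex.conj_conj]
  have hwf : ∀ j, ∀ p ∈ F, ∫ u in (0:ℝ)..H, ‖f j p u‖ ^ 2 ≤ V := by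
    intro j p hp
    obtain ⟨q1, q2, q3, q4⟩ := hmem p hp
    have h := (h2 X H Y (by omega) hH1 hH2 hYX hYH p q1 q2 q3 q4).1
    refine le_trans (le_of_eq ?_) h
    apply intervalIntegral.integral_congr
    intro u _
    dsimp only
    cases hj : σ j with
    | true => rw [(hft j hj p hp u).1]
    | false => rw [(hff j hj p hp u).1, RCLike.norm_conj]
  have hwg : ∀ j, ∀ p ∈ F, ∫ u in (0:ℝ)..H, ‖g j p u‖ ^ 2 ≤ V := by
    intro j p hp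
    obtain ⟨q1, q2, q3, q4⟩ := hmem p hp
    have h := (h2 X H Y (by omega) hH1 hH2 hYX hYH p q1 q2 q3 q4).2
    refine le_trans (le_of_eq ?_) h
    apply intervalIntegral.integral_congr
    intro u _
    dsimp only
    cases hj : σ j with
    | true => rw [(hft j hj p hp u).2]
    | false => rw [(hff j hj p hp u).2, RCLike.norm_conj]
  have r1 := hR H K V hHpos.le hK0 hV0 k F f g hfc hgc hop hwf hwg (fun _ => 1)
  -- bound of the constant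
  have hKle : K ≤ 3 * C1 * (X : ℝ) ^ ε1 * (1 + X ^ 2 / H) * H := by
    have e1 : (F.card : ℝ) * X / Y ≤ 2 * (X ^ 2 / H) := by
      rw [div_le_iff₀ hY0]
      calc (F.card : ℝ) * X ≤ X * X := by gcongr
        _ = 2 * (X ^ 2 / H) * (H / 2) := by
            field_simp
        _ ≤ _ := by gcongr
    have e2 : 0 < (X:ℝ) ^ 2 / H := by positivity
    calc K ≤ C1 * (X : ℝ) ^ ε1 * (3 * (1 + X ^ 2 / H)) * H := by
          rw [hK]
          gcongr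
          linarith
      _ = _ := by ring
  have hMle : 4 ^ k * K * V ^ (k - 1) * ∑ p ∈ F, ‖(1:ℂ)‖ ^ 2 ≤
      C3 * (X : ℝ) ^ (ε / 2) * (X + X ^ 3 / H) * H ^ k := by
    have e1 : ∑ p ∈ F, ‖(1:ℂ)‖ ^ 2 ≤ (X : ℝ) := by
      simp only [norm_one, one_pow, Finset.sum_const, nsmul_eq_mul, mul_one]
      exact hcard
    have e2 : V ^ (k - 1) = C2 ^ (k - 1) * (X : ℝ) ^ (ε1 * (k - 1)) * H ^ (k - 1) := by
      rw [hV, mul_pow, mul_pow]
      congr 2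
      rw [← Real.rpow_natCast, ← Real.rpow_mul hX0.le]
      congr 2
      push_cast [Nat.cast_sub hk]
      ring
    have e3 : H ^ (k - 1) * H = H ^ k := by
      rw [← pow_succ]
      congr 1
      omega
    have e4 : (X : ℝ) ^ ε1 * (X : ℝ) ^ (ε1 * (k - 1)) ≤ (X : ℝ) ^ (ε / 2) := by
      rw [← Real.rpow_add hX0]
      exact Real.rpow_le_rpow_of_exponent_le hX1r (by nlinarith)
    calc 4 ^ k * K * V ^ (k - 1) * ∑ p ∈ F, ‖(1:ℂ)‖ ^ 2
        ≤ 4 ^ k * (3 * C1 * (X : ℝ) ^ ε1 * (1 + X ^ 2 / H) * H) *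
          (C2 ^ (k - 1) * (X : ℝ) ^ (ε1 * (k - 1)) * H ^ (k - 1)) * X := by
          rw [e2]
          gcongr
      _ = C3 * ((X : ℝ) ^ ε1 * (X : ℝ) ^ (ε1 * (k - 1))) * (X + X ^ 3 / H) * (H ^ (k - 1) * H) := by
          rw [hC3]
          ring
      _ ≤ C3 * (X : ℝ) ^ (ε / 2) * (X + X ^ 3 / H) * (H ^ (k - 1) * H) := by gcongr
      _ = _ := by rw [e3]
  have hc1 : Continuous fun γ : Fin k → ℝ => ∑ p ∈ F, (1:ℂ) * (∏ j, f j p (γ j) - ∏ j, g j p (γ j)) := by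
    refine continuous_finsetSum _ fun p _ => continuous_const.mul ?_
    exact (continuous_finsetProd _ fun j _ => (hfc j p).comp (continuous_apply j)).sub
      (continuous_finsetProd _ fun j _ => (hgc j p).comp (continuous_apply j))
  set θ1 : ℝ := (X : ℝ) ^ (ε / 2) * ((X : ℝ) ^ (1 / 2 : ℝ) + (X : ℝ) ^ (3 / 2 : ℝ) * hh) with hθ1
  have hθ10 : 0 < θ1 := by positivity
  have b1 := mk (θ := θ1) hc1 hθ10 (r1.trans (ENNReal.ofReal_le_ofReal hMle))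
  have hθsq : (X : ℝ) ^ ε * (X + X ^ 3 / H) ≤ θ1 ^ 2 := by
    have e1 : ((X : ℝ) ^ (ε / 2)) ^ 2 = (X : ℝ) ^ ε := by
      rw [← Real.rpow_natCast, ← Real.rpow_mul hX0.le]
      congr 1
      push_cast
      ring
    have e2 : ((X : ℝ) ^ (1 / 2 : ℝ)) ^ 2 = X := by
      rw [← Real.rpow_natCast, ← Real.rpow_mul hX0.le]
      norm_num
    have e3 : ((X : ℝ) ^ (3 / 2 : ℝ)) ^ 2 = (X : ℝ) ^ 3 := by
      rw [← Real.rpow_natCast, ← Real.rpow_mul hX0.le, ← Real.rpow_natCast]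
      norm_num
    have e4 : ((X : ℝ) ^ (3 / 2 : ℝ) * hh) ^ 2 = X ^ 3 / H := by
      rw [mul_pow, e3, hhsq]
      ring
    rw [hθ1, mul_pow, e1]
    refine mul_le_mul_of_nonneg_left ?_ (by positivity)
    have h3 : 0 ≤ (X : ℝ) ^ (1 / 2 : ℝ) * ((X : ℝ) ^ (3 / 2 : ℝ) * hh) := by positivity
    calc (X:ℝ) + X ^ 3 / H = ((X : ℝ) ^ (1 / 2 : ℝ)) ^ 2 + ((X : ℝ) ^ (3 / 2 : ℝ) * hh) ^ 2 := by
          rw [e2, e4]
      _ ≤ _ := by nlinarith
  have hset : {γ : Fin k → ℝ | (X : ℝ) ^ (ε / 2) * ((X : ℝ) ^ (1 / 2 : ℝ) + (X : ℝ) ^ (3 / 2 : ℝ) * hh) ≤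
      ‖∑ p ∈ F, (∏ j, LL p (1 / 2 + I * (sv σ γ j : ℂ)) - ∏ j, PY Y p (sv σ γ j))‖} ⊆
      {γ | θ1 ≤ ‖∑ p ∈ F, (1:ℂ) * (∏ j, f j p (γ j) - ∏ j, g j p (γ j))‖} := by
    intro γ hγ
    have hγ' : (X : ℝ) ^ (ε / 2) * ((X : ℝ) ^ (1 / 2 : ℝ) + (X : ℝ) ^ (3 / 2 : ℝ) * hh) ≤
      ‖∑ p ∈ F, (∏ j, LL p (1 / 2 + I * (sv σ γ j : ℂ)) - ∏ j, PY Y p (sv σ γ j))‖ := hγ
    have e0 : ∑ p ∈ F, (∏ j, LL p (1 / 2 + I * (sv σ γ j : ℂ)) - ∏ j, PY Y p (sv σ γ j)) =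
        ∑ p ∈ F, (1:ℂ) * (∏ j, f j p (γ j) - ∏ j, g j p (γ j)) := by
      refine Finset.sum_congr rfl fun p hp => ?_
      rw [one_mul]
      congr 1
      · refine Finset.prod_congr rfl fun j _ => ?_
        rw [hfF j p hp]
        dsimp only
        rw [sv_apply]
      · refine Finset.prod_congr rfl fun j _ => ?_
        rw [hg]
        dsimp only
        rw [sv_apply]
    show θ1 ≤ ‖∑ p ∈ F, (1:ℂ) * (∏ j, f j p (γ j) - ∏ j, g j p (γ j))‖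
    rw [← e0]
    exact hγ'
  refine (measure_mono hset).trans (b1.trans (ENNReal.ofReal_le_ofReal ?_))
  rw [div_le_iff₀ (by positivity)]
  have h6 : (X : ℝ) ^ (ε / 2) = (X : ℝ) ^ (-(ε / 2)) * (X : ℝ) ^ ε := by
    rw [← Real.rpow_add hX0]
    congr 1
    ring
  calc C3 * (X : ℝ) ^ (ε / 2) * (X + X ^ 3 / H) * H ^ k =
        C3 * (X : ℝ) ^ (-(ε / 2)) * H ^ k * ((X : ℝ) ^ ε * (X + X ^ 3 / H)) := by
        rw [h6]
        ring
    _ ≤ C3 * (X : ℝ) ^ (-(ε / 2)) * H ^ k * θ1 ^ 2 := by gcongr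

theorem main3 (hOP : S_OP) (hW : S_WIN) (hR : S_REP3) (hIN : S_IN) (κ : ℝ) (hκ : 1 ≤ κ)
    (hPL : S_PL3 κ) (hMT : S_MT3) (hCJ : S_CJ)
    (k : ℕ) (hk : 1 ≤ k) (η A ε : ℝ) (hη : 0 < η) (hε : 0 < ε) (hε1 : ε ≤ 1) :
    ∃ (δ : ℝ) (X0 : ℕ), 0 < δ ∧
    ∀ (σ : Fin k → Bool) (b : Bool) (X : ℕ) (H : ℝ), X0 ≤ X → (X : ℝ) ^ (1 + η) ≤ H →
    H ≤ (X : ℝ) ^ A →
    mP (Fin k) H {γ | (X : ℝ) ^ ε * ((X : ℝ) ^ (κ / 2) + (X : ℝ) ^ (3 / 2 : ℝ) * H ^ (-(1 / 2) : ℝ) +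
        X * H ^ (-(1 / 8) : ℝ)) <
      ‖∑ p ∈ QFs b X, ∏ j, LL p (1 / 2 + I * (sv σ γ j : ℂ)) -
        (3 / Real.pi ^ 2 * X : ℝ) * Mt (sv σ γ)‖} ≤
      ENNReal.ofReal (H ^ k * (X : ℝ) ^ (-δ)) := by
  classical
  have hA0 : 0 ≤ |A| := abs_nonneg A
  set εM : ℝ := ε / (8 * (|A| + 1)) with hεM
  have hεM0 : 0 < εM := by positivity
  have hεM8 : εM ≤ 1 / 8 := by
    rw [hεM, div_le_div_iff₀ (by positivity) (by norm_num)]
    nlinarith
  have hεM2 : εM ≤ ε / 8 := by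
    rw [hεM]
    exact div_le_div_of_nonneg_left hε.le (by norm_num) (by linarith)
  have hAε : A * εM ≤ ε / 4 := by
    rw [hεM, mul_div_assoc', div_le_div_iff₀ (by positivity) (by norm_num)]
    have := le_abs_self A
    nlinarith
  obtain ⟨C3, X1, hC30, h1⟩ := partA3 hOP hW hR hIN hCJ k hk η A ε hη hε
  obtain ⟨C4, hC4, h4⟩ := hPL k A (ε / 2) (by positivity)
  obtain ⟨C5, H0, hC5, hH01, h5⟩ := hMT k εM hεM0 hεM8
  set δ : ℝ := εM / 2 with hδ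
  have hδ0 : 0 < δ := by positivity
  obtain ⟨X3, hX3⟩ : ∃ X3 : ℕ, ∀ X : ℕ, X3 ≤ X → C3 + C4 + C5 + H0 + 3 ≤ (X : ℝ) ^ δ := by
    have h := (tendsto_rpow_atTop hδ0).comp tendsto_natCast_atTop_atTop
    obtain ⟨X3, hX3⟩ := (h.eventually_ge_atTop (C3 + C4 + C5 + H0 + 3)).exists_forall_of_atTop
    exact ⟨X3, hX3⟩
  refine ⟨δ, X1 + X3 + 2, hδ0, ?_⟩
  intro σ b X H hX hH1 hH2
  have hX2' : 2 ≤ X := by omega
  have hX1' : 1 ≤ X := by omega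
  have hXr : (2:ℝ) ≤ X := by exact_mod_cast hX2'
  have hX0 : (0:ℝ) < X := by linarith
  have hX1r : (1:ℝ) ≤ X := by linarith
  have hbig := hX3 X (by omega)
  have hXδ : (X : ℝ) ^ δ ≤ X := by
    conv_rhs => rw [← Real.rpow_one (X : ℝ)]
    exact Real.rpow_le_rpow_of_exponent_le hX1r (by linarith)
  set F := QFs b X with hF
  have hXH : (X : ℝ) ≤ H := by
    refine le_trans ?_ hH1
    conv_lhs => rw [← Real.rpow_one (X : ℝ)]
    exact Real.rpow_le_rpow_of_exponent_le hX1r (by linarith)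
  have hHH0 : H0 ≤ H := by linarith
  have hHpos : 0 < H := by linarith
  set Y : ℕ := ⌊H⌋₊ with hY
  have hYH : (Y : ℝ) ≤ H := Nat.floor_le hHpos.le
  have hYX : X ≤ Y := Nat.le_floor hXH
  have hY1 : 1 ≤ Y := hX1'.trans hYX
  have b1 := h1 σ b X H (by omega) hH1 hH2
  have hYA : (Y : ℝ) ≤ (X : ℝ) ^ A := hYH.trans hH2
  have r2 := h4 σ b X Y H hX1' hY1 hYH hYA
  have hDSc : Continuous fun γ : Fin k → ℝ => DS Y (sv σ γ) := (DS_cont Y).comp (sv_cont σ)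
  have hc2 : Continuous fun γ : Fin k → ℝ => ∑ p ∈ F, ∏ j, PY Y p (sv σ γ j) -
      (3 / Real.pi ^ 2 * X : ℝ) * DS Y (sv σ γ) := by
    refine Continuous.sub ?_ (continuous_const.mul hDSc)
    exact continuous_finsetSum _ fun p _ =>
      continuous_finsetProd _ fun j _ => (PY_cont Y p).comp ((continuous_apply j).comp (sv_cont σ))
  have b2 := mk (θ := (X : ℝ) ^ (ε / 2) * (X : ℝ) ^ (κ / 2)) hc2 (by positivity) r2
  have b3 := h5 σ H hHH0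
  -- the sizes
  obtain ⟨a, ha⟩ : ∃ a : ℝ, a = (X : ℝ) ^ (ε / 2) := ⟨_, rfl⟩
  obtain ⟨P1, hP1⟩ : ∃ P1 : ℝ, P1 = (X : ℝ) ^ (κ / 2) := ⟨_, rfl⟩
  obtain ⟨P2, hP2⟩ : ∃ P2 : ℝ, P2 = (X : ℝ) ^ (3 / 2 : ℝ) * H ^ (-(1 / 2) : ℝ) := ⟨_, rfl⟩
  obtain ⟨P3, hP3⟩ : ∃ P3 : ℝ, P3 = X * H ^ (-(1 / 8) : ℝ) := ⟨_, rfl⟩
  have ha0 : 0 < a := by rw [ha]; positivity
  have hP10 : 0 < P1 := by rw [hP1]; positivity
  have hP20 : 0 < P2 := by rw [hP2]; positivity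
  have hP30 : 0 < P3 := by rw [hP3]; positivity
  have haa : (X : ℝ) ^ ε = a * a := by
    rw [ha, ← Real.rpow_add hX0]
    congr 1
    ring
  have ha2 : 2 ≤ a := by
    have : (X : ℝ) ^ δ ≤ (X : ℝ) ^ (ε / 2) := Real.rpow_le_rpow_of_exponent_le hX1r (by
      rw [hδ]
      linarith)
    rw [ha]
    linarith
  have hhalf : (X : ℝ) ^ (1 / 2 : ℝ) ≤ P1 := by
    rw [hP1]
    exact Real.rpow_le_rpow_of_exponent_le hX1r (by linarith)
  rw [← ha, ← hP2] at b1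
  rw [← ha, ← hP1] at b2
  rw [haa, ← hP1, ← hP2, ← hP3]
  have hpi : 3 / Real.pi ^ 2 ≤ 1 := by
    rw [div_le_one (by positivity)]
    nlinarith [Real.pi_gt_three]
  have e3 : H ^ (εM - 1 / 8) ≤ a * H ^ (-(1 / 8) : ℝ) := by
    rw [sub_eq_add_neg, Real.rpow_add hHpos]
    have : H ^ εM ≤ a := by
      rw [ha]
      calc H ^ εM ≤ ((X : ℝ) ^ A) ^ εM := Real.rpow_le_rpow hHpos.le hH2 hεM0.le
        _ = (X : ℝ) ^ (A * εM) := by rw [← Real.rpow_mul hX0.le]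
        _ ≤ _ := Real.rpow_le_rpow_of_exponent_le hX1r (by linarith)
    gcongr
  -- union
  have hsub : {γ : Fin k → ℝ | a * a * (P1 + P2 + P3) <
      ‖∑ p ∈ F, ∏ j, LL p (1 / 2 + I * (sv σ γ j : ℂ)) - (3 / Real.pi ^ 2 * X : ℝ) * Mt (sv σ γ)‖} ⊆
      ({γ | a * ((X : ℝ) ^ (1 / 2 : ℝ) + P2) ≤
        ‖∑ p ∈ F, (∏ j, LL p (1 / 2 + I * (sv σ γ j : ℂ)) - ∏ j, PY Y p (sv σ γ j))‖} ∪
        {γ | a * P1 ≤
          ‖∑ p ∈ F, ∏ j, PY Y p (sv σ γ j) - (3 / Real.pi ^ 2 * X : ℝ) * DS Y (sv σ γ)‖}) ∪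
        {γ | H ^ (εM - 1 / 8) < ‖DS Y (sv σ γ) - Mt (sv σ γ)‖} := by
    intro γ hγ
    by_contra hcon
    rw [Set.mem_union, Set.mem_union, not_or, not_or] at hcon
    obtain ⟨⟨n1, n2⟩, n3⟩ := hcon
    obtain ⟨U, hU⟩ : ∃ U : ℂ, U = ∑ p ∈ F, ∏ j, LL p (1 / 2 + I * (sv σ γ j : ℂ)) := ⟨_, rfl⟩
    obtain ⟨W, hW'⟩ : ∃ W : ℂ, W = ∑ p ∈ F, ∏ j, PY Y p (sv σ γ j) := ⟨_, rfl⟩
    have n1' : ‖U - W‖ < a * ((X : ℝ) ^ (1 / 2 : ℝ) + P2) := by
      rw [hU, hW', ← Finset.sum_sub_distrib]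
      exact not_le.1 n1
    have n2' : ‖W - (3 / Real.pi ^ 2 * X : ℝ) * DS Y (sv σ γ)‖ < a * P1 := by
      rw [hW']
      exact not_le.1 n2
    have n3' : ‖DS Y (sv σ γ) - Mt (sv σ γ)‖ ≤ H ^ (εM - 1 / 8) := not_lt.1 n3
    have hγ' : a * a * (P1 + P2 + P3) < ‖U - (3 / Real.pi ^ 2 * X : ℝ) * Mt (sv σ γ)‖ := by
      rw [hU]
      exact hγ
    have e2 : ‖((3 / Real.pi ^ 2 * X : ℝ) : ℂ) * (DS Y (sv σ γ) - Mt (sv σ γ))‖ ≤ a * P3 := by
      rw [norm_mul, Complex.norm_real, Real.norm_of_nonneg (by positivity)]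
      calc 3 / Real.pi ^ 2 * X * ‖DS Y (sv σ γ) - Mt (sv σ γ)‖ ≤
            1 * X * (a * H ^ (-(1 / 8) : ℝ)) := by
            have := n3'.trans e3
            gcongr
        _ = _ := by rw [hP3]; ring
    have e5 : ‖U - (3 / Real.pi ^ 2 * X : ℝ) * Mt (sv σ γ)‖ ≤
        a * ((X : ℝ) ^ (1 / 2 : ℝ) + P2) + a * P1 + a * P3 := by
      have e1 : U - (3 / Real.pi ^ 2 * X : ℝ) * Mt (sv σ γ) = (U - W) +
        (W - (3 / Real.pi ^ 2 * X : ℝ) * DS Y (sv σ γ)) +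
        (3 / Real.pi ^ 2 * X : ℝ) * (DS Y (sv σ γ) - Mt (sv σ γ)) := by ring
      rw [e1]
      refine (norm_add_le _ _).trans (add_le_add ((norm_add_le _ _).trans (add_le_add n1'.le n2'.le)) e2)
    have e6 : a * ((X : ℝ) ^ (1 / 2 : ℝ) + P2) + a * P1 + a * P3 ≤ a * (2 * (P1 + P2 + P3)) := by
      have : a * ((X : ℝ) ^ (1 / 2 : ℝ) + P2) + a * P1 + a * P3 =
        a * ((X : ℝ) ^ (1 / 2 : ℝ) + P2 + P1 + P3) := by ring
      rw [this]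
      refine mul_le_mul_of_nonneg_left ?_ ha0.le
      linarith
    have e7 : a * (2 * (P1 + P2 + P3)) ≤ a * a * (P1 + P2 + P3) := by
      have : a * (2 * (P1 + P2 + P3)) = a * 2 * (P1 + P2 + P3) := by ring
      rw [this]
      refine mul_le_mul_of_nonneg_right ?_ (by positivity)
      exact mul_le_mul_of_nonneg_left ha2 ha0.le
    exact absurd hγ' (not_lt.2 (e5.trans (e6.trans e7)))
  refine (measure_mono hsub).trans ((measure_union_le _ _).trans (le_trans (add_le_add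
    ((measure_union_le _ _).trans (add_le_add b1 b2)) b3) ?_))
  rw [← ENNReal.ofReal_add (by positivity) (by positivity),
    ← ENNReal.ofReal_add (by positivity) (by positivity)]
  refine ENNReal.ofReal_le_ofReal ?_
  have hεδ : (X : ℝ) ^ (-(ε / 2)) ≤ (X : ℝ) ^ (-εM) :=
    Real.rpow_le_rpow_of_exponent_le hX1r (by linarith)
  have f1 : C3 * (X : ℝ) ^ (-(ε / 2)) * H ^ k ≤ C3 * (X : ℝ) ^ (-εM) * H ^ k := by gcongr
  have f2 : C4 * (X : ℝ) ^ (κ + ε / 2) * H ^ k / (a * P1) ^ 2 ≤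
      C4 * (X : ℝ) ^ (-εM) * H ^ k := by
    rw [div_le_iff₀ (by positivity)]
    have h6 : (a * P1) ^ 2 = (X : ℝ) ^ (κ + ε) := by
      rw [ha, hP1, ← Real.rpow_add hX0, ← Real.rpow_natCast, ← Real.rpow_mul hX0.le]
      congr 1
      push_cast
      ring
    have h7 : (X : ℝ) ^ (κ + ε / 2) = (X : ℝ) ^ (-(ε / 2)) * (X : ℝ) ^ (κ + ε) := by
      rw [← Real.rpow_add hX0]
      congr 1
      ring
    rw [h6, h7]
    calc C4 * ((X : ℝ) ^ (-(ε / 2)) * (X : ℝ) ^ (κ + ε)) * H ^ k =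
          C4 * (X : ℝ) ^ (-(ε / 2)) * H ^ k * (X : ℝ) ^ (κ + ε) := by ring
      _ ≤ _ := by gcongr
  have f3 : C5 * H ^ k * H ^ (-εM) ≤ C5 * (X : ℝ) ^ (-εM) * H ^ k := by
    have : H ^ (-εM) ≤ (X : ℝ) ^ (-εM) := Real.rpow_le_rpow_of_nonpos hX0 hXH (by linarith)
    calc C5 * H ^ k * H ^ (-εM) ≤ C5 * H ^ k * (X : ℝ) ^ (-εM) := by gcongr
      _ = _ := by ring
  have f4 : (C3 + C4 + C5) * (X : ℝ) ^ (-εM) ≤ (X : ℝ) ^ (-δ) := by
    have : (X : ℝ) ^ (-δ) = (X : ℝ) ^ δ * (X : ℝ) ^ (-εM) := by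
      rw [← Real.rpow_add hX0]
      congr 1
      rw [hδ]
      ring
    rw [this]
    gcongr
    linarith
  calc _ ≤ C3 * (X : ℝ) ^ (-εM) * H ^ k + C4 * (X : ℝ) ^ (-εM) * H ^ k + C5 * (X : ℝ) ^ (-εM) * H ^ k := by
        gcongr
    _ = H ^ k * ((C3 + C4 + C5) * (X : ℝ) ^ (-εM)) := by ring
    _ ≤ _ := by gcongr

end

end Pool.Agent.Y752.QF
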