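import Pool.Agent.Y752.QF.Sw
import Pool.Agent.Y752.QF.Stm3

set_option autoImplicit false

/-! Project QF: the terms of the recipe with a nonempty set of swaps, all sign patterns, with
square-root size. -/

namespace Pool.Agent.Y752.QF

open MeasureTheory Set Filter Complex Topology
open Pool.Agent.TH612.GS (mP zN SepA)
open Pool.Agent.TH521.GS (mor)
open Pool.Agent.Y752.SR (chs tlsι one')
open scoped ENNReal

noncomputable section

lemma sgn_sv {k : ℕ} (S : Finset (Fin k)) (σ : Fin k → Bool) (γ : Fin k → ℝ) :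
    ∃ S' : Finset (Fin k), sgn S (sv σ γ) = sgn S' γ := by
  classical
  refine ⟨Finset.univ.filter fun j => ¬ ((j ∈ S) ↔ (σ j = false)), ?_⟩
  funext j
  unfold sgn sv
  by_cases h1 : j ∈ S <;> cases h2 : σ j <;> simp [h1, h2]

/-- mean square of the power sums over the conductors, all sign patterns -/
lemma pw_ms3 (hIN : S_IN) : ∃ C : ℝ, 0 < C ∧ ∀ (k : ℕ) (σ : Fin k → Bool) (b : Bool) (X : ℕ) (H : ℝ)
    (S : Finset (Fin k)), S.Nonempty → 1 ≤ X → (X : ℝ) ≤ H →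
    ∫⁻ γ, ENNReal.ofReal (‖∑ p ∈ QFs b X, (p.1 : ℂ) ^ (-(I * ((∑ j ∈ S, sv σ γ j : ℝ) : ℂ)))‖ ^ 2)
      ∂(mP (Fin k) H) ≤ ENNReal.ofReal ((C * H) ^ k * X) := by
  classical
  obtain ⟨C1, hC1, hMV⟩ := Pool.Agent.TH928.GS.t_MV
  refine ⟨2 * C1, by positivity, ?_⟩
  intro k σ b X H S hS hX hXH
  have hH : 1 ≤ H := le_trans (by exact_mod_cast hX) hXH
  obtain ⟨j0, hj0⟩ := hS
  have hmem : ∀ p ∈ QFs b X, 1 ≤ p.1 ∧ p.1 ≤ X := by
    intro p hp
    rw [mem_QFs hIN] at hp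
    exact ⟨Nat.one_le_iff_ne_zero.2 hp.1, hp.2.1⟩
  have h1 := tlsι hC1 hMV hH σ (QFs b X)
    (fun p j => if j ∈ S then p.1 else 1) (fun _ => 1) 1
    (fun p hp j => by
      obtain ⟨q1, q2⟩ := hmem p hp
      have q3 : (p.1 : ℝ) ≤ X := by exact_mod_cast q2
      split_ifs
      · exact ⟨q1, q3.trans hXH⟩
      · exact ⟨le_rfl, by simpa using hH⟩)
    (fun p hp => by
      rw [Finset.card_le_one]
      intro p1 hp1 p2 hp2
      rw [Finset.mem_filter] at hp1 hp2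
      have e1 := congrFun hp1.2 j0
      have e2 := congrFun hp2.2 j0
      rw [if_pos hj0, if_pos hj0] at e1 e2
      have m1 := hp1.1
      have m2 := hp2.1
      rw [mem_QFs hIN] at m1 m2
      exact (hIN b X).2 p1 m1 p2 m2 (e1.trans e2.symm))
  have e1 : ∀ γ : Fin k → ℝ, ∑ p ∈ QFs b X, (p.1 : ℂ) ^ (-(I * ((∑ j ∈ S, sv σ γ j : ℝ) : ℂ))) =
      ∑ p ∈ QFs b X, (1:ℂ) * ∏ j, chs (σ j) (if j ∈ S then p.1 else 1) (γ j) := by
    intro γ
    refine Finset.sum_congr rfl fun p hp => ?_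
    have hp0 : (p.1 : ℂ) ≠ 0 := by
      have := (hmem p hp).1
      exact_mod_cast (by omega : p.1 ≠ 0)
    rw [one_mul]
    have e2 : ∀ j, chs (σ j) (if j ∈ S then p.1 else 1) (γ j) =
        if j ∈ S then (p.1 : ℂ) ^ (-(I * (sv σ γ j : ℂ))) else 1 := by
      intro j
      by_cases hj : j ∈ S
      · rw [if_pos hj, if_pos hj]
        unfold chs sv
        cases h2 : σ j <;> simp
      · rw [if_neg hj, if_neg hj]
        unfold chs
        cases h2 : σ j <;> simp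
    simp only [e2]
    rw [Finset.prod_ite_mem, Finset.univ_inter]
    push_cast
    rw [Finset.mul_sum, ← Finset.sum_neg_distrib, Complex.cpow_def_of_ne_zero hp0, Finset.mul_sum,
      Complex.exp_sum]
    refine Finset.prod_congr rfl fun j _ => ?_
    rw [Complex.cpow_def_of_ne_zero hp0]
  refine (le_of_eq (lintegral_congr fun γ => by rw [e1 γ])).trans (h1.trans (ENNReal.ofReal_le_ofReal ?_))
  rw [Fintype.card_fin]
  have : (QFs b X).card ≤ X := card_QFs hIN b X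
  have h3 : ((QFs b X).card : ℝ) ≤ X := by exact_mod_cast this
  have h4 : ((1:ℕ) : ℝ) * ∑ p ∈ QFs b X, ‖(1:ℂ)‖ ^ 2 ≤ X := by
    simp only [norm_one, one_pow, Finset.sum_const, nsmul_eq_mul, mul_one, Nat.cast_one, one_mul]
    exact h3
  exact mul_le_mul_of_nonneg_left h4 (by positivity)

theorem swp3 (hIN : S_IN) (hAR : S_AR) (hPS : S_PS) (k : ℕ) (A ε : ℝ) (hε : 0 < ε) :
    ∃ (δ : ℝ) (X0 : ℕ), 0 < δ ∧ ∀ (σ : Fin k → Bool) (b : Bool) (X : ℕ) (H : ℝ), X0 ≤ X → (X : ℝ) ≤ H →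
    H ≤ (X : ℝ) ^ A →
    mP (Fin k) H {γ | (X : ℝ) ^ (1 / 2 + ε) <
      ‖∑ S : Finset (Fin k), Rt b X S (sv σ γ) - (3 / Real.pi ^ 2 * X : ℝ) * Mt (sv σ γ)‖} ≤
      ENNReal.ofReal (H ^ k * (X : ℝ) ^ (-δ)) := by
  classical
  set ε1 : ℝ := ε / (4 * (|A| + 1)) with hε1
  have hA0 : 0 ≤ |A| := abs_nonneg A
  have hε10 : 0 < ε1 := by positivity
  obtain ⟨C1, T1, hC1, hT1, h1⟩ := Mt_le hPS k hε10
  obtain ⟨C2, hC2, h2⟩ := pw_ms3 hIN
  obtain ⟨C3, hC3, h3⟩ := hAR 1 one_pos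
  obtain ⟨C4, T4, hC4, hT4, h4⟩ := Pool.Agent.TH637.GF.t_NA k (fun _ => 0)
  set D : ℝ := C3 * C1 + 2 ^ k * C1 + 2 ^ k * C2 ^ k + C4 with hD
  have hD0 : 0 < D := by positivity
  set m : ℝ := min (ε / 4) (1 / 4) with hm
  have hm0 : 0 < m := lt_min (by positivity) (by norm_num)
  have hm1 : m ≤ ε / 4 := min_le_left _ _
  have hm2 : m ≤ 1 / 4 := min_le_right _ _
  obtain ⟨X3, hX3⟩ : ∃ X3 : ℕ, ∀ X : ℕ, X3 ≤ X → D + T1 + T4 ≤ (X : ℝ) ^ m := by
    have h := (tendsto_rpow_atTop hm0).comp tendsto_natCast_atTop_atTop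
    obtain ⟨X3, hX3⟩ := (h.eventually_ge_atTop (D + T1 + T4)).exists_forall_of_atTop
    exact ⟨X3, hX3⟩
  refine ⟨m, X3 + 1, hm0, ?_⟩
  intro σ b X H hX hXH hH2
  have hX1 : 1 ≤ X := by omega
  have hX1r : (1:ℝ) ≤ X := by exact_mod_cast hX1
  have hX0 : (0:ℝ) < X := by linarith
  have hbig := hX3 X (by omega)
  have hH0 : 0 < H := by linarith
  have hXs : (X : ℝ) ^ m ≤ X := by
    conv_rhs => rw [← Real.rpow_one (X : ℝ)]
    exact Real.rpow_le_rpow_of_exponent_le hX1r (by linarith)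
  have hHT1 : T1 ≤ H := by linarith
  have hHT4 : T4 ≤ H := by linarith
  have hHε : H ^ ε1 ≤ (X : ℝ) ^ (ε / 4) := by
    calc H ^ ε1 ≤ ((X : ℝ) ^ A) ^ ε1 := Real.rpow_le_rpow hH0.le hH2 hε10.le
      _ = (X : ℝ) ^ (A * ε1) := by rw [← Real.rpow_mul hX0.le]
      _ ≤ _ := by
        refine Real.rpow_le_rpow_of_exponent_le hX1r ?_
        rw [hε1, mul_div_assoc', div_le_div_iff₀ (by positivity) (by norm_num)]
        have := le_abs_self A
        nlinarith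
  have hM : ∀ (S : Finset (Fin k)) (γ : Fin k → ℝ), γ ∈ SepA (fun _ => 0) H →
      ‖Mt (sgn S (sv σ γ))‖ ≤ C1 * (X : ℝ) ^ (ε / 4) := fun S γ hγ => by
    obtain ⟨S', hS'⟩ := sgn_sv S σ γ
    rw [hS']
    exact (h1 H γ S' hHT1 hγ).trans (mul_le_mul_of_nonneg_left hHε hC1.le)
  -- the bad sets
  have hc : ∀ S : Finset (Fin k), Continuous fun γ : Fin k → ℝ =>
      ∑ p ∈ QFs b X, (p.1 : ℂ) ^ (-(I * ((∑ j ∈ S, sv σ γ j : ℝ) : ℂ))) := by
    intro S
    refine continuous_finsetSum _ fun p hp => ?_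
    rw [mem_QFs hIN] at hp
    have : (p.1 : ℂ) ≠ 0 := by exact_mod_cast hp.1
    have hsv : ∀ j, Continuous fun γ : Fin k → ℝ => sv σ γ j := by
      intro j
      unfold sv
      cases σ j
      · simp only [Bool.false_eq_true, if_false]
        fun_prop
      · simp only [if_true]
        fun_prop
    refine Continuous.const_cpow ?_ (Or.inl this)
    exact (continuous_const.mul (Complex.continuous_ofReal.comp (continuous_finsetSum _ fun j _ => hsv j))).neg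
  have bS : ∀ S : Finset (Fin k), S.Nonempty → mP (Fin k) H {γ | (X : ℝ) ^ (1 / 2 + ε / 4) ≤
      ‖∑ p ∈ QFs b X, (p.1 : ℂ) ^ (-(I * ((∑ j ∈ S, sv σ γ j : ℝ) : ℂ)))‖} ≤
      ENNReal.ofReal (C2 ^ k * (X : ℝ) ^ (-(ε / 2)) * H ^ k) := by
    intro S hS
    refine (mk (hc S) (by positivity) (h2 k σ b X H S hS hX1 hXH)).trans (ENNReal.ofReal_le_ofReal ?_)
    have hsq : ((X : ℝ) ^ (1 / 2 + ε / 4)) ^ 2 = (X : ℝ) ^ (1 + ε / 2) := by
      rw [← Real.rpow_natCast, ← Real.rpow_mul hX0.le]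
      congr 1
      push_cast
      ring
    rw [hsq, div_le_iff₀ (by positivity), mul_pow]
    have : (X : ℝ) ^ (-(ε / 2)) * (X : ℝ) ^ (1 + ε / 2) = X := by
      rw [← Real.rpow_add hX0]
      have : -(ε / 2) + (1 + ε / 2) = 1 := by ring
      rw [this, Real.rpow_one]
    refine le_of_eq ?_
    linear_combination (-(C2 ^ k * H ^ k)) * this
  have bN := h4 H hHT4
  have hsub : {γ : Fin k → ℝ | (X : ℝ) ^ (1 / 2 + ε) <
      ‖∑ S : Finset (Fin k), Rt b X S (sv σ γ) - (3 / Real.pi ^ 2 * X : ℝ) * Mt (sv σ γ)‖} ⊆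
      (⋃ S ∈ (Finset.univ : Finset (Finset (Fin k))).erase ∅, {γ | (X : ℝ) ^ (1 / 2 + ε / 4) ≤
        ‖∑ p ∈ QFs b X, (p.1 : ℂ) ^ (-(I * ((∑ j ∈ S, sv σ γ j : ℝ) : ℂ)))‖}) ∪
        (SepA (fun _ => 0) H)ᶜ := by
    intro γ hγ
    by_contra hcon
    rw [Set.mem_union, not_or, Set.mem_compl_iff, not_not] at hcon
    obtain ⟨n1, n2⟩ := hcon
    have n1' : ∀ S : Finset (Fin k), S.Nonempty →
        ‖∑ p ∈ QFs b X, (p.1 : ℂ) ^ (-(I * ((∑ j ∈ S, sv σ γ j : ℝ) : ℂ)))‖ ≤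
          (X : ℝ) ^ (1 / 2 + ε / 4) := by
      intro S hS
      by_contra hc
      apply n1
      simp only [Set.mem_iUnion]
      exact ⟨S, Finset.mem_erase.2 ⟨hS.ne_empty, Finset.mem_univ _⟩, (not_le.1 hc).le⟩
    have hγ' : (X : ℝ) ^ (1 / 2 + ε) <
      ‖∑ S : Finset (Fin k), Rt b X S (sv σ γ) - (3 / Real.pi ^ 2 * X : ℝ) * Mt (sv σ γ)‖ := hγ
    have e0 : ∑ S : Finset (Fin k), Rt b X S (sv σ γ) = Rt b X ∅ (sv σ γ) +
        ∑ S ∈ (Finset.univ : Finset (Finset (Fin k))).erase ∅, Rt b X S (sv σ γ) :=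
      (Finset.add_sum_erase _ _ (Finset.mem_univ _)).symm
    have hsg : sgn ∅ (sv σ γ) = sv σ γ := by
      funext j
      simp [sgn]
    have e1 : Rt b X ∅ (sv σ γ) - (3 / Real.pi ^ 2 * X : ℝ) * Mt (sv σ γ) = Ee b X 1 * Mt (sv σ γ) := by
      unfold Rt Ee mm
      rw [hsg]
      have q1 : ∑ p ∈ QFs b X, (p.1 : ℂ) ^ (-(I * ((∑ j ∈ (∅ : Finset (Fin k)), sv σ γ j : ℝ) : ℂ))) =
          ∑ p ∈ QFs b X, cv p 1 := by
        refine Finset.sum_congr rfl fun p _ => ?_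
        simp [cv]
      rw [q1]
      have q2 : hw 1 = 1 := by simp [hw]
      rw [if_pos (show IsSquare 1 from ⟨1, rfl⟩), q2, mul_one, Finset.prod_empty]
      ring
    have e2 : ‖Ee b X 1 * Mt (sv σ γ)‖ ≤ C3 * C1 * (X : ℝ) ^ (1 / 2 + ε / 2) := by
      rw [norm_mul]
      have q1 := h3 b X 1 hX1 le_rfl
      rw [Nat.cast_one, Real.one_rpow, mul_one] at q1
      have q2 := hM ∅ γ n2
      rw [hsg] at q2
      calc ‖Ee b X 1‖ * ‖Mt (sv σ γ)‖ ≤ C3 * (X : ℝ) ^ (1 / 2 : ℝ) * (C1 * (X : ℝ) ^ (ε / 4)) := by gcongr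
        _ = C3 * C1 * (X : ℝ) ^ (1 / 2 + ε / 4) := by
            rw [Real.rpow_add hX0]
            ring
        _ ≤ _ := by
            have : (X : ℝ) ^ (1 / 2 + ε / 4) ≤ (X : ℝ) ^ (1 / 2 + ε / 2) :=
              Real.rpow_le_rpow_of_exponent_le hX1r (by linarith)
            gcongr
    have e3 : ∀ S ∈ (Finset.univ : Finset (Finset (Fin k))).erase ∅, ‖Rt b X S (sv σ γ)‖ ≤
        C1 * (X : ℝ) ^ (1 / 2 + ε / 2) := by
      intro S hS
      have hS' : S.Nonempty := Finset.nonempty_iff_ne_empty.2 (Finset.mem_erase.1 hS).1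
      unfold Rt
      rw [norm_mul, norm_mul, norm_prod, Finset.prod_congr rfl (fun j _ => xx_norm _ (sv σ γ j)),
        Finset.prod_const_one, mul_one]
      calc _ ≤ (X : ℝ) ^ (1 / 2 + ε / 4) * (C1 * (X : ℝ) ^ (ε / 4)) :=
            mul_le_mul (n1' S hS') (hM S γ n2) (norm_nonneg _) (by positivity)
        _ = _ := by
            have : (X : ℝ) ^ (1 / 2 + ε / 4) * (X : ℝ) ^ (ε / 4) = (X : ℝ) ^ (1 / 2 + ε / 2) := by
              rw [← Real.rpow_add hX0]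
              congr 1
              ring
            rw [← this]
            ring
    have hcard : (((Finset.univ : Finset (Finset (Fin k))).erase ∅).card : ℝ) ≤ 2 ^ k := by
      have : ((Finset.univ : Finset (Finset (Fin k))).erase ∅).card ≤ 2 ^ k := by
        refine (Finset.card_erase_le).trans ?_
        simp
      exact_mod_cast this
    have e4 : ‖∑ S ∈ (Finset.univ : Finset (Finset (Fin k))).erase ∅, Rt b X S (sv σ γ)‖ ≤
        2 ^ k * C1 * (X : ℝ) ^ (1 / 2 + ε / 2) := by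
      refine (norm_sum_le _ _).trans ((Finset.sum_le_sum e3).trans ?_)
      rw [Finset.sum_const, nsmul_eq_mul, mul_assoc]
      exact mul_le_mul_of_nonneg_right hcard (by positivity)
    have e5 : ‖∑ S : Finset (Fin k), Rt b X S (sv σ γ) - (3 / Real.pi ^ 2 * X : ℝ) * Mt (sv σ γ)‖ ≤
        D * (X : ℝ) ^ (1 / 2 + ε / 2) := by
      have : ∑ S : Finset (Fin k), Rt b X S (sv σ γ) - (3 / Real.pi ^ 2 * X : ℝ) * Mt (sv σ γ) =
          Ee b X 1 * Mt (sv σ γ) +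
          ∑ S ∈ (Finset.univ : Finset (Finset (Fin k))).erase ∅, Rt b X S (sv σ γ) := by
        rw [e0, ← e1]
        ring
      rw [this]
      refine (norm_add_le _ _).trans ?_
      have hp : 0 < (X : ℝ) ^ (1 / 2 + ε / 2) := by positivity
      calc _ ≤ C3 * C1 * (X : ℝ) ^ (1 / 2 + ε / 2) + 2 ^ k * C1 * (X : ℝ) ^ (1 / 2 + ε / 2) := add_le_add e2 e4
        _ = (C3 * C1 + 2 ^ k * C1) * (X : ℝ) ^ (1 / 2 + ε / 2) := by ring
        _ ≤ _ := by
          refine mul_le_mul_of_nonneg_right ?_ hp.le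
          rw [hD]
          have : 0 < 2 ^ k * C2 ^ k := by positivity
          linarith
    have e6 : D * (X : ℝ) ^ (1 / 2 + ε / 2) ≤ (X : ℝ) ^ (1 / 2 + ε) := by
      calc D * (X : ℝ) ^ (1 / 2 + ε / 2) ≤ (X : ℝ) ^ m * (X : ℝ) ^ (1 / 2 + ε / 2) := by
            gcongr
            linarith
        _ = (X : ℝ) ^ (m + (1 / 2 + ε / 2)) := by rw [Real.rpow_add hX0 m]
        _ ≤ _ := Real.rpow_le_rpow_of_exponent_le hX1r (by linarith)
    linarith
  have hcard : (((Finset.univ : Finset (Finset (Fin k))).erase ∅).card : ℝ) ≤ 2 ^ k := by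
    have : ((Finset.univ : Finset (Finset (Fin k))).erase ∅).card ≤ 2 ^ k := by
      refine (Finset.card_erase_le).trans ?_
      simp
    exact_mod_cast this
  refine (measure_mono hsub).trans ((measure_union_le _ _).trans (le_trans (add_le_add
    ((measure_biUnion_finset_le _ _).trans (Finset.sum_le_sum fun S hS =>
      bS S (Finset.nonempty_iff_ne_empty.2 (Finset.mem_erase.1 hS).1))) bN) ?_))
  rw [← ENNReal.ofReal_sum_of_nonneg (fun _ _ => by positivity),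
    ← ENNReal.ofReal_add (Finset.sum_nonneg fun _ _ => by positivity) (by positivity)]
  refine ENNReal.ofReal_le_ofReal ?_
  rw [Finset.sum_const, nsmul_eq_mul]
  have g1 : C4 * H ^ ((k : ℝ) - 1 / 2) ≤ C4 * (X : ℝ) ^ (-(2 * m)) * H ^ k := by
    have : H ^ ((k : ℝ) - 1 / 2) = H ^ k * H ^ (-(1 / 2) : ℝ) := by
      rw [sub_eq_add_neg, Real.rpow_add hH0, Real.rpow_natCast]
    rw [this]
    have h5 : H ^ (-(1 / 2) : ℝ) ≤ (X : ℝ) ^ (-(1 / 2) : ℝ) :=
      Real.rpow_le_rpow_of_nonpos hX0 hXH (by norm_num)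
    have h6 : (X : ℝ) ^ (-(1 / 2) : ℝ) ≤ (X : ℝ) ^ (-(2 * m)) :=
      Real.rpow_le_rpow_of_exponent_le hX1r (by linarith)
    calc C4 * (H ^ k * H ^ (-(1 / 2) : ℝ)) ≤ C4 * (H ^ k * (X : ℝ) ^ (-(2 * m))) := by
          have := h5.trans h6
          gcongr
      _ = _ := by ring
  have g2 : (X : ℝ) ^ (-(ε / 2)) ≤ (X : ℝ) ^ (-(2 * m)) :=
    Real.rpow_le_rpow_of_exponent_le hX1r (by linarith)
  calc _ ≤ 2 ^ k * (C2 ^ k * (X : ℝ) ^ (-(2 * m)) * H ^ k) +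
        C4 * (X : ℝ) ^ (-(2 * m)) * H ^ k := by gcongr
    _ = (2 ^ k * C2 ^ k + C4) * (X : ℝ) ^ (-(2 * m)) * H ^ k := by ring
    _ ≤ (X : ℝ) ^ m * (X : ℝ) ^ (-(2 * m)) * H ^ k := by
        gcongr
        have : 0 < C3 * C1 + 2 ^ k * C1 := by positivity
        have hT1' : 0 ≤ T1 := by linarith
        have hT4' : 0 ≤ T4 := by linarith
        rw [hD] at hbig
        linarith
    _ = H ^ k * (X : ℝ) ^ (-m) := by
        rw [← Real.rpow_add hX0]
        have : m + -(2 * m) = -m := by ring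
        rw [this]
        ring

end

end Pool.Agent.Y752.QF
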