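import Pool.Agent.Y752.QF.Fin
import Pool.Agent.Y752.QF.Final3
import Pool.Agent.Y752.QF.Sw3

set_option autoImplicit false

/-! Project QF: the final form on `[-H, H]^k`. -/

namespace Pool.Agent.Y752.QF

open MeasureTheory Set Filter Complex Topology
open Pool.Agent.TH612.GS (mP zN SepA)
open scoped ENNReal

noncomputable section

lemma sv_sv {k : ℕ} (σ : Fin k → Bool) (γ : Fin k → ℝ) : sv σ (sv σ γ) = γ := by
  funext j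
  unfold sv
  cases h : σ j <;> simp

lemma sv_vol {k : ℕ} (σ : Fin k → Bool) (S : Set (Fin k → ℝ)) :
    volume ((fun γ : Fin k → ℝ => sv σ γ) ⁻¹' S) = volume S := by
  have h1 : MeasurePreserving (fun γ : Fin k → ℝ => fun j => (if σ j then (γ j) else -(γ j) : ℝ))
      volume volume := by
    refine volume_preserving_pi (f := fun j => fun x : ℝ => if σ j then x else -x) fun j => ?_
    cases h : σ j
    · simp only [Bool.false_eq_true, if_false]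
      exact Measure.measurePreserving_neg volume
    · simp only [if_true]
      exact MeasurePreserving.id _
  have hinv : Function.LeftInverse (fun γ : Fin k → ℝ => sv σ γ) (fun γ : Fin k → ℝ => sv σ γ) := sv_sv σ
  let e : (Fin k → ℝ) ≃ᵐ (Fin k → ℝ) :=
    { toEquiv := ⟨fun γ => sv σ γ, fun γ => sv σ γ, hinv, hinv⟩
      measurable_toFun := (sv_cont σ).measurable
      measurable_invFun := (sv_cont σ).measurable }
  have h2 : MeasurePreserving e volume volume := h1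
  exact h2.measure_preimage_equiv S

theorem final3 (hOP : S_OP) (hW : S_WIN) (hR : S_REP3) (hIN : S_IN) (κ : ℝ) (hκ : 1 ≤ κ)
    (hPL : S_PL3 κ) (hMT : S_MT3) (hCJ : S_CJ) (hAR : S_AR) (hPS : S_PS)
    (k : ℕ) (hk : 1 ≤ k) (η A ε : ℝ) (hη : 0 < η) (hε : 0 < ε) :
    ∃ (δ : ℝ) (X0 : ℕ), 0 < δ ∧ ∀ (b : Bool) (X : ℕ) (H : ℝ), X0 ≤ X → (X : ℝ) ^ (1 + η) ≤ H →
    H ≤ (X : ℝ) ^ A →
    volume {γ : Fin k → ℝ | (∀ i, |γ i| ≤ H) ∧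
      ((X : ℝ) ^ ε * ((X : ℝ) ^ (κ / 2) + (X : ℝ) ^ (3 / 2 : ℝ) * H ^ (-(1 / 2) : ℝ) +
        X * H ^ (-(1 / 8) : ℝ)) <
        ‖∑ p ∈ QFs b X, ∏ j, LL p (1 / 2 + I * (γ j : ℂ)) - (3 / Real.pi ^ 2 * X : ℝ) * Mt γ‖ ∨
      (X : ℝ) ^ ε * ((X : ℝ) ^ (κ / 2) + (X : ℝ) ^ (3 / 2 : ℝ) * H ^ (-(1 / 2) : ℝ) +
        X * H ^ (-(1 / 8) : ℝ)) <
        ‖∑ p ∈ QFs b X, ∏ j, LL p (1 / 2 + I * (γ j : ℂ)) - ∑ S : Finset (Fin k), Rt b X S γ‖)} ≤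
      ENNReal.ofReal (H ^ k * (X : ℝ) ^ (-δ)) := by
  classical
  obtain ⟨ε0, hε0⟩ : ∃ ε0 : ℝ, ε0 = min ε 1 / 2 := ⟨_, rfl⟩
  have hm0 : 0 < min ε 1 := lt_min hε one_pos
  have hε00 : 0 < ε0 := by rw [hε0]; positivity
  have hε01 : ε0 ≤ 1 := by
    have := min_le_right ε 1
    rw [hε0]
    linarith
  have hε02 : 2 * ε0 ≤ ε := by
    have := min_le_left ε 1
    rw [hε0]
    linarith
  obtain ⟨δ1, X1, hδ1, h1⟩ := main3 hOP hW hR hIN κ hκ hPL hMT hCJ k hk η A ε0 hη hε00 hε01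
  obtain ⟨δ2, X2, hδ2, h2⟩ := swp3 hIN hAR hPS k A ε0 hε00
  obtain ⟨m, hm⟩ : ∃ m : ℝ, m = min (min δ1 δ2) ε0 := ⟨_, rfl⟩
  have hm0 : 0 < m := by rw [hm]; exact lt_min (lt_min hδ1 hδ2) hε00
  have hm1 : m ≤ δ1 := by rw [hm]; exact (min_le_left _ _).trans (min_le_left _ _)
  have hm2 : m ≤ δ2 := by rw [hm]; exact (min_le_left _ _).trans (min_le_right _ _)
  have hm3 : m ≤ ε0 := by rw [hm]; exact min_le_right _ _
  obtain ⟨δ, hδ⟩ : ∃ δ : ℝ, δ = m / 2 := ⟨_, rfl⟩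
  have hδ0 : 0 < δ := by rw [hδ]; positivity
  obtain ⟨X3, hX3⟩ : ∃ X3 : ℕ, ∀ X : ℕ, X3 ≤ X → 2 + 2 ^ (k + 1) ≤ (X : ℝ) ^ δ := by
    have h := (tendsto_rpow_atTop hδ0).comp tendsto_natCast_atTop_atTop
    obtain ⟨X3, hX3⟩ := (h.eventually_ge_atTop (2 + 2 ^ (k + 1))).exists_forall_of_atTop
    exact ⟨X3, hX3⟩
  refine ⟨δ, X1 + X2 + X3 + 1, hδ0, ?_⟩
  intro b X H hX hH1 hH2
  have hX1 : 1 ≤ X := by omega
  have hX1r : (1:ℝ) ≤ X := by exact_mod_cast hX1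
  have hX0 : (0:ℝ) < X := by linarith
  have hbig := hX3 X (by omega)
  have hXH : (X : ℝ) ≤ H := by
    refine le_trans ?_ hH1
    conv_lhs => rw [← Real.rpow_one (X : ℝ)]
    exact Real.rpow_le_rpow_of_exponent_le hX1r (by linarith)
  have hH0 : 0 < H := by linarith
  obtain ⟨P, hP⟩ : ∃ P : ℝ, P = (X : ℝ) ^ (κ / 2) + (X : ℝ) ^ (3 / 2 : ℝ) * H ^ (-(1 / 2) : ℝ) +
        X * H ^ (-(1 / 8) : ℝ) := ⟨_, rfl⟩
  rw [← hP]
  have hP0 : 0 < P := by rw [hP]; positivity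
  have hPh : (X : ℝ) ^ (1 / 2 + ε0) ≤ (X : ℝ) ^ ε0 * P := by
    rw [Real.rpow_add hX0, mul_comm]
    refine mul_le_mul_of_nonneg_left ?_ (by positivity)
    have e1 : (X : ℝ) ^ (1 / 2 : ℝ) ≤ (X : ℝ) ^ (κ / 2) :=
      Real.rpow_le_rpow_of_exponent_le hX1r (by linarith)
    have e2 : 0 < (X : ℝ) ^ (3 / 2 : ℝ) * H ^ (-(1 / 2) : ℝ) := by positivity
    have e3 : 0 < X * H ^ (-(1 / 8) : ℝ) := by positivity
    rw [hP]
    linarith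
  have hdbl : 2 * ((X : ℝ) ^ ε0 * P) ≤ (X : ℝ) ^ ε * P := by
    have e1 : (X : ℝ) ^ δ ≤ (X : ℝ) ^ ε0 := Real.rpow_le_rpow_of_exponent_le hX1r (by
      rw [hδ]
      linarith)
    have e2 : (2:ℝ) ≤ (X : ℝ) ^ ε0 := by
      have : (0:ℝ) < 2 ^ (k + 1) := by positivity
      linarith
    have e3 : (X : ℝ) ^ ε0 * (X : ℝ) ^ ε0 ≤ (X : ℝ) ^ ε := by
      rw [← Real.rpow_add hX0]
      exact Real.rpow_le_rpow_of_exponent_le hX1r (by linarith)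
    have e4 : 0 < (X : ℝ) ^ ε0 := by positivity
    calc 2 * ((X : ℝ) ^ ε0 * P) = 2 * (X : ℝ) ^ ε0 * P := by ring
      _ ≤ (X : ℝ) ^ ε0 * (X : ℝ) ^ ε0 * P := by gcongr
      _ ≤ _ := by gcongr
  -- one orthant
  have horth : ∀ σ : Fin k → Bool, volume {γ : Fin k → ℝ | (∀ i, 0 ≤ γ i ∧ γ i ≤ H) ∧
      ((X : ℝ) ^ ε * P < ‖∑ p ∈ QFs b X, ∏ j, LL p (1 / 2 + I * (sv σ γ j : ℂ)) -
        (3 / Real.pi ^ 2 * X : ℝ) * Mt (sv σ γ)‖ ∨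
      (X : ℝ) ^ ε * P < ‖∑ p ∈ QFs b X, ∏ j, LL p (1 / 2 + I * (sv σ γ j : ℂ)) -
        ∑ S : Finset (Fin k), Rt b X S (sv σ γ)‖)} ≤
      ENNReal.ofReal (H ^ k * (X : ℝ) ^ (-m)) + ENNReal.ofReal (H ^ k * (X : ℝ) ^ (-m)) := by
    intro σ
    have b1 := h1 σ b X H (by omega) hH1 hH2
    have b2 := h2 σ b X H (by omega) hXH hH2
    rw [← hP] at b1
    have hv := vol_mP k H {γ : Fin k → ℝ |
      (X : ℝ) ^ ε * P < ‖∑ p ∈ QFs b X, ∏ j, LL p (1 / 2 + I * (sv σ γ j : ℂ)) -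
        (3 / Real.pi ^ 2 * X : ℝ) * Mt (sv σ γ)‖ ∨
      (X : ℝ) ^ ε * P < ‖∑ p ∈ QFs b X, ∏ j, LL p (1 / 2 + I * (sv σ γ j : ℂ)) -
        ∑ S : Finset (Fin k), Rt b X S (sv σ γ)‖}
    refine le_trans (le_of_eq hv) ?_
    have hsub : {γ : Fin k → ℝ |
      (X : ℝ) ^ ε * P < ‖∑ p ∈ QFs b X, ∏ j, LL p (1 / 2 + I * (sv σ γ j : ℂ)) -
        (3 / Real.pi ^ 2 * X : ℝ) * Mt (sv σ γ)‖ ∨
      (X : ℝ) ^ ε * P < ‖∑ p ∈ QFs b X, ∏ j, LL p (1 / 2 + I * (sv σ γ j : ℂ)) -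
        ∑ S : Finset (Fin k), Rt b X S (sv σ γ)‖} ⊆
        {γ | (X : ℝ) ^ ε0 * P < ‖∑ p ∈ QFs b X, ∏ j, LL p (1 / 2 + I * (sv σ γ j : ℂ)) -
          (3 / Real.pi ^ 2 * X : ℝ) * Mt (sv σ γ)‖} ∪
        {γ | (X : ℝ) ^ (1 / 2 + ε0) < ‖∑ S : Finset (Fin k), Rt b X S (sv σ γ) -
          (3 / Real.pi ^ 2 * X : ℝ) * Mt (sv σ γ)‖} := by
      intro γ hγ
      by_contra hcon
      rw [Set.mem_union, not_or] at hcon
      obtain ⟨U, hU⟩ : ∃ U : ℂ, U = ∑ p ∈ QFs b X, ∏ j, LL p (1 / 2 + I * (sv σ γ j : ℂ)) := ⟨_, rfl⟩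
      obtain ⟨M, hM⟩ : ∃ M : ℂ, M = (3 / Real.pi ^ 2 * X : ℝ) * Mt (sv σ γ) := ⟨_, rfl⟩
      obtain ⟨R, hR⟩ : ∃ R : ℂ, R = ∑ S : Finset (Fin k), Rt b X S (sv σ γ) := ⟨_, rfl⟩
      have n1 : ‖U - M‖ ≤ (X : ℝ) ^ ε0 * P := by
        rw [hU, hM]
        exact not_lt.1 hcon.1
      have n2 : ‖R - M‖ ≤ (X : ℝ) ^ (1 / 2 + ε0) := by
        rw [hR, hM]
        exact not_lt.1 hcon.2
      have n3 : ‖U - R‖ ≤ 2 * ((X : ℝ) ^ ε0 * P) := by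
        have : U - R = (U - M) - (R - M) := by ring
        rw [this]
        refine (norm_sub_le _ _).trans ?_
        linarith
      have n4 : 0 < (X : ℝ) ^ ε0 * P := by positivity
      have hγ' : (X : ℝ) ^ ε * P < ‖U - M‖ ∨ (X : ℝ) ^ ε * P < ‖U - R‖ := by
        rw [hU, hM, hR]
        exact hγ
      rcases hγ' with hγ' | hγ' <;> linarith
    refine (measure_mono hsub).trans ((measure_union_le _ _).trans (add_le_add ?_ ?_))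
    · refine b1.trans (ENNReal.ofReal_le_ofReal ?_)
      have : (X : ℝ) ^ (-δ1) ≤ (X : ℝ) ^ (-m) := Real.rpow_le_rpow_of_exponent_le hX1r (by linarith)
      gcongr
    · refine b2.trans (ENNReal.ofReal_le_ofReal ?_)
      have : (X : ℝ) ^ (-δ2) ≤ (X : ℝ) ^ (-m) := Real.rpow_le_rpow_of_exponent_le hX1r (by linarith)
      gcongr
  -- all orthants
  have hcov : {γ : Fin k → ℝ | (∀ i, |γ i| ≤ H) ∧
      ((X : ℝ) ^ ε * P < ‖∑ p ∈ QFs b X, ∏ j, LL p (1 / 2 + I * (γ j : ℂ)) -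
        (3 / Real.pi ^ 2 * X : ℝ) * Mt γ‖ ∨
      (X : ℝ) ^ ε * P < ‖∑ p ∈ QFs b X, ∏ j, LL p (1 / 2 + I * (γ j : ℂ)) -
        ∑ S : Finset (Fin k), Rt b X S γ‖)} ⊆ ⋃ σ ∈ (Finset.univ : Finset (Fin k → Bool)),
      (fun γ : Fin k → ℝ => sv σ γ) ⁻¹' {γ : Fin k → ℝ | (∀ i, 0 ≤ γ i ∧ γ i ≤ H) ∧
      ((X : ℝ) ^ ε * P < ‖∑ p ∈ QFs b X, ∏ j, LL p (1 / 2 + I * (sv σ γ j : ℂ)) -
        (3 / Real.pi ^ 2 * X : ℝ) * Mt (sv σ γ)‖ ∨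
      (X : ℝ) ^ ε * P < ‖∑ p ∈ QFs b X, ∏ j, LL p (1 / 2 + I * (sv σ γ j : ℂ)) -
        ∑ S : Finset (Fin k), Rt b X S (sv σ γ)‖)} := by
    intro γ hγ
    simp only [Set.mem_iUnion]
    refine ⟨fun j => decide (0 ≤ γ j), Finset.mem_univ _, ?_⟩
    obtain ⟨σ, hσ⟩ : ∃ σ : Fin k → Bool, σ = fun j => decide (0 ≤ γ j) := ⟨_, rfl⟩
    rw [← hσ]
    have h3 : (∀ i, 0 ≤ sv σ γ i ∧ sv σ γ i ≤ H) := by
      intro i
      have h4 := hγ.1 i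
      have h5 : sv σ γ i = |γ i| := by
        unfold sv
        rw [hσ]
        by_cases h6 : 0 ≤ γ i
        · simp only [h6, decide_true, if_true]
          exact (abs_of_nonneg h6).symm
        · simp only [h6, decide_false, Bool.false_eq_true, if_false]
          exact (abs_of_neg (not_le.1 h6)).symm
      rw [h5]
      exact ⟨abs_nonneg _, h4⟩
    refine ⟨h3, ?_⟩
    have h4 := hγ.2
    show (X : ℝ) ^ ε * P < ‖∑ p ∈ QFs b X, ∏ j, LL p (1 / 2 + I * (sv σ (sv σ γ) j : ℂ)) -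
        (3 / Real.pi ^ 2 * X : ℝ) * Mt (sv σ (sv σ γ))‖ ∨
      (X : ℝ) ^ ε * P < ‖∑ p ∈ QFs b X, ∏ j, LL p (1 / 2 + I * (sv σ (sv σ γ) j : ℂ)) -
        ∑ S : Finset (Fin k), Rt b X S (sv σ (sv σ γ))‖
    rw [sv_sv]
    exact h4
  refine (measure_mono hcov).trans ((measure_biUnion_finset_le _ _).trans ?_)
  refine (Finset.sum_le_sum fun σ _ => (le_of_eq (sv_vol σ _)).trans (horth σ)).trans ?_
  rw [Finset.sum_const, ← ENNReal.ofReal_add (by positivity) (by positivity), nsmul_eq_mul,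
    ← ENNReal.ofReal_natCast, ← ENNReal.ofReal_mul (by positivity)]
  refine ENNReal.ofReal_le_ofReal ?_
  have hcard : ((Finset.univ : Finset (Fin k → Bool)).card : ℝ) = 2 ^ k := by
    rw [Finset.card_univ, Fintype.card_fun, Fintype.card_bool, Fintype.card_fin]
    push_cast
    ring
  rw [hcard]
  have hfin : (X : ℝ) ^ (-δ) = (X : ℝ) ^ δ * (X : ℝ) ^ (-m) := by
    rw [← Real.rpow_add hX0]
    congr 1
    rw [hδ]
    ring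
  rw [hfin]
  calc 2 ^ k * (H ^ k * (X : ℝ) ^ (-m) + H ^ k * (X : ℝ) ^ (-m)) =
        H ^ k * (2 ^ (k + 1) * (X : ℝ) ^ (-m)) := by ring
    _ ≤ H ^ k * ((X : ℝ) ^ δ * (X : ℝ) ^ (-m)) := by
        gcongr
        linarith

end

end Pool.Agent.Y752.QF
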