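import Pool.Agent.Y752.QF.All3
import Pool.Agent.Y412.QF.Hbe
import Pool.Agent.Y492.QF.Ns2
import Pool.Agent.Y700.QF.Es1

set_option autoImplicit false

/-! Project QF: the weighted sum of the errors with exponent 1 (large sieve of Heath-Brown). -/

namespace Pool.Agent.Y752.QF

noncomputable section

theorem t_ES1 : S_ESK 1 := Pool.Agent.Y700.QF.ES1
  (Pool.Agent.Y492.QF.NS2 (Pool.Agent.Y412.QF.HBE Pool.Agent.Y412.QF.HBL) Pool.Agent.Y492.QF.PVC)
  t_ARC Pool.Agent.Y845.QF.FM

end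

end Pool.Agent.Y752.QF
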