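import Pool.Agent.Y752.QF.Stm3

set_option autoImplicit false

/-! Project QF (helper752), fourth wave: the box sum and the prediction with error `H^(ε - 1/4)`. -/

namespace Pool.Agent.Y752.QF

open MeasureTheory Set Filter Complex Topology
open Pool.Agent.TH612.GS (mP zN SepA)
open scoped ENNReal

noncomputable section

/-- RR5: hyperbolic region and product outside a small set, `4 N^2 ≤ H` -/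
def S_RR5 : Prop := ∀ (k : ℕ) (ε : ℝ), 0 < ε → ∃ C : ℝ, 1 ≤ C ∧ ∀ (σ : Fin k → Bool) (H : ℝ) (N : ℕ),
  1 ≤ N → 4 * (N : ℝ) ^ 2 ≤ H → ∃ G : Set (Fin k → ℝ), MeasurableSet G ∧
  mP (Fin k) H Gᶜ ≤ ENNReal.ofReal (C * H ^ k * H ^ (-ε)) ∧ ∀ W : ℕ, 1 ≤ W → W ≤ N →
  ∫⁻ γ in G, ENNReal.ofReal (‖QQ2 N (sv σ γ) - PP2 W (sv σ γ)‖ ^ 2) ∂(mP (Fin k) H) ≤
    ENNReal.ofReal (C * H ^ k * H ^ (3 * ε) / W)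

/-- GA5 -/
def S_GA5 : Prop := ∀ (k : ℕ) (ε : ℝ), 0 < ε → ∃ C : ℝ, 1 ≤ C ∧ ∀ (σ : Fin k → Bool) (H θ : ℝ) (N : ℕ),
  0 < θ → 1 ≤ N → 4 * (N : ℝ) ^ 2 ≤ H →
  mP (Fin k) H {γ | θ ≤ ‖AN2 N (sv σ γ) - arithA (sv σ γ) * QQ2 N (sv σ γ)‖ ^ 2} ≤
    ENNReal.ofReal (C * H ^ k * H ^ (4 * ε) / (N * θ) + C * H ^ k * H ^ (-ε))

/-- MT5 -/
def S_MT5 : Prop := ∀ (k : ℕ) (ε : ℝ), 0 < ε → ε ≤ 1 / 8 → ∃ (C H₀ : ℝ), 0 < C ∧ 1 ≤ H₀ ∧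
  ∀ (σ : Fin k → Bool) (H : ℝ), H₀ ≤ H →
  mP (Fin k) H {γ | H ^ (ε - 1 / 4) < ‖DS ⌊H⌋₊ (sv σ γ) - Mt (sv σ γ)‖} ≤
    ENNReal.ofReal (C * H ^ k * H ^ (-(ε / 8)))

end

end Pool.Agent.Y752.QF
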