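import Pool.Agent.Y752.QF.Fin3
import Pool.Agent.Y752.QF.Stm5

set_option autoImplicit false

/-! Project QF: final assembly, square-root remainder. -/

namespace Pool.Agent.Y752.QF

open MeasureTheory Set Filter Complex Topology
open Pool.Agent.TH612.GS (mP zN SepA)
open Pool.Agent.TH521.GS (mor)
open scoped ENNReal

noncomputable section

theorem main5 (hOP : S_OP) (hW : S_WIN) (hR : S_REP3) (hIN : S_IN)
    (hPL : S_PL3 1) (hMT : S_MT5) (hCJ : S_CJ)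
    (k : ℕ) (hk : 1 ≤ k) (η A ε : ℝ) (hη : 0 < η) (hε : 0 < ε) (hε1 : ε ≤ 1) :
    ∃ (δ : ℝ) (X0 : ℕ), 0 < δ ∧
    ∀ (σ : Fin k → Bool) (b : Bool) (X : ℕ) (H : ℝ), X0 ≤ X → (X : ℝ) ^ (1 + η) ≤ H →
    H ≤ (X : ℝ) ^ A →
    mP (Fin k) H {γ | (X : ℝ) ^ ε * ((X : ℝ) ^ (1 / 2 : ℝ) + (X : ℝ) ^ (3 / 2 : ℝ) * H ^ (-(1 / 2) : ℝ)) <
      ‖∑ p ∈ QFs b X, ∏ j, LL p (1 / 2 + I * (sv σ γ j : ℂ)) -
        (3 / Real.pi ^ 2 * X : ℝ) * Mt (sv σ γ)‖} ≤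
      ENNReal.ofReal (H ^ k * (X : ℝ) ^ (-δ)) := by
  classical
  have hA0 : 0 ≤ |A| := abs_nonneg A
  set εM : ℝ := ε / (8 * (|A| + 1)) with hεM
  have hεM0 : 0 < εM := by positivity
  have hεM8 : εM ≤ 1 / 8 := by
    rw [hεM, div_le_div_iff₀ (by positivity) (by norm_num)]
    nlinarith
  have hεM2 : εM ≤ ε / 8 := by
    rw [hεM]
    exact div_le_div_of_nonneg_left hε.le (by norm_num) (by linarith)
  have hAε : A * εM ≤ ε / 4 := by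
    rw [hεM, mul_div_assoc', div_le_div_iff₀ (by positivity) (by norm_num)]
    have := le_abs_self A
    nlinarith
  obtain ⟨C3, X1, hC30, h1⟩ := partA3 hOP hW hR hIN hCJ k hk η A ε hη hε
  obtain ⟨C4, hC4, h4⟩ := hPL k A (ε / 2) (by positivity)
  obtain ⟨C5, H0, hC5, hH01, h5⟩ := hMT k εM hεM0 hεM8
  set δ : ℝ := εM / 16 with hδ
  have hδ0 : 0 < δ := by positivity
  obtain ⟨X3, hX3⟩ : ∃ X3 : ℕ, ∀ X : ℕ, X3 ≤ X → C3 + C4 + C5 + H0 + 3 ≤ (X : ℝ) ^ δ := by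
    have h := (tendsto_rpow_atTop hδ0).comp tendsto_natCast_atTop_atTop
    obtain ⟨X3, hX3⟩ := (h.eventually_ge_atTop (C3 + C4 + C5 + H0 + 3)).exists_forall_of_atTop
    exact ⟨X3, hX3⟩
  refine ⟨δ, X1 + X3 + 2, hδ0, ?_⟩
  intro σ b X H hX hH1 hH2
  have hX2' : 2 ≤ X := by omega
  have hX1' : 1 ≤ X := by omega
  have hXr : (2:ℝ) ≤ X := by exact_mod_cast hX2'
  have hX0 : (0:ℝ) < X := by linarith
  have hX1r : (1:ℝ) ≤ X := by linarith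
  have hbig := hX3 X (by omega)
  have hXδ : (X : ℝ) ^ δ ≤ X := by
    conv_rhs => rw [← Real.rpow_one (X : ℝ)]
    exact Real.rpow_le_rpow_of_exponent_le hX1r (by linarith)
  set F := QFs b X with hF
  have hXH : (X : ℝ) ≤ H := by
    refine le_trans ?_ hH1
    conv_lhs => rw [← Real.rpow_one (X : ℝ)]
    exact Real.rpow_le_rpow_of_exponent_le hX1r (by linarith)
  have hHH0 : H0 ≤ H := by linarith
  have hHpos : 0 < H := by linarith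
  set Y : ℕ := ⌊H⌋₊ with hY
  have hYH : (Y : ℝ) ≤ H := Nat.floor_le hHpos.le
  have hYX : X ≤ Y := Nat.le_floor hXH
  have hY1 : 1 ≤ Y := hX1'.trans hYX
  have b1 := h1 σ b X H (by omega) hH1 hH2
  have hYA : (Y : ℝ) ≤ (X : ℝ) ^ A := hYH.trans hH2
  have r2 := h4 σ b X Y H hX1' hY1 hYH hYA
  have hDSc : Continuous fun γ : Fin k → ℝ => DS Y (sv σ γ) := (DS_cont Y).comp (sv_cont σ)
  have hc2 : Continuous fun γ : Fin k → ℝ => ∑ p ∈ F, ∏ j, PY Y p (sv σ γ j) -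
      (3 / Real.pi ^ 2 * X : ℝ) * DS Y (sv σ γ) := by
    refine Continuous.sub ?_ (continuous_const.mul hDSc)
    exact continuous_finsetSum _ fun p _ =>
      continuous_finsetProd _ fun j _ => (PY_cont Y p).comp ((continuous_apply j).comp (sv_cont σ))
  have b2 := mk (θ := (X : ℝ) ^ (ε / 2) * (X : ℝ) ^ (1 / 2 : ℝ)) hc2 (by positivity) r2
  have b3 := h5 σ H hHH0
  -- the sizes
  obtain ⟨a, ha⟩ : ∃ a : ℝ, a = (X : ℝ) ^ (ε / 2) := ⟨_, rfl⟩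
  obtain ⟨P1, hP1⟩ : ∃ P1 : ℝ, P1 = (X : ℝ) ^ (1 / 2 : ℝ) := ⟨_, rfl⟩
  obtain ⟨P2, hP2⟩ : ∃ P2 : ℝ, P2 = (X : ℝ) ^ (3 / 2 : ℝ) * H ^ (-(1 / 2) : ℝ) := ⟨_, rfl⟩
  obtain ⟨P3, hP3⟩ : ∃ P3 : ℝ, P3 = X * H ^ (-(1 / 4) : ℝ) := ⟨_, rfl⟩
  have ha0 : 0 < a := by rw [ha]; positivity
  have hP10 : 0 < P1 := by rw [hP1]; positivity
  have hP20 : 0 < P2 := by rw [hP2]; positivity
  have hP30 : 0 < P3 := by rw [hP3]; positivity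
  have haa : (X : ℝ) ^ ε = a * a := by
    rw [ha, ← Real.rpow_add hX0]
    congr 1
    ring
  have ha2 : 3 ≤ a := by
    have : (X : ℝ) ^ δ ≤ (X : ℝ) ^ (ε / 2) := Real.rpow_le_rpow_of_exponent_le hX1r (by
      rw [hδ]
      linarith)
    rw [ha]
    linarith
  have hhalf : (X : ℝ) ^ (1 / 2 : ℝ) ≤ P1 := by
    rw [hP1]
  have hP3le : P3 ≤ P1 + P2 := by
    have e1 : P3 ^ 2 = P1 * P2 := by
      rw [hP1, hP2, hP3, mul_pow, ← mul_assoc, ← Real.rpow_add hX0, ← Real.rpow_natCast (X : ℝ) 2,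
        ← Real.rpow_natCast (H ^ (-(1 / 4) : ℝ)) 2, ← Real.rpow_mul hHpos.le]
      norm_num
    nlinarith [sq_nonneg (P1 - P2)]
  rw [← ha, ← hP2] at b1
  rw [← ha, ← hP1] at b2
  rw [haa, ← hP1, ← hP2]
  have hpi : 3 / Real.pi ^ 2 ≤ 1 := by
    rw [div_le_one (by positivity)]
    nlinarith [Real.pi_gt_three]
  have e3 : H ^ (εM - 1 / 4) ≤ a * H ^ (-(1 / 4) : ℝ) := by
    rw [sub_eq_add_neg, Real.rpow_add hHpos]
    have : H ^ εM ≤ a := by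
      rw [ha]
      calc H ^ εM ≤ ((X : ℝ) ^ A) ^ εM := Real.rpow_le_rpow hHpos.le hH2 hεM0.le
        _ = (X : ℝ) ^ (A * εM) := by rw [← Real.rpow_mul hX0.le]
        _ ≤ _ := Real.rpow_le_rpow_of_exponent_le hX1r (by linarith)
    gcongr
  -- union
  have hsub : {γ : Fin k → ℝ | a * a * (P1 + P2) <
      ‖∑ p ∈ F, ∏ j, LL p (1 / 2 + I * (sv σ γ j : ℂ)) - (3 / Real.pi ^ 2 * X : ℝ) * Mt (sv σ γ)‖} ⊆
      ({γ | a * ((X : ℝ) ^ (1 / 2 : ℝ) + P2) ≤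
        ‖∑ p ∈ F, (∏ j, LL p (1 / 2 + I * (sv σ γ j : ℂ)) - ∏ j, PY Y p (sv σ γ j))‖} ∪
        {γ | a * P1 ≤
          ‖∑ p ∈ F, ∏ j, PY Y p (sv σ γ j) - (3 / Real.pi ^ 2 * X : ℝ) * DS Y (sv σ γ)‖}) ∪
        {γ | H ^ (εM - 1 / 4) < ‖DS Y (sv σ γ) - Mt (sv σ γ)‖} := by
    intro γ hγ
    by_contra hcon
    rw [Set.mem_union, Set.mem_union, not_or, not_or] at hcon
    obtain ⟨⟨n1, n2⟩, n3⟩ := hcon
    obtain ⟨U, hU⟩ : ∃ U : ℂ, U = ∑ p ∈ F, ∏ j, LL p (1 / 2 + I * (sv σ γ j : ℂ)) := ⟨_, rfl⟩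
    obtain ⟨W, hW'⟩ : ∃ W : ℂ, W = ∑ p ∈ F, ∏ j, PY Y p (sv σ γ j) := ⟨_, rfl⟩
    have n1' : ‖U - W‖ < a * ((X : ℝ) ^ (1 / 2 : ℝ) + P2) := by
      rw [hU, hW', ← Finset.sum_sub_distrib]
      exact not_le.1 n1
    have n2' : ‖W - (3 / Real.pi ^ 2 * X : ℝ) * DS Y (sv σ γ)‖ < a * P1 := by
      rw [hW']
      exact not_le.1 n2
    have n3' : ‖DS Y (sv σ γ) - Mt (sv σ γ)‖ ≤ H ^ (εM - 1 / 4) := not_lt.1 n3
    have hγ' : a * a * (P1 + P2) < ‖U - (3 / Real.pi ^ 2 * X : ℝ) * Mt (sv σ γ)‖ := by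
      rw [hU]
      exact hγ
    have e2 : ‖((3 / Real.pi ^ 2 * X : ℝ) : ℂ) * (DS Y (sv σ γ) - Mt (sv σ γ))‖ ≤ a * P3 := by
      rw [norm_mul, Complex.norm_real, Real.norm_of_nonneg (by positivity)]
      calc 3 / Real.pi ^ 2 * X * ‖DS Y (sv σ γ) - Mt (sv σ γ)‖ ≤
            1 * X * (a * H ^ (-(1 / 4) : ℝ)) := by
            have := n3'.trans e3
            gcongr
        _ = _ := by rw [hP3]; ring
    have e5 : ‖U - (3 / Real.pi ^ 2 * X : ℝ) * Mt (sv σ γ)‖ ≤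
        a * ((X : ℝ) ^ (1 / 2 : ℝ) + P2) + a * P1 + a * P3 := by
      have e1 : U - (3 / Real.pi ^ 2 * X : ℝ) * Mt (sv σ γ) = (U - W) +
        (W - (3 / Real.pi ^ 2 * X : ℝ) * DS Y (sv σ γ)) +
        (3 / Real.pi ^ 2 * X : ℝ) * (DS Y (sv σ γ) - Mt (sv σ γ)) := by ring
      rw [e1]
      refine (norm_add_le _ _).trans (add_le_add ((norm_add_le _ _).trans (add_le_add n1'.le n2'.le)) e2)
    have e6 : a * ((X : ℝ) ^ (1 / 2 : ℝ) + P2) + a * P1 + a * P3 ≤ a * (3 * (P1 + P2)) := by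
      have : a * ((X : ℝ) ^ (1 / 2 : ℝ) + P2) + a * P1 + a * P3 =
        a * ((X : ℝ) ^ (1 / 2 : ℝ) + P2 + P1 + P3) := by ring
      rw [this]
      refine mul_le_mul_of_nonneg_left ?_ ha0.le
      linarith
    have e7 : a * (3 * (P1 + P2)) ≤ a * a * (P1 + P2) := by
      have : a * (3 * (P1 + P2)) = a * 3 * (P1 + P2) := by ring
      rw [this]
      refine mul_le_mul_of_nonneg_right ?_ (by positivity)
      exact mul_le_mul_of_nonneg_left ha2 ha0.le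
    exact absurd hγ' (not_lt.2 (e5.trans (e6.trans e7)))
  refine (measure_mono hsub).trans ((measure_union_le _ _).trans (le_trans (add_le_add
    ((measure_union_le _ _).trans (add_le_add b1 b2)) b3) ?_))
  rw [← ENNReal.ofReal_add (by positivity) (by positivity),
    ← ENNReal.ofReal_add (by positivity) (by positivity)]
  refine ENNReal.ofReal_le_ofReal ?_
  have hεδ : (X : ℝ) ^ (-(ε / 2)) ≤ (X : ℝ) ^ (-(εM / 8)) :=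
    Real.rpow_le_rpow_of_exponent_le hX1r (by linarith)
  have f1 : C3 * (X : ℝ) ^ (-(ε / 2)) * H ^ k ≤ C3 * (X : ℝ) ^ (-(εM / 8)) * H ^ k := by gcongr
  have f2 : C4 * (X : ℝ) ^ (1 + ε / 2) * H ^ k / (a * P1) ^ 2 ≤
      C4 * (X : ℝ) ^ (-(εM / 8)) * H ^ k := by
    rw [div_le_iff₀ (by positivity)]
    have h6 : (a * P1) ^ 2 = (X : ℝ) ^ (1 + ε) := by
      rw [ha, hP1, ← Real.rpow_add hX0, ← Real.rpow_natCast, ← Real.rpow_mul hX0.le]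
      congr 1
      push_cast
      ring
    have h7 : (X : ℝ) ^ (1 + ε / 2) = (X : ℝ) ^ (-(ε / 2)) * (X : ℝ) ^ (1 + ε) := by
      rw [← Real.rpow_add hX0]
      congr 1
      ring
    rw [h6, h7]
    calc C4 * ((X : ℝ) ^ (-(ε / 2)) * (X : ℝ) ^ (1 + ε)) * H ^ k =
          C4 * (X : ℝ) ^ (-(ε / 2)) * H ^ k * (X : ℝ) ^ (1 + ε) := by ring
      _ ≤ _ := by gcongr
  have f3 : C5 * H ^ k * H ^ (-(εM / 8)) ≤ C5 * (X : ℝ) ^ (-(εM / 8)) * H ^ k := by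
    have : H ^ (-(εM / 8)) ≤ (X : ℝ) ^ (-(εM / 8)) := Real.rpow_le_rpow_of_nonpos hX0 hXH (by linarith)
    calc C5 * H ^ k * H ^ (-(εM / 8)) ≤ C5 * H ^ k * (X : ℝ) ^ (-(εM / 8)) := by gcongr
      _ = _ := by ring
  have f4 : (C3 + C4 + C5) * (X : ℝ) ^ (-(εM / 8)) ≤ (X : ℝ) ^ (-δ) := by
    have : (X : ℝ) ^ (-δ) = (X : ℝ) ^ δ * (X : ℝ) ^ (-(εM / 8)) := by
      rw [← Real.rpow_add hX0]
      congr 1
      rw [hδ]
      ring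
    rw [this]
    gcongr
    linarith
  calc _ ≤ C3 * (X : ℝ) ^ (-(εM / 8)) * H ^ k + C4 * (X : ℝ) ^ (-(εM / 8)) * H ^ k + C5 * (X : ℝ) ^ (-(εM / 8)) * H ^ k := by
        gcongr
    _ = H ^ k * ((C3 + C4 + C5) * (X : ℝ) ^ (-(εM / 8))) := by ring
    _ ≤ _ := by gcongr

theorem final5 (hOP : S_OP) (hW : S_WIN) (hR : S_REP3) (hIN : S_IN)
    (hPL : S_PL3 1) (hMT : S_MT5) (hCJ : S_CJ) (hAR : S_AR) (hPS : S_PS)
    (k : ℕ) (hk : 1 ≤ k) (η A ε : ℝ) (hη : 0 < η) (hε : 0 < ε) :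
    ∃ (δ : ℝ) (X0 : ℕ), 0 < δ ∧ ∀ (b : Bool) (X : ℕ) (H : ℝ), X0 ≤ X → (X : ℝ) ^ (1 + η) ≤ H →
    H ≤ (X : ℝ) ^ A →
    volume {γ : Fin k → ℝ | (∀ i, |γ i| ≤ H) ∧
      ((X : ℝ) ^ ε * ((X : ℝ) ^ (1 / 2 : ℝ) + (X : ℝ) ^ (3 / 2 : ℝ) * H ^ (-(1 / 2) : ℝ)) <
        ‖∑ p ∈ QFs b X, ∏ j, LL p (1 / 2 + I * (γ j : ℂ)) - (3 / Real.pi ^ 2 * X : ℝ) * Mt γ‖ ∨
      (X : ℝ) ^ ε * ((X : ℝ) ^ (1 / 2 : ℝ) + (X : ℝ) ^ (3 / 2 : ℝ) * H ^ (-(1 / 2) : ℝ)) <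
        ‖∑ p ∈ QFs b X, ∏ j, LL p (1 / 2 + I * (γ j : ℂ)) - ∑ S : Finset (Fin k), Rt b X S γ‖)} ≤
      ENNReal.ofReal (H ^ k * (X : ℝ) ^ (-δ)) := by
  classical
  obtain ⟨ε0, hε0⟩ : ∃ ε0 : ℝ, ε0 = min ε 1 / 2 := ⟨_, rfl⟩
  have hm0 : 0 < min ε 1 := lt_min hε one_pos
  have hε00 : 0 < ε0 := by rw [hε0]; positivity
  have hε01 : ε0 ≤ 1 := by
    have := min_le_right ε 1
    rw [hε0]
    linarith
  have hε02 : 2 * ε0 ≤ ε := by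
    have := min_le_left ε 1
    rw [hε0]
    linarith
  obtain ⟨δ1, X1, hδ1, h1⟩ := main5 hOP hW hR hIN hPL hMT hCJ k hk η A ε0 hη hε00 hε01
  obtain ⟨δ2, X2, hδ2, h2⟩ := swp3 hIN hAR hPS k A ε0 hε00
  obtain ⟨m, hm⟩ : ∃ m : ℝ, m = min (min δ1 δ2) ε0 := ⟨_, rfl⟩
  have hm0 : 0 < m := by rw [hm]; exact lt_min (lt_min hδ1 hδ2) hε00
  have hm1 : m ≤ δ1 := by rw [hm]; exact (min_le_left _ _).trans (min_le_left _ _)
  have hm2 : m ≤ δ2 := by rw [hm]; exact (min_le_left _ _).trans (min_le_right _ _)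
  have hm3 : m ≤ ε0 := by rw [hm]; exact min_le_right _ _
  obtain ⟨δ, hδ⟩ : ∃ δ : ℝ, δ = m / 2 := ⟨_, rfl⟩
  have hδ0 : 0 < δ := by rw [hδ]; positivity
  obtain ⟨X3, hX3⟩ : ∃ X3 : ℕ, ∀ X : ℕ, X3 ≤ X → 2 + 2 ^ (k + 1) ≤ (X : ℝ) ^ δ := by
    have h := (tendsto_rpow_atTop hδ0).comp tendsto_natCast_atTop_atTop
    obtain ⟨X3, hX3⟩ := (h.eventually_ge_atTop (2 + 2 ^ (k + 1))).exists_forall_of_atTop
    exact ⟨X3, hX3⟩
  refine ⟨δ, X1 + X2 + X3 + 1, hδ0, ?_⟩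
  intro b X H hX hH1 hH2
  have hX1 : 1 ≤ X := by omega
  have hX1r : (1:ℝ) ≤ X := by exact_mod_cast hX1
  have hX0 : (0:ℝ) < X := by linarith
  have hbig := hX3 X (by omega)
  have hXH : (X : ℝ) ≤ H := by
    refine le_trans ?_ hH1
    conv_lhs => rw [← Real.rpow_one (X : ℝ)]
    exact Real.rpow_le_rpow_of_exponent_le hX1r (by linarith)
  have hH0 : 0 < H := by linarith
  obtain ⟨P, hP⟩ : ∃ P : ℝ, P = (X : ℝ) ^ (1 / 2 : ℝ) + (X : ℝ) ^ (3 / 2 : ℝ) * H ^ (-(1 / 2) : ℝ) := ⟨_, rfl⟩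
  rw [← hP]
  have hP0 : 0 < P := by rw [hP]; positivity
  have hPh : (X : ℝ) ^ (1 / 2 + ε0) ≤ (X : ℝ) ^ ε0 * P := by
    rw [Real.rpow_add hX0, mul_comm]
    refine mul_le_mul_of_nonneg_left ?_ (by positivity)
    have e2 : 0 < (X : ℝ) ^ (3 / 2 : ℝ) * H ^ (-(1 / 2) : ℝ) := by positivity
    rw [hP]
    linarith
  have hdbl : 2 * ((X : ℝ) ^ ε0 * P) ≤ (X : ℝ) ^ ε * P := by
    have e1 : (X : ℝ) ^ δ ≤ (X : ℝ) ^ ε0 := Real.rpow_le_rpow_of_exponent_le hX1r (by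
      rw [hδ]
      linarith)
    have e2 : (2:ℝ) ≤ (X : ℝ) ^ ε0 := by
      have : (0:ℝ) < 2 ^ (k + 1) := by positivity
      linarith
    have e3 : (X : ℝ) ^ ε0 * (X : ℝ) ^ ε0 ≤ (X : ℝ) ^ ε := by
      rw [← Real.rpow_add hX0]
      exact Real.rpow_le_rpow_of_exponent_le hX1r (by linarith)
    have e4 : 0 < (X : ℝ) ^ ε0 := by positivity
    calc 2 * ((X : ℝ) ^ ε0 * P) = 2 * (X : ℝ) ^ ε0 * P := by ring
      _ ≤ (X : ℝ) ^ ε0 * (X : ℝ) ^ ε0 * P := by gcongr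
      _ ≤ _ := by gcongr
  -- one orthant
  have horth : ∀ σ : Fin k → Bool, volume {γ : Fin k → ℝ | (∀ i, 0 ≤ γ i ∧ γ i ≤ H) ∧
      ((X : ℝ) ^ ε * P < ‖∑ p ∈ QFs b X, ∏ j, LL p (1 / 2 + I * (sv σ γ j : ℂ)) -
        (3 / Real.pi ^ 2 * X : ℝ) * Mt (sv σ γ)‖ ∨
      (X : ℝ) ^ ε * P < ‖∑ p ∈ QFs b X, ∏ j, LL p (1 / 2 + I * (sv σ γ j : ℂ)) -
        ∑ S : Finset (Fin k), Rt b X S (sv σ γ)‖)} ≤
      ENNReal.ofReal (H ^ k * (X : ℝ) ^ (-m)) + ENNReal.ofReal (H ^ k * (X : ℝ) ^ (-m)) := by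
    intro σ
    have b1 := h1 σ b X H (by omega) hH1 hH2
    have b2 := h2 σ b X H (by omega) hXH hH2
    rw [← hP] at b1
    have hv := vol_mP k H {γ : Fin k → ℝ |
      (X : ℝ) ^ ε * P < ‖∑ p ∈ QFs b X, ∏ j, LL p (1 / 2 + I * (sv σ γ j : ℂ)) -
        (3 / Real.pi ^ 2 * X : ℝ) * Mt (sv σ γ)‖ ∨
      (X : ℝ) ^ ε * P < ‖∑ p ∈ QFs b X, ∏ j, LL p (1 / 2 + I * (sv σ γ j : ℂ)) -
        ∑ S : Finset (Fin k), Rt b X S (sv σ γ)‖}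
    refine le_trans (le_of_eq hv) ?_
    have hsub : {γ : Fin k → ℝ |
      (X : ℝ) ^ ε * P < ‖∑ p ∈ QFs b X, ∏ j, LL p (1 / 2 + I * (sv σ γ j : ℂ)) -
        (3 / Real.pi ^ 2 * X : ℝ) * Mt (sv σ γ)‖ ∨
      (X : ℝ) ^ ε * P < ‖∑ p ∈ QFs b X, ∏ j, LL p (1 / 2 + I * (sv σ γ j : ℂ)) -
        ∑ S : Finset (Fin k), Rt b X S (sv σ γ)‖} ⊆
        {γ | (X : ℝ) ^ ε0 * P < ‖∑ p ∈ QFs b X, ∏ j, LL p (1 / 2 + I * (sv σ γ j : ℂ)) -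
          (3 / Real.pi ^ 2 * X : ℝ) * Mt (sv σ γ)‖} ∪
        {γ | (X : ℝ) ^ (1 / 2 + ε0) < ‖∑ S : Finset (Fin k), Rt b X S (sv σ γ) -
          (3 / Real.pi ^ 2 * X : ℝ) * Mt (sv σ γ)‖} := by
      intro γ hγ
      by_contra hcon
      rw [Set.mem_union, not_or] at hcon
      obtain ⟨U, hU⟩ : ∃ U : ℂ, U = ∑ p ∈ QFs b X, ∏ j, LL p (1 / 2 + I * (sv σ γ j : ℂ)) := ⟨_, rfl⟩
      obtain ⟨M, hM⟩ : ∃ M : ℂ, M = (3 / Real.pi ^ 2 * X : ℝ) * Mt (sv σ γ) := ⟨_, rfl⟩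
      obtain ⟨R, hR⟩ : ∃ R : ℂ, R = ∑ S : Finset (Fin k), Rt b X S (sv σ γ) := ⟨_, rfl⟩
      have n1 : ‖U - M‖ ≤ (X : ℝ) ^ ε0 * P := by
        rw [hU, hM]
        exact not_lt.1 hcon.1
      have n2 : ‖R - M‖ ≤ (X : ℝ) ^ (1 / 2 + ε0) := by
        rw [hR, hM]
        exact not_lt.1 hcon.2
      have n3 : ‖U - R‖ ≤ 2 * ((X : ℝ) ^ ε0 * P) := by
        have : U - R = (U - M) - (R - M) := by ring
        rw [this]
        refine (norm_sub_le _ _).trans ?_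
        linarith
      have n4 : 0 < (X : ℝ) ^ ε0 * P := by positivity
      have hγ' : (X : ℝ) ^ ε * P < ‖U - M‖ ∨ (X : ℝ) ^ ε * P < ‖U - R‖ := by
        rw [hU, hM, hR]
        exact hγ
      rcases hγ' with hγ' | hγ' <;> linarith
    refine (measure_mono hsub).trans ((measure_union_le _ _).trans (add_le_add ?_ ?_))
    · refine b1.trans (ENNReal.ofReal_le_ofReal ?_)
      have : (X : ℝ) ^ (-δ1) ≤ (X : ℝ) ^ (-m) := Real.rpow_le_rpow_of_exponent_le hX1r (by linarith)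
      gcongr
    · refine b2.trans (ENNReal.ofReal_le_ofReal ?_)
      have : (X : ℝ) ^ (-δ2) ≤ (X : ℝ) ^ (-m) := Real.rpow_le_rpow_of_exponent_le hX1r (by linarith)
      gcongr
  -- all orthants
  have hcov : {γ : Fin k → ℝ | (∀ i, |γ i| ≤ H) ∧
      ((X : ℝ) ^ ε * P < ‖∑ p ∈ QFs b X, ∏ j, LL p (1 / 2 + I * (γ j : ℂ)) -
        (3 / Real.pi ^ 2 * X : ℝ) * Mt γ‖ ∨
      (X : ℝ) ^ ε * P < ‖∑ p ∈ QFs b X, ∏ j, LL p (1 / 2 + I * (γ j : ℂ)) -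
        ∑ S : Finset (Fin k), Rt b X S γ‖)} ⊆ ⋃ σ ∈ (Finset.univ : Finset (Fin k → Bool)),
      (fun γ : Fin k → ℝ => sv σ γ) ⁻¹' {γ : Fin k → ℝ | (∀ i, 0 ≤ γ i ∧ γ i ≤ H) ∧
      ((X : ℝ) ^ ε * P < ‖∑ p ∈ QFs b X, ∏ j, LL p (1 / 2 + I * (sv σ γ j : ℂ)) -
        (3 / Real.pi ^ 2 * X : ℝ) * Mt (sv σ γ)‖ ∨
      (X : ℝ) ^ ε * P < ‖∑ p ∈ QFs b X, ∏ j, LL p (1 / 2 + I * (sv σ γ j : ℂ)) -
        ∑ S : Finset (Fin k), Rt b X S (sv σ γ)‖)} := by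
    intro γ hγ
    simp only [Set.mem_iUnion]
    refine ⟨fun j => decide (0 ≤ γ j), Finset.mem_univ _, ?_⟩
    obtain ⟨σ, hσ⟩ : ∃ σ : Fin k → Bool, σ = fun j => decide (0 ≤ γ j) := ⟨_, rfl⟩
    rw [← hσ]
    have h3 : (∀ i, 0 ≤ sv σ γ i ∧ sv σ γ i ≤ H) := by
      intro i
      have h4 := hγ.1 i
      have h5 : sv σ γ i = |γ i| := by
        unfold sv
        rw [hσ]
        by_cases h6 : 0 ≤ γ i
        · simp only [h6, decide_true, if_true]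
          exact (abs_of_nonneg h6).symm
        · simp only [h6, decide_false, Bool.false_eq_true, if_false]
          exact (abs_of_neg (not_le.1 h6)).symm
      rw [h5]
      exact ⟨abs_nonneg _, h4⟩
    refine ⟨h3, ?_⟩
    have h4 := hγ.2
    show (X : ℝ) ^ ε * P < ‖∑ p ∈ QFs b X, ∏ j, LL p (1 / 2 + I * (sv σ (sv σ γ) j : ℂ)) -
        (3 / Real.pi ^ 2 * X : ℝ) * Mt (sv σ (sv σ γ))‖ ∨
      (X : ℝ) ^ ε * P < ‖∑ p ∈ QFs b X, ∏ j, LL p (1 / 2 + I * (sv σ (sv σ γ) j : ℂ)) -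
        ∑ S : Finset (Fin k), Rt b X S (sv σ (sv σ γ))‖
    rw [sv_sv]
    exact h4
  refine (measure_mono hcov).trans ((measure_biUnion_finset_le _ _).trans ?_)
  refine (Finset.sum_le_sum fun σ _ => (le_of_eq (sv_vol σ _)).trans (horth σ)).trans ?_
  rw [Finset.sum_const, ← ENNReal.ofReal_add (by positivity) (by positivity), nsmul_eq_mul,
    ← ENNReal.ofReal_natCast, ← ENNReal.ofReal_mul (by positivity)]
  refine ENNReal.ofReal_le_ofReal ?_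
  have hcard : ((Finset.univ : Finset (Fin k → Bool)).card : ℝ) = 2 ^ k := by
    rw [Finset.card_univ, Fintype.card_fun, Fintype.card_bool, Fintype.card_fin]
    push_cast
    ring
  rw [hcard]
  have hfin : (X : ℝ) ^ (-δ) = (X : ℝ) ^ δ * (X : ℝ) ^ (-m) := by
    rw [← Real.rpow_add hX0]
    congr 1
    rw [hδ]
    ring
  rw [hfin]
  calc 2 ^ k * (H ^ k * (X : ℝ) ^ (-m) + H ^ k * (X : ℝ) ^ (-m)) =
        H ^ k * (2 ^ (k + 1) * (X : ℝ) ^ (-m)) := by ring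
    _ ≤ H ^ k * ((X : ℝ) ^ δ * (X : ℝ) ^ (-m)) := by
        gcongr
        linarith

end

end Pool.Agent.Y752.QF
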