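import Pool.Agent.Y752.QF.Stm5
import Pool.Agent.Y165.QF.Ga

set_option autoImplicit false

/-! Project QF: the hyperbolic sum and the prediction with partial sums, `4 N^2 ≤ H` (after
`Pool.Agent.Y252.QF.Ga3` of helper252 and `Pool.Agent.Y165.QF.Ga` of helper165). -/

namespace Pool.Agent.Y752.QF.G5

open MeasureTheory Set Filter Complex Topology
open Pool.Agent.TH612.GS (mP zN)
open Pool.Agent.TH612.CF (pw pw_apply)
open Pool.Agent.TH521.GS (mor)
open Pool.Agent.Y752.QF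
open Pool.Agent.Y752.SR (sum_inv_le logp_le dbl_sum)
open Pool.Agent.Y165.QF
open scoped ENNReal

noncomputable section

lemma sv_cont {k : ℕ} (σ : Fin k → Bool) : Continuous (sv σ) := by
  refine continuous_pi fun j => ?_
  unfold sv
  by_cases h : σ j = true
  · simp only [h, if_true]
    exact continuous_apply j
  · simp only [h, if_false]
    exact (continuous_apply j).neg

theorem GA5 (h1 : S_RR5) (h2 : S_PS) : S_GA5 := by
  intro k ε hε
  obtain ⟨gg, hg0, hgs, hps⟩ := h2 k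
  set η : ℝ := min (ε / 4) (1 / 4) with hη
  have hη0 : 0 < η := lt_min (by positivity) (by norm_num)
  have hη1 : η < 1 / 2 := lt_of_le_of_lt (min_le_right _ _) (by norm_num)
  have hη2 : η ≤ ε / 4 := min_le_left _ _
  obtain ⟨C2, hC2, h2'⟩ := h1 k ε hε
  obtain ⟨C4, hC4, h4⟩ := logp_le (δ := ε / 2) (by positivity) (2 * ned k)
  set G : ℝ := ∑' b : ℕ, gg b * (b : ℝ) ^ (-(1 / 2 + η)) with hG
  have hG0 : 0 ≤ G := tsum_nonneg fun b => mul_nonneg (hg0 _) (by positivity)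
  refine ⟨max C2 (4 * G ^ 2 * C2 + 2 * G ^ 2 * C4), le_max_of_le_left hC2, ?_⟩
  intro σ H θ N hθ hN hNk
  obtain ⟨GG, hGm, hGc, h2''⟩ := h2' σ H N hN hNk
  have hN1 : (1:ℝ) ≤ N := by exact_mod_cast hN
  have hN0 : (0:ℝ) < N := by linarith
  have hNH : (N : ℝ) ≤ H := by
    refine le_trans ?_ hNk
    nlinarith
  have hH : 1 ≤ H := hN1.trans hNH
  have hH0 : 0 < H := by linarith
  set L : ℝ := 1 + Real.log N with hL
  have hL0 : 0 ≤ L := by
    have := Real.log_nonneg hN1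
    linarith
  set B : ℝ := 2 * (G * (N : ℝ) ^ (-(1 / 2 - η)) * L ^ ned k) ^ 2 with hB
  have hB0 : 0 ≤ B := by positivity
  -- the measurable majorant
  set Φ : (Fin k → ℝ) → ℝ≥0∞ := fun γ => (∑ b ∈ Finset.Icc 1 N,
      ENNReal.ofReal (2 * G * (gg b * (b : ℝ) ^ (-(3 / 2 - η)))) *
        ENNReal.ofReal (‖QQ2 N (sv σ γ) - PP2 (N / b) (sv σ γ)‖ ^ 2)) + ENNReal.ofReal B with hΦ
  have hm : ∀ b : ℕ, Measurable fun γ : Fin k → ℝ =>
      ENNReal.ofReal (2 * G * (gg b * (b : ℝ) ^ (-(3 / 2 - η)))) *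
        ENNReal.ofReal (‖QQ2 N (sv σ γ) - PP2 (N / b) (sv σ γ)‖ ^ 2) := fun b =>
    (mor (((((QQ2_cont N).comp (sv_cont σ)).sub ((PP2_cont (N / b)).comp (sv_cont σ))).norm.pow 2))).const_mul _
  have hΦm : Measurable Φ := (Finset.measurable_fun_sum _ fun b _ => hm b).add measurable_const
  -- pointwise
  have hpt : ∀ γ : Fin k → ℝ, ENNReal.ofReal (‖AN2 N (sv σ γ) - arithA (sv σ γ) * QQ2 N (sv σ γ)‖ ^ 2) ≤ Φ γ := by
    intro γ
    obtain ⟨ps, hle, hmul, hA⟩ := hps (sv σ γ)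
    have e1 : (∑ b ∈ Finset.Icc 1 N, ENNReal.ofReal (2 * G * (gg b * (b : ℝ) ^ (-(3 / 2 - η)))) *
        ENNReal.ofReal (‖QQ2 N (sv σ γ) - PP2 (N / b) (sv σ γ)‖ ^ 2)) = ENNReal.ofReal (2 * (G *
        ∑ b ∈ Finset.Icc 1 N, (gg b * (b : ℝ) ^ (-(3 / 2 - η))) * ‖QQ2 N (sv σ γ) - PP2 (N / b) (sv σ γ)‖ ^ 2)) := by
      rw [Finset.mul_sum, Finset.mul_sum, ENNReal.ofReal_sum_of_nonneg fun b _ => by
        have := hg0 b
        positivity]
      refine Finset.sum_congr rfl fun b _ => ?_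
      have := hg0 b
      rw [← ENNReal.ofReal_mul (by positivity)]
      congr 1
      ring
    have hpos : 0 ≤ 2 * (G * ∑ b ∈ Finset.Icc 1 N, (gg b * (b : ℝ) ^ (-(3 / 2 - η))) *
        ‖QQ2 N (sv σ γ) - PP2 (N / b) (sv σ γ)‖ ^ 2) := by
      have : 0 ≤ ∑ b ∈ Finset.Icc 1 N, (gg b * (b : ℝ) ^ (-(3 / 2 - η))) *
          ‖QQ2 N (sv σ γ) - PP2 (N / b) (sv σ γ)‖ ^ 2 := Finset.sum_nonneg fun b _ => by
        have := hg0 b
        positivity
      positivity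
    rw [hΦ]
    simp only
    rw [e1, ← ENNReal.ofReal_add hpos hB0]
    refine ENNReal.ofReal_le_ofReal ?_
    rw [← norm_neg, neg_sub, diff_id N (sv σ γ) ps hmul hA]
    set U := ∑ b ∈ Finset.Icc 1 N, (ps b * (b : ℂ)⁻¹) * (QQ2 N (sv σ γ) - PP2 (N / b) (sv σ γ)) with hU
    set V := (∑' n : ℕ, ps n * (n : ℂ)⁻¹ - ∑ b ∈ Finset.Icc 1 N, ps b * (b : ℂ)⁻¹) *
      QQ2 N (sv σ γ) with hV
    have k1 : ‖U‖ ^ 2 ≤ G * ∑ b ∈ Finset.Icc 1 N, (gg b * (b : ℝ) ^ (-(3 / 2 - η))) *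
        ‖QQ2 N (sv σ γ) - PP2 (N / b) (sv σ γ)‖ ^ 2 := cs_b gg hg0 hgs (sv σ γ) ps hle N hη0
    have k2 : ‖V‖ ≤ G * (N : ℝ) ^ (-(1 / 2 - η)) * L ^ ned k := by
      rw [hV, norm_mul]
      have k3 := ps_tail gg hg0 hgs ps hle hN hη0 hη1
      exact mul_le_mul k3 (QQ2_le hN (sv σ γ)) (norm_nonneg _) (by positivity)
    have k3 : ‖V‖ ^ 2 ≤ (G * (N : ℝ) ^ (-(1 / 2 - η)) * L ^ ned k) ^ 2 := by gcongr
    have k4 : ‖U + V‖ ^ 2 ≤ 2 * ‖U‖ ^ 2 + 2 * ‖V‖ ^ 2 := by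
      calc ‖U + V‖ ^ 2 ≤ (‖U‖ + ‖V‖) ^ 2 := by gcongr; exact norm_add_le _ _
        _ ≤ _ := by nlinarith [sq_nonneg (‖U‖ - ‖V‖)]
    rw [hB]
    linarith
  -- the integral of the majorant
  have huniv : (mP (Fin k) H).restrict GG univ ≤ ENNReal.ofReal (H ^ k) := by
    rw [← mP_univ k hH0.le]
    exact Measure.restrict_apply_le _ _
  have hint : ∫⁻ γ in GG, Φ γ ∂(mP (Fin k) H) ≤
      ENNReal.ofReal (max C2 (4 * G ^ 2 * C2 + 2 * G ^ 2 * C4) * H ^ k * H ^ (4 * ε) / N) := by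
    rw [hΦ]
    rw [lintegral_add_left (Finset.measurable_fun_sum _ fun b _ => hm b),
      lintegral_finsetSum _ fun b _ => hm b, lintegral_const]
    refine (add_le_add le_rfl (mul_le_mul_right huniv _)).trans ?_
    simp only [lintegral_const_mul' _ _ ENNReal.ofReal_ne_top]
    have hb : ∀ b ∈ Finset.Icc 1 N, ENNReal.ofReal (2 * G * (gg b * (b : ℝ) ^ (-(3 / 2 - η)))) *
        ∫⁻ γ in GG, ENNReal.ofReal (‖QQ2 N (sv σ γ) - PP2 (N / b) (sv σ γ)‖ ^ 2) ∂(mP (Fin k) H) ≤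
        ENNReal.ofReal (4 * G * C2 * H ^ k * H ^ (3 * ε) * (N : ℝ) ^ (2 * η) / N *
          (gg b * (b : ℝ) ^ (-(1 / 2 + η)))) := by
      intro b hb
      obtain ⟨hb1, hb2⟩ := Finset.mem_Icc.1 hb
      have hb0 : (0:ℝ) < b := by exact_mod_cast hb1
      have hg := hg0 b
      have hW : 1 ≤ N / b := (Nat.one_le_div_iff hb1).2 hb2
      have hW0 : (0:ℝ) < ((N / b : ℕ) : ℝ) := by exact_mod_cast hW
      have k1 := h2'' (N / b) hW (Nat.div_le_self _ _)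
      refine (mul_le_mul_right k1 _).trans ?_
      rw [← ENNReal.ofReal_mul (by positivity)]
      refine ENNReal.ofReal_le_ofReal ?_
      have k2 := floor_lb hb1 hb2
      have k3 : C2 * H ^ k * H ^ (3 * ε) / ((N / b : ℕ) : ℝ) ≤
          C2 * H ^ k * H ^ (3 * ε) / ((N : ℝ) / (2 * b)) := by gcongr
      have k4 : (b : ℝ) ^ (-(3 / 2 - η)) * b = (b : ℝ) ^ (-(1 / 2 + η)) * (b : ℝ) ^ (2 * η) := by
        rw [← Real.rpow_add hb0]
        nth_rewrite 2 [← Real.rpow_one (b : ℝ)]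
        rw [← Real.rpow_add hb0]
        congr 1
        ring
      have k5 : (b : ℝ) ^ (2 * η) ≤ (N : ℝ) ^ (2 * η) :=
        Real.rpow_le_rpow hb0.le (by exact_mod_cast hb2) (by positivity)
      calc 2 * G * (gg b * (b : ℝ) ^ (-(3 / 2 - η))) * (C2 * H ^ k * H ^ (3 * ε) / ((N / b : ℕ) : ℝ))
          ≤ 2 * G * (gg b * (b : ℝ) ^ (-(3 / 2 - η))) *
            (C2 * H ^ k * H ^ (3 * ε) / ((N : ℝ) / (2 * b))) := by gcongr
        _ = 4 * G * C2 * H ^ k * H ^ (3 * ε) / N * (gg b * ((b : ℝ) ^ (-(3 / 2 - η)) * b)) := by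
            field_simp
            ring
        _ = 4 * G * C2 * H ^ k * H ^ (3 * ε) / N * (gg b * ((b : ℝ) ^ (-(1 / 2 + η)) *
            (b : ℝ) ^ (2 * η))) := by rw [k4]
        _ ≤ 4 * G * C2 * H ^ k * H ^ (3 * ε) / N * (gg b * ((b : ℝ) ^ (-(1 / 2 + η)) *
            (N : ℝ) ^ (2 * η))) := by gcongr
        _ = _ := by ring
    refine (add_le_add (Finset.sum_le_sum hb) le_rfl).trans ?_
    have hHe : H ^ (3 * ε) * H ^ (ε / 2) ≤ H ^ (4 * ε) := by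
      rw [← Real.rpow_add hH0]
      exact Real.rpow_le_rpow_of_exponent_le hH (by linarith)
    have hHe' : H ^ (ε / 2) * H ^ (ε / 2) ≤ H ^ (4 * ε) := by
      rw [← Real.rpow_add hH0]
      exact Real.rpow_le_rpow_of_exponent_le hH (by linarith)
    have hNe : (N : ℝ) ^ (2 * η) ≤ H ^ (ε / 2) :=
      (Real.rpow_le_rpow hN0.le hNH (by positivity)).trans
        (Real.rpow_le_rpow_of_exponent_le hH (by linarith))
    rw [← ENNReal.ofReal_sum_of_nonneg fun b _ => by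
        have := hg0 b
        positivity, ← Finset.mul_sum, ← ENNReal.ofReal_mul hB0,
      ← ENNReal.ofReal_add]
    · refine ENNReal.ofReal_le_ofReal ?_
      have k1 : ∑ b ∈ Finset.Icc 1 N, gg b * (b : ℝ) ^ (-(1 / 2 + η)) ≤ G :=
        gg_fin_le gg hg0 hgs (by linarith) _
      have hS0 : 0 ≤ ∑ b ∈ Finset.Icc 1 N, gg b * (b : ℝ) ^ (-(1 / 2 + η)) :=
        Finset.sum_nonneg fun b _ => mul_nonneg (hg0 _) (by positivity)
      have k2 : (G * (N : ℝ) ^ (-(1 / 2 - η)) * L ^ ned k) ^ 2 =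
          G ^ 2 * ((N : ℝ) ^ (2 * η) / N) * L ^ (2 * ned k) := by
        have e1 : ((N : ℝ) ^ (-(1 / 2 - η))) ^ 2 = (N : ℝ) ^ (2 * η) / N := by
          rw [← Real.rpow_natCast, ← Real.rpow_mul hN0.le, ← Real.rpow_sub_one hN0.ne']
          congr 1
          push_cast
          ring
        rw [mul_pow, mul_pow, e1, ← pow_mul, mul_comm (ned k) 2]
      have k3 : L ^ (2 * ned k) ≤ C4 * H ^ (ε / 2) :=
        (h4 N hN1).trans (mul_le_mul_of_nonneg_left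
          (Real.rpow_le_rpow (by linarith) hNH (by positivity)) (by linarith))
      rw [hB, k2]
      have hC20 : 0 < C2 := by linarith
      have hC40 : 0 < C4 := by linarith
      calc 4 * G * C2 * H ^ k * H ^ (3 * ε) * (N : ℝ) ^ (2 * η) / N *
            ∑ b ∈ Finset.Icc 1 N, gg b * (b : ℝ) ^ (-(1 / 2 + η)) +
            2 * (G ^ 2 * ((N : ℝ) ^ (2 * η) / N) * L ^ (2 * ned k)) * H ^ k
          ≤ 4 * G * C2 * H ^ k * H ^ (3 * ε) * H ^ (ε / 2) / N * G +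
            2 * (G ^ 2 * (H ^ (ε / 2) / N) * (C4 * H ^ (ε / 2))) * H ^ k := by gcongr
        _ = 4 * G ^ 2 * C2 * H ^ k * (H ^ (3 * ε) * H ^ (ε / 2)) / N +
            2 * G ^ 2 * C4 * H ^ k * (H ^ (ε / 2) * H ^ (ε / 2)) / N := by ring
        _ ≤ 4 * G ^ 2 * C2 * H ^ k * H ^ (4 * ε) / N +
            2 * G ^ 2 * C4 * H ^ k * H ^ (4 * ε) / N := by gcongr
        _ = (4 * G ^ 2 * C2 + 2 * G ^ 2 * C4) * H ^ k * H ^ (4 * ε) / N := by ring
        _ ≤ _ := by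
            gcongr
            exact le_max_right _ _
    · refine mul_nonneg (by positivity) (Finset.sum_nonneg fun b _ => ?_)
      have := hg0 b
      positivity
    · positivity
  -- Markov
  have hθ' : ENNReal.ofReal θ ≠ 0 := by
    rw [Ne, ENNReal.ofReal_eq_zero, not_le]
    exact hθ
  have hsub : {γ : Fin k → ℝ | θ ≤ ‖AN2 N (sv σ γ) - arithA (sv σ γ) * QQ2 N (sv σ γ)‖ ^ 2} ⊆
      ({γ | ENNReal.ofReal θ ≤ Φ γ} ∩ GG) ∪ GGᶜ := by
    intro γ hγ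
    by_cases h3 : γ ∈ GG
    · exact Or.inl ⟨(ENNReal.ofReal_le_ofReal hγ).trans (hpt γ), h3⟩
    · exact Or.inr h3
  refine (measure_mono hsub).trans ((measure_union_le _ _).trans ?_)
  have hpos1 : 0 ≤ max C2 (4 * G ^ 2 * C2 + 2 * G ^ 2 * C4) := le_trans (by linarith) (le_max_left _ _)
  rw [ENNReal.ofReal_add (by positivity) (by positivity)]
  refine add_le_add ?_ ?_
  · rw [← Measure.restrict_apply' hGm]
    refine (meas_ge_le_lintegral_div hΦm.aemeasurable hθ' ENNReal.ofReal_ne_top).trans ?_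
    refine (ENNReal.div_le_div_right hint _).trans ?_
    rw [← ENNReal.ofReal_div_of_pos hθ]
    refine ENNReal.ofReal_le_ofReal (le_of_eq ?_)
    rw [div_div]
  · refine hGc.trans (ENNReal.ofReal_le_ofReal ?_)
    gcongr
    exact le_max_left _ _

end

end Pool.Agent.Y752.QF.G5
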