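import Pool.Agent.Y752.QF.Stm5
import Pool.Agent.Y547.QF.Mt
import Pool.Agent.TH637.GF.NA

/-! Project QF: the box sum and the prediction outside a small set with error `H^(ε - 1/4)` (after
`Pool.Agent.Y252.QF.Mt3` of helper252 and `Pool.Agent.Y547.QF.Mt` of helper547). -/

set_option autoImplicit false

namespace Pool.Agent.Y752.QF.M5

open MeasureTheory Set Filter Complex Topology
open Pool.Agent.TH612.GS (mP zN SepA)
open Pool.Agent.TH612.CF (pw pw_apply)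
open Pool.Agent.Y752.QF
open Pool.Agent.Y547.QF (cont_DS cont_AN2 markov)
open scoped ENNReal

theorem svc {k : ℕ} (σ : Fin k → Bool) : Continuous (sv σ) := by
  refine continuous_pi fun j => ?_
  unfold sv
  by_cases h : σ j = true
  · simp only [h, if_true]
    exact continuous_apply j
  · simp only [h]
    exact (continuous_apply j).neg

theorem MT5 (h1 : S_BX3) (h2 : S_GA5) (h3 : S_ZT3) (h4 : S_PS) : S_MT5 := by
  intro k ε hε0 hε8
  obtain ⟨gg, hgg0, hggs, hps⟩ := h4 k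
  obtain ⟨G, hG⟩ : ∃ G : ℝ, G = ∑' b : ℕ, gg b * (b : ℝ) ^ (-(1:ℝ)) := ⟨_, rfl⟩
  have hG0 : 0 ≤ G := by
    rw [hG]
    exact tsum_nonneg fun b => mul_nonneg (hgg0 b) (by positivity)
  have hGb : ∀ γ : Fin k → ℝ, ‖arithA γ‖ ≤ G := by
    intro γ
    obtain ⟨ps, hps1, -, hps3⟩ := hps γ
    rw [← hps3, hG]
    refine tsum_of_norm_bounded (hggs 1 (by norm_num)).hasSum fun b => ?_
    rw [norm_div, Complex.norm_natCast, Real.rpow_neg_one, ← div_eq_mul_inv]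
    exact div_le_div_of_nonneg_right (hps1 b) (by positivity)
  obtain ⟨C₁, hC₁, H1⟩ := h1 k ε hε0
  obtain ⟨C₂, hC₂, H2⟩ := h2 k (ε / 8) (by positivity)
  obtain ⟨C₃, T₀, B, hC₃, hT₀, H3⟩ := h3 k
  obtain ⟨C₄, T₁, hC₄, hT₁, H4⟩ := Pool.Agent.TH637.GF.t_NA k (fun _ => 0)
  obtain ⟨η, hη⟩ : ∃ η : ℝ, η = ε / (B + 1) := ⟨_, rfl⟩
  have hη0 : 0 < η := by rw [hη]; positivity
  have hηB : η * B ≤ ε := by
    have : η * (B + 1) = ε := by
      rw [hη]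
      field_simp
    nlinarith
  obtain ⟨CB, hCB⟩ : ∃ CB : ℝ, CB = (η ^ B)⁻¹ := ⟨_, rfl⟩
  have hCB0 : 0 < CB := by rw [hCB]; positivity
  obtain ⟨Ct, hCt⟩ : ∃ Ct : ℝ, Ct = 36 * C₁ + (36 * C₂ + C₂) + 36 * (C₃ * CB) * (G + 1) ^ 2 + C₄ :=
    ⟨_, rfl⟩
  have hCt0 : 0 < Ct := by rw [hCt]; positivity
  refine ⟨Ct, max T₀ (max T₁ 16), hCt0, le_max_of_le_right (le_max_of_le_right (by norm_num)), ?_⟩
  intro σ H hH
  have hHT0 : T₀ ≤ H := (le_max_left _ _).trans hH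
  have hHT1 : T₁ ≤ H := ((le_max_left _ _).trans (le_max_right _ _)).trans hH
  have hH16 : 16 ≤ H := ((le_max_right _ _).trans (le_max_right _ _)).trans hH
  have hH1 : 1 ≤ H := by linarith
  have hH0 : 0 < H := by linarith
  -- powers of `H`
  obtain ⟨q, hq⟩ : ∃ q : ℝ, q = H ^ ε := ⟨_, rfl⟩
  obtain ⟨w, hw⟩ : ∃ w : ℝ, w = H ^ (1 / 2 : ℝ) := ⟨_, rfl⟩
  obtain ⟨D, hD⟩ : ∃ D : ℝ, D = H ^ (ε - 1 / 4) := ⟨_, rfl⟩
  have hq0 : 0 < q := by rw [hq]; positivity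
  have hw1 : 1 ≤ w := by rw [hw]; exact Real.one_le_rpow hH1 (by norm_num)
  have hw0 : 0 < w := by linarith
  have hD0 : 0 < D := by rw [hD]; positivity
  have hw4 : w ^ 2 = H := by
    rw [hw, ← Real.rpow_natCast, ← Real.rpow_mul hH0.le]
    norm_num
  have hw44 : 4 ≤ w := by
    by_contra hcon
    rw [not_le] at hcon
    nlinarith
  have hD2 : D ^ 2 = q ^ 2 / w := by
    rw [hD, hq, hw, ← Real.rpow_natCast, ← Real.rpow_mul hH0.le, ← Real.rpow_natCast (H ^ ε),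
      ← Real.rpow_mul hH0.le, ← Real.rpow_sub hH0]
    congr 1
    push_cast
    ring
  have hqi : H ^ (-ε) = q⁻¹ := by rw [Real.rpow_neg hH0.le, hq]
  obtain ⟨q8, hq8⟩ : ∃ q8 : ℝ, q8 = H ^ (-(ε / 8)) := ⟨_, rfl⟩
  have hq80 : 0 < q8 := by rw [hq8]; positivity
  have hqq : q⁻¹ ≤ q8 := by
    rw [← hqi, hq8]
    exact Real.rpow_le_rpow_of_exponent_le hH1 (by linarith)
  have hq4 : H ^ (4 * (ε / 8)) ≤ q := by
    rw [hq]
    exact Real.rpow_le_rpow_of_exponent_le hH1 (by linarith)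
  have hlog : Real.log H ^ B ≤ CB * q := by
    have e1 : Real.log H ≤ H ^ η / η := Real.log_le_rpow_div hH0.le hη0
    have e2 : 0 ≤ Real.log H := Real.log_nonneg hH1
    calc Real.log H ^ B ≤ (H ^ η / η) ^ B := pow_le_pow_left₀ e2 e1 B
      _ = CB * H ^ (η * B) := by
        rw [div_pow, hCB, ← Real.rpow_natCast (H ^ η), ← Real.rpow_mul hH0.le]
        ring
      _ ≤ CB * q := by
        rw [hq]
        apply mul_le_mul_of_nonneg_left _ hCB0.le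
        exact Real.rpow_le_rpow_of_exponent_le hH1 hηB
  -- the length
  obtain ⟨N, hN⟩ : ∃ N : ℕ, N = ⌊w / 2⌋₊ := ⟨_, rfl⟩
  have hN1 : 1 ≤ N := by
    rw [hN]
    apply Nat.le_floor
    rw [Nat.cast_one]
    linarith
  have hNle : (N : ℝ) ≤ w / 2 := by
    rw [hN]
    exact Nat.floor_le (by linarith)
  have hN1' : (1:ℝ) ≤ N := by exact_mod_cast hN1
  have hNge : w / 4 ≤ N := by
    have := Nat.lt_floor_add_one (w / 2)
    rw [← hN] at this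
    linarith
  have hNpos : (0:ℝ) < N := by linarith
  have hN4 : 4 * (N : ℝ) ^ 2 ≤ H := by
    rw [← hw4]
    nlinarith
  have hNH : (N : ℝ) ≤ H := by nlinarith
  have hN2 : N ^ 2 ≤ ⌊H⌋₊ := by
    apply Nat.le_floor
    push_cast
    nlinarith
  have hYH : ((⌊H⌋₊ : ℕ) : ℝ) ≤ H := Nat.floor_le hH0.le
  set Y := ⌊H⌋₊ with hYdef
  rw [← hq8, ← hD]
  -- the four sets
  obtain ⟨θ, hθ⟩ : ∃ θ : ℝ, θ = (D / 3) ^ 2 := ⟨_, rfl⟩
  obtain ⟨θ', hθ'⟩ : ∃ θ' : ℝ, θ' = (D / (3 * (G + 1))) ^ 2 := ⟨_, rfl⟩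
  have hθ0 : 0 < θ := by rw [hθ]; positivity
  have hθ'0 : 0 < θ' := by rw [hθ']; positivity
  have m1 := markov (((cont_DS (k := k) Y).comp (svc σ)).sub ((cont_AN2 N).comp (svc σ))) hθ0
    (H1 σ H N Y hN1 hN2 hYH)
  have m2 := H2 σ H θ N hθ0 hN1 hN4
  have m3 := H3 σ H θ' N hHT0 hθ'0 hN1 hNH
  have m4 := H4 H hHT1
  have hsub : {γ : Fin k → ℝ | D < ‖DS Y (sv σ γ) - Mt (sv σ γ)‖} ⊆
      {γ | θ ≤ ‖DS Y (sv σ γ) - AN2 N (sv σ γ)‖ ^ 2} ∪
      ({γ | θ ≤ ‖AN2 N (sv σ γ) - arithA (sv σ γ) * QQ2 N (sv σ γ)‖ ^ 2} ∪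
        ((SepA (fun _ => 0) H ∩
          {γ | θ' ≤ ‖QQ2 N (sv σ γ) - ∏ e ∈ Ed k, riemannZeta (1 + le (sv σ γ) e)‖ ^ 2}) ∪
          (SepA (fun _ => 0) H)ᶜ)) := by
    intro γ hγ
    by_contra hcon
    simp only [mem_union, mem_ofPred_eq, mem_inter_iff, mem_compl_iff, not_or, not_and, not_le,
      not_not] at hcon
    obtain ⟨c1, c2, c3, c4⟩ := hcon
    have c3' := c3 c4
    rw [hθ] at c1 c2
    rw [hθ'] at c3'
    have d1 : ‖DS Y (sv σ γ) - AN2 N (sv σ γ)‖ < D / 3 :=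
      lt_of_pow_lt_pow_left₀ 2 (by positivity) c1
    have d2 : ‖AN2 N (sv σ γ) - arithA (sv σ γ) * QQ2 N (sv σ γ)‖ < D / 3 :=
      lt_of_pow_lt_pow_left₀ 2 (by positivity) c2
    have d3 : ‖QQ2 N (sv σ γ) - ∏ e ∈ Ed k, riemannZeta (1 + le (sv σ γ) e)‖ <
        D / (3 * (G + 1)) := lt_of_pow_lt_pow_left₀ 2 (by positivity) c3'
    have d4 : ‖arithA (sv σ γ) * (QQ2 N (sv σ γ) -
        ∏ e ∈ Ed k, riemannZeta (1 + le (sv σ γ) e))‖ ≤ D / 3 := by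
      rw [norm_mul]
      calc ‖arithA (sv σ γ)‖ * ‖QQ2 N (sv σ γ) - ∏ e ∈ Ed k, riemannZeta (1 + le (sv σ γ) e)‖
          ≤ (G + 1) * (D / (3 * (G + 1))) := by
            apply mul_le_mul _ d3.le (norm_nonneg _) (by positivity)
            have := hGb (sv σ γ)
            linarith
        _ = D / 3 := by
            have : G + 1 ≠ 0 := by positivity
            field_simp
    have d5 : DS Y (sv σ γ) - Mt (sv σ γ) = (DS Y (sv σ γ) - AN2 N (sv σ γ)) +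
        (AN2 N (sv σ γ) - arithA (sv σ γ) * QQ2 N (sv σ γ)) +
        arithA (sv σ γ) * (QQ2 N (sv σ γ) - ∏ e ∈ Ed k, riemannZeta (1 + le (sv σ γ) e)) := by
      unfold Mt
      ring
    have d6 := norm_add₃_le (a := DS Y (sv σ γ) - AN2 N (sv σ γ))
      (b := AN2 N (sv σ γ) - arithA (sv σ γ) * QQ2 N (sv σ γ))
      (c := arithA (sv σ γ) * (QQ2 N (sv σ γ) - ∏ e ∈ Ed k, riemannZeta (1 + le (sv σ γ) e)))
    rw [← d5] at d6
    have d7 : D < ‖DS Y (sv σ γ) - Mt (sv σ γ)‖ := hγ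
    linarith
  -- the numbers
  obtain ⟨M, hM⟩ : ∃ M : ℝ, M = H ^ k * q⁻¹ := ⟨_, rfl⟩
  have hHk : 0 < H ^ k := by positivity
  have hM0 : 0 < M := by rw [hM]; positivity
  have gen : ∀ c a g : ℝ, 0 < c → 0 ≤ a → a ≤ q → 0 < g →
      c * H ^ k * a / N / (D / (3 * g)) ^ 2 ≤ 36 * c * g ^ 2 * M := by
    intro c a g hc ha hap hg
    calc c * H ^ k * a / N / (D / (3 * g)) ^ 2
        ≤ c * H ^ k * q / (w / 4) / (D / (3 * g)) ^ 2 := by
          gcongr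
      _ = c * H ^ k * q / (w / 4) / (q ^ 2 / w / (3 * g) ^ 2) := by
          rw [div_pow, hD2]
      _ = 36 * c * g ^ 2 * M := by
          rw [hM]
          field_simp
          ring
  have n1 : C₁ * H ^ k * H ^ ε / N / θ ≤ 36 * C₁ * M := by
    have := gen C₁ (H ^ ε) 1 (by linarith) (by positivity) hq.ge one_pos
    rw [hθ]
    simpa using this
  have n2 : C₂ * H ^ k * H ^ (4 * (ε / 8)) / (N * θ) ≤ 36 * C₂ * M := by
    have := gen C₂ (H ^ (4 * (ε / 8))) 1 (by linarith) (by positivity) hq4 one_pos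
    rw [← div_div, hθ]
    simpa using this
  have n3 : C₃ * Real.log H ^ B * H ^ k / (N * θ') ≤ 36 * (C₃ * CB) * (G + 1) ^ 2 * M := by
    have e1 := gen (C₃ * CB) q (G + 1) (by positivity) hq0.le le_rfl (by positivity)
    rw [← div_div, hθ']
    refine le_trans ?_ e1
    have e2 : C₃ * Real.log H ^ B * H ^ k ≤ C₃ * CB * H ^ k * q := by
      calc C₃ * Real.log H ^ B * H ^ k ≤ C₃ * (CB * q) * H ^ k := by gcongr
        _ = _ := by ring
    gcongr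
  have n4 : C₄ * H ^ (k - 1 / 2 : ℝ) ≤ C₄ * M := by
    apply mul_le_mul_of_nonneg_left _ hC₄.le
    have e : H ^ (k - 1 / 2 : ℝ) ≤ H ^ ((k : ℝ) + -ε) :=
      Real.rpow_le_rpow_of_exponent_le hH1 (by linarith)
    rw [Real.rpow_add hH0, Real.rpow_natCast, hqi] at e
    rw [hM]
    exact e
  have hMq : M ≤ H ^ k * q8 := by
    rw [hM]
    gcongr
  have hfin : C₁ * H ^ k * H ^ ε / N / θ + ((C₂ * H ^ k * H ^ (4 * (ε / 8)) / (N * θ) + C₂ * H ^ k * q8) +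
      (C₃ * Real.log H ^ B * H ^ k / (N * θ') + C₄ * H ^ (k - 1 / 2 : ℝ))) ≤
      Ct * H ^ k * q8 := by
    obtain ⟨Cx, hCx⟩ : ∃ Cx : ℝ, Cx = 36 * C₁ + 36 * C₂ + 36 * (C₃ * CB) * (G + 1) ^ 2 + C₄ := ⟨_, rfl⟩
    have hCx0 : 0 < Cx := by rw [hCx]; positivity
    calc _ ≤ Cx * M + C₂ * H ^ k * q8 := by
          rw [hCx]
          linarith
      _ ≤ Cx * (H ^ k * q8) + C₂ * H ^ k * q8 := by gcongr
      _ = Ct * H ^ k * q8 := by
          rw [hCx, hCt]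
          ring
  have hL : 0 ≤ Real.log H := Real.log_nonneg hH1
  rw [← hq8] at m2
  calc mP (Fin k) H {γ : Fin k → ℝ | D < ‖DS Y (sv σ γ) - Mt (sv σ γ)‖}
      ≤ _ := measure_mono hsub
    _ ≤ _ := (measure_union_le _ _).trans (add_le_add m1 ((measure_union_le _ _).trans
        (add_le_add m2 ((measure_union_le _ _).trans (add_le_add m3 m4)))))
    _ = ENNReal.ofReal (C₁ * H ^ k * H ^ ε / N / θ + ((C₂ * H ^ k * H ^ (4 * (ε / 8)) / (N * θ) +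
      C₂ * H ^ k * q8) + (C₃ * Real.log H ^ B * H ^ k / (N * θ') + C₄ * H ^ (k - 1 / 2 : ℝ)))) := by
        have p1 : 0 ≤ C₁ * H ^ k * H ^ ε / N / θ := by positivity
        have p2 : 0 ≤ C₂ * H ^ k * H ^ (4 * (ε / 8)) / (N * θ) := by positivity
        have p3 : 0 ≤ C₂ * H ^ k * q8 := by positivity
        have p4 : 0 ≤ C₃ * Real.log H ^ B * H ^ k / (N * θ') := by positivity
        have p5 : 0 ≤ C₄ * H ^ (k - 1 / 2 : ℝ) := by positivity
        rw [ENNReal.ofReal_add p1 (add_nonneg (add_nonneg p2 p3) (add_nonneg p4 p5)),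
          ENNReal.ofReal_add (add_nonneg p2 p3) (add_nonneg p4 p5), ENNReal.ofReal_add p4 p5]
    _ ≤ _ := ENNReal.ofReal_le_ofReal hfin

end Pool.Agent.Y752.QF.M5
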