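import Pool.Agent.Y752.QF.Rr5d

set_option autoImplicit false

/-! Project QF: hyperbolic region and product outside a small set, `4 N^2 ≤ H`: the result. -/

namespace Pool.Agent.Y752.QF.R5

open MeasureTheory Set Filter Complex
open Pool.Agent.TH612.GS (mP zN)
open Pool.Agent.TH612.CF (pw pw_apply pw_mult)
open Pool.Agent.TH521.GS (mor)
open Pool.Agent.Y752.QF
open Pool.Agent.Y986.QF (dbl lx_dbl XX2_eq EH EH_le)
open Pool.Agent.Y752.SR (TT mem_TT TT_pos XX XX_expand lx fx fx_pos fx_dvd dvd_fx prod_lx chs chs_cont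
  chs_mul chs_one chs_prod sg tt_sum logp_le tls RR AA QQ PP SI cI AA_expand RR_insert RR_empty
  QQ_le RR_cont sum_inv_le)
open Pool.Agent.Y291.QF (ds ds_cont chs_sv chs_neg GG AA_ds RR_eq)

noncomputable section

variable {k : ℕ}

theorem RR_G {C1 : ℝ} (hC1 : 0 < C1) (hMV : MVh C1) (k : ℕ) (s : Finset (Fin k × Fin k)) :
    ∀ {ε : ℝ}, 0 < ε →
    ∃ C : ℝ, 1 ≤ C ∧ ∀ (σ : Fin k → Bool) (H B : ℝ) (W N : ℕ), 1 ≤ B → 1 ≤ W → W ≤ N →
      4 * (N : ℝ) ^ 2 ≤ H →
      ∫⁻ γ in GS σ N B, ENNReal.ofReal (‖RR s W N (ds σ γ)‖ ^ 2) ∂(mP (Fin k) H) ≤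
        ENNReal.ofReal (C * B * H ^ k * H ^ ε / W) := by
  induction s using Finset.induction_on with
  | empty =>
    intro ε hε
    refine ⟨1, le_rfl, ?_⟩
    intro σ H B W N hB hW hWN hNH
    have e : (fun γ : Fin k → ℝ => ENNReal.ofReal (‖RR ∅ W N (ds σ γ)‖ ^ 2)) = fun _ => 0 := by
      funext γ
      rw [RR_empty hW]
      simp
    rw [e, lintegral_zero]
    exact bot_le
  | insert a s ha ih =>
    intro ε hε
    obtain ⟨C2, hC2, h2⟩ := ih (ε := ε / 2) (by positivity)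
    obtain ⟨C3, hC3, h3⟩ := AA_G hC1 hMV k hε
    obtain ⟨C4, hC4, h4⟩ := logp_le (δ := ε / 2) (by positivity) 2
    refine ⟨2 * C4 * C2 + 2 * C3, by nlinarith, ?_⟩
    intro σ H B W N hB hW hWN hNH
    have hN1' : 1 ≤ N := hW.trans hWN
    have hN1 : (1:ℝ) ≤ N := by exact_mod_cast hN1'
    have hNH' : (N : ℝ) ≤ H := by
      refine le_trans ?_ hNH
      nlinarith
    have hH : 1 ≤ H := hN1.trans hNH'
    have hH0 : 0 < H := by linarith
    have hW0 : (0:ℝ) < W := by exact_mod_cast hW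
    set L : ℝ := 1 + Real.log N with hL
    have hL0 : 0 ≤ L := by
      have := Real.log_nonneg hN1
      linarith
    have hpt : ∀ γ : Fin k → ℝ, ENNReal.ofReal (‖RR (insert a s) W N (ds σ γ)‖ ^ 2) ≤
        ENNReal.ofReal (2 * L ^ 2) * ENNReal.ofReal (‖RR s W N (ds σ γ)‖ ^ 2) +
          ENNReal.ofReal 2 * ENNReal.ofReal (‖AA s a W N (ds σ γ)‖ ^ 2) := by
      intro γ
      rw [← ENNReal.ofReal_mul (by positivity), ← ENNReal.ofReal_mul (by norm_num),
        ← ENNReal.ofReal_add (by positivity) (by positivity)]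
      refine ENNReal.ofReal_le_ofReal ?_
      rw [RR_insert ha hWN]
      have h5 : ‖QQ N (ds σ γ) a * RR s W N (ds σ γ) + AA s a W N (ds σ γ)‖ ≤
          L * ‖RR s W N (ds σ γ)‖ + ‖AA s a W N (ds σ γ)‖ := by
        refine (norm_add_le _ _).trans ?_
        rw [norm_mul]
        have := QQ_le hN1' (ds σ γ) a
        gcongr
      calc ‖QQ N (ds σ γ) a * RR s W N (ds σ γ) + AA s a W N (ds σ γ)‖ ^ 2 ≤
            (L * ‖RR s W N (ds σ γ)‖ + ‖AA s a W N (ds σ γ)‖) ^ 2 := by gcongr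
        _ ≤ _ := by nlinarith [sq_nonneg (L * ‖RR s W N (ds σ γ)‖ - ‖AA s a W N (ds σ γ)‖)]
    have hm : Measurable fun γ : Fin k → ℝ => ENNReal.ofReal (‖RR s W N (ds σ γ)‖ ^ 2) :=
      mor (((RR_cont s W N).comp (ds_cont σ)).norm.pow 2)
    refine (lintegral_mono hpt).trans ?_
    rw [lintegral_add_left (hm.const_mul _), lintegral_const_mul' _ _ ENNReal.ofReal_ne_top,
      lintegral_const_mul' _ _ ENNReal.ofReal_ne_top]
    have k1 := h2 σ H B W N hB hW hWN hNH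
    have k2 := h3 σ s a H B W N hB hW hWN hNH
    calc _ ≤ ENNReal.ofReal (2 * L ^ 2) * ENNReal.ofReal (C2 * B * H ^ k * H ^ (ε / 2) / W) +
          ENNReal.ofReal 2 * ENNReal.ofReal (C3 * B * H ^ k * H ^ ε / W) := by gcongr
      _ = ENNReal.ofReal (2 * L ^ 2 * (C2 * B * H ^ k * H ^ (ε / 2) / W) +
          2 * (C3 * B * H ^ k * H ^ ε / W)) := by
          rw [← ENNReal.ofReal_mul (by positivity), ← ENNReal.ofReal_mul (by norm_num),
            ← ENNReal.ofReal_add (by positivity) (by positivity)]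
      _ ≤ _ := by
          refine ENNReal.ofReal_le_ofReal ?_
          have k3 : L ^ 2 ≤ C4 * H ^ (ε / 2) :=
            (h4 N hN1).trans (mul_le_mul_of_nonneg_left
              (Real.rpow_le_rpow (by linarith) hNH' (by positivity)) (by linarith))
          have hHe : H ^ (ε / 2) * H ^ (ε / 2) = H ^ ε := by
            rw [← Real.rpow_add hH0]
            congr 1
            ring
          calc 2 * L ^ 2 * (C2 * B * H ^ k * H ^ (ε / 2) / W) + 2 * (C3 * B * H ^ k * H ^ ε / W)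
              ≤ 2 * (C4 * H ^ (ε / 2)) * (C2 * B * H ^ k * H ^ (ε / 2) / W) +
                2 * (C3 * B * H ^ k * H ^ ε / W) := by gcongr
            _ = 2 * C4 * C2 * B * H ^ k * (H ^ (ε / 2) * H ^ (ε / 2)) / W +
                2 * (C3 * B * H ^ k * H ^ ε / W) := by ring
            _ = _ := by rw [hHe]; ring

/-- **RR5.** -/
theorem RR5 : S_RR5 := by
  intro k ε hε
  obtain ⟨C1, hC1, hMV⟩ := Pool.Agent.TH928.GS.t_MV
  obtain ⟨C2, hC2, h2⟩ := RR_G hC1 hMV k (Ed k) hε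
  obtain ⟨C3, hC3, h3⟩ := GS_compl hC1 hMV k hε
  refine ⟨max C2 C3, le_max_of_le_left hC2, ?_⟩
  intro σ H N hN hNH
  have hN1 : (1:ℝ) ≤ N := by exact_mod_cast hN
  have hH : 1 ≤ H := by nlinarith
  have hH0 : 0 < H := by linarith
  have hB : 1 ≤ H ^ (2 * ε) := Real.one_le_rpow hH (by positivity)
  refine ⟨GS σ N (H ^ (2 * ε)), GS_meas σ N _, ?_, ?_⟩
  · refine (h3 σ H (H ^ (2 * ε)) N (by positivity) hN (by nlinarith)).trans (ENNReal.ofReal_le_ofReal ?_)
    have e1 : H ^ ε / H ^ (2 * ε) = H ^ (-ε) := by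
      rw [← Real.rpow_sub hH0]
      congr 1
      ring
    calc C3 * H ^ k * H ^ ε / H ^ (2 * ε) = C3 * H ^ k * (H ^ ε / H ^ (2 * ε)) := by ring
      _ = C3 * H ^ k * H ^ (-ε) := by rw [e1]
      _ ≤ _ := by
          gcongr
          exact le_max_right _ _
  · intro W hW hWN
    have h1 := h2 σ H (H ^ (2 * ε)) W N hB hW hWN hNH
    simp only [RR_eq]
    refine h1.trans (ENNReal.ofReal_le_ofReal ?_)
    have e1 : H ^ (2 * ε) * H ^ ε = H ^ (3 * ε) := by
      rw [← Real.rpow_add hH0]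
      congr 1
      ring
    calc C2 * H ^ (2 * ε) * H ^ k * H ^ ε / W = C2 * H ^ k * (H ^ (2 * ε) * H ^ ε) / W := by ring
      _ = C2 * H ^ k * H ^ (3 * ε) / W := by rw [e1]
      _ ≤ _ := by
          gcongr
          exact le_max_left _ _

end

end Pool.Agent.Y752.QF.R5
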