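import Pool.Agent.Y752.QF.All4
import Pool.Agent.Y752.QF.Final5
import Pool.Agent.Y752.QF.Rr5
import Pool.Agent.Y752.QF.Ga5
import Pool.Agent.Y752.QF.Mt5

set_option autoImplicit false

/-! Project QF: the parts of the form with square-root remainder put together. -/

namespace Pool.Agent.Y752.QF

open MeasureTheory Complex

noncomputable section

theorem t_MT5 : S_MT5 := Pool.Agent.Y752.QF.M5.MT5 Pool.Agent.Y252.QF.Bx3.BX3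
  (Pool.Agent.Y752.QF.G5.GA5 Pool.Agent.Y752.QF.R5.RR5 t_PS) Pool.Agent.Y722.QF.ZT3 t_PS

theorem fin5 (k : ℕ) (hk : 1 ≤ k) (η A ε : ℝ) (hη : 0 < η) (hε : 0 < ε) :
    ∃ (δ : ℝ) (X0 : ℕ), 0 < δ ∧ ∀ (b : Bool) (X : ℕ) (H : ℝ), X0 ≤ X → (X : ℝ) ^ (1 + η) ≤ H →
    H ≤ (X : ℝ) ^ A →
    volume {γ : Fin k → ℝ | (∀ i, |γ i| ≤ H) ∧
      ((X : ℝ) ^ ε * ((X : ℝ) ^ (1 / 2 : ℝ) + (X : ℝ) ^ (3 / 2 : ℝ) * H ^ (-(1 / 2) : ℝ)) <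
        ‖∑ p ∈ QFs b X, ∏ j, LL p (1 / 2 + I * (γ j : ℂ)) - (3 / Real.pi ^ 2 * X : ℝ) * Mt γ‖ ∨
      (X : ℝ) ^ ε * ((X : ℝ) ^ (1 / 2 : ℝ) + (X : ℝ) ^ (3 / 2 : ℝ) * H ^ (-(1 / 2) : ℝ)) <
        ‖∑ p ∈ QFs b X, ∏ j, LL p (1 / 2 + I * (γ j : ℂ)) - ∑ S : Finset (Fin k), Rt b X S γ‖)} ≤
      ENNReal.ofReal (H ^ k * (X : ℝ) ^ (-δ)) :=
  final5 t_OP t_WIN Pool.Agent.Y434.QF.REP3 t_IN (Pool.Agent.Y532.QF.P3.PL3 1 t_ES1) t_MT5 t_CJ t_AR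
    t_PS k hk η A ε hη hε

end

end Pool.Agent.Y752.QF
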