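import Pool.Agent.Y752.QF.All

set_option autoImplicit false

/-! Project QF: first form of the theorem. -/

namespace Pool.Agent.Y752.QF

noncomputable section

theorem t_ES : S_ES := Pool.Agent.Y986.QF.ES t_AR t_LS
theorem t_MT : S_MT := Pool.Agent.Y547.QF.MT Pool.Agent.Y165.QF.Bx.BX
  (Pool.Agent.Y165.QF.GA Pool.Agent.Y986.QF.RR t_PS) Pool.Agent.Y945.QF.ZT t_PS
theorem t_PL : S_PL := Pool.Agent.Y532.QF.PL t_ES

end

end Pool.Agent.Y752.QF
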