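import Mathlib

set_option autoImplicit false

/-! Project QF: the exceptional sets along the powers of 2. -/

namespace Pool.Agent.Y752.QF

open MeasureTheory Set Filter Topology
open scoped ENNReal

/-- Borel-Cantelli along `X = 2 ^ n`, bounded directions -/
theorem bcR (k : ℕ) (P : Bool → ℕ → (Fin k → ℝ) → Prop) (B δ : ℝ) (X0 R : ℕ) (hδ : 0 < δ)
    (h : ∀ (b : Bool) (X : ℕ), X0 ≤ X → volume {γ : Fin k → ℝ | (∀ j, |γ j| ≤ R * (X : ℝ) ^ B) ∧ P b X γ} ≤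
      ENNReal.ofReal ((R * (X : ℝ) ^ B) ^ k * (X : ℝ) ^ (-δ))) :
    ∀ᵐ u : Fin k → ℝ, (∀ j, |u j| ≤ R) → ∀ᶠ n : ℕ in atTop, ∀ b : Bool,
      ¬ P b (2 ^ n) (fun j => ((2 ^ n : ℕ) : ℝ) ^ B * u j) := by
  obtain ⟨s, hs⟩ : ∃ s : ℕ → Set (Fin k → ℝ), s = fun n => {u : Fin k → ℝ | (∀ j, |u j| ≤ R) ∧
      ∃ b : Bool, P b (2 ^ n) (fun j => ((2 ^ n : ℕ) : ℝ) ^ B * u j)} := ⟨_, rfl⟩
  have hs1 : ∀ n : ℕ, X0 ≤ 2 ^ n → volume (s n) ≤ (2 * ENNReal.ofReal ((R : ℝ) ^ k)) *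
      ENNReal.ofReal (((2:ℝ) ^ (-δ)) ^ n) := by
    intro n hn
    obtain ⟨X, hX⟩ : ∃ X : ℕ, X = 2 ^ n := ⟨_, rfl⟩
    have hX0 : (0:ℝ) < X := by
      rw [hX]
      positivity
    obtain ⟨H, hH⟩ : ∃ H : ℝ, H = (X : ℝ) ^ B := ⟨_, rfl⟩
    have hH0 : 0 < H := by rw [hH]; positivity
    obtain ⟨V, hV⟩ : ∃ V : Bool → Set (Fin k → ℝ), V = fun b => {γ : Fin k → ℝ |
      (∀ j, |γ j| ≤ R * (X : ℝ) ^ B) ∧ P b X γ} := ⟨_, rfl⟩
    have hsub : s n ⊆ (fun u : Fin k → ℝ => H • u) ⁻¹' (V false ∪ V true) := by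
      intro u hu
      rw [hs] at hu
      obtain ⟨h1, b, h2⟩ := hu
      have h3 : H • u ∈ V b := by
        rw [hV]
        refine ⟨fun j => ?_, ?_⟩
        · rw [← hH, Pi.smul_apply, smul_eq_mul, abs_mul, abs_of_pos hH0]
          have := h1 j
          nlinarith
        · have e1 : H • u = fun j => ((2 ^ n : ℕ) : ℝ) ^ B * u j := by
            funext j
            rw [Pi.smul_apply, smul_eq_mul, hH, hX]
          rw [e1, hX]
          exact h2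
      cases b
      · exact Or.inl h3
      · exact Or.inr h3
    have h4 : ∀ b, volume (V b) ≤ ENNReal.ofReal ((R * H) ^ k * (X : ℝ) ^ (-δ)) := by
      intro b
      rw [hV, hH]
      exact h b X (by rw [hX]; exact hn)
    have h5 : ((X : ℝ) ^ (-δ)) = ((2:ℝ) ^ (-δ)) ^ n := by
      rw [hX]
      push_cast
      rw [← Real.rpow_natCast, ← Real.rpow_natCast, ← Real.rpow_mul (by norm_num),
        ← Real.rpow_mul (by norm_num), mul_comm]
    calc volume (s n) ≤ volume ((fun u : Fin k → ℝ => H • u) ⁻¹' (V false ∪ V true)) :=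
          measure_mono hsub
      _ = ENNReal.ofReal |(H ^ Module.finrank ℝ (Fin k → ℝ))⁻¹| * volume (V false ∪ V true) :=
          Measure.addHaar_preimage_smul volume hH0.ne' _
      _ ≤ ENNReal.ofReal |(H ^ Module.finrank ℝ (Fin k → ℝ))⁻¹| *
          (ENNReal.ofReal ((R * H) ^ k * (X : ℝ) ^ (-δ)) + ENNReal.ofReal ((R * H) ^ k * (X : ℝ) ^ (-δ))) := by
          gcongr
          exact (measure_union_le _ _).trans (add_le_add (h4 false) (h4 true))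
      _ = 2 * (ENNReal.ofReal |(H ^ Module.finrank ℝ (Fin k → ℝ))⁻¹| *
          ENNReal.ofReal ((R * H) ^ k * (X : ℝ) ^ (-δ))) := by ring
      _ = (2 * ENNReal.ofReal ((R : ℝ) ^ k)) * ENNReal.ofReal (((2:ℝ) ^ (-δ)) ^ n) := by
          rw [← ENNReal.ofReal_mul (abs_nonneg _), mul_assoc, ← ENNReal.ofReal_mul (by positivity),
            Module.finrank_fintype_fun_eq_card, Fintype.card_fin, abs_of_pos (by positivity), h5, mul_pow]
          congr 2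
          field_simp
  have hlt : (2:ℝ) ^ (-δ) < 1 := by
    rw [Real.rpow_neg (by norm_num)]
    exact inv_lt_one_of_one_lt₀ (Real.one_lt_rpow (by norm_num) hδ)
  obtain ⟨n0, hn0⟩ : ∃ n0 : ℕ, ∀ n, n0 ≤ n → X0 ≤ 2 ^ n := by
    refine ⟨X0, fun n hn => ?_⟩
    exact hn.trans (Nat.lt_two_pow_self).le
  have hsum : ∑' n, volume (s (n + n0)) ≠ ∞ := by
    have h1 : ∑' n, volume (s (n + n0)) ≤ ∑' n, (2 * ENNReal.ofReal ((R : ℝ) ^ k)) *
        ENNReal.ofReal (((2:ℝ) ^ (-δ)) ^ (n + n0)) :=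
      ENNReal.tsum_le_tsum fun n => hs1 (n + n0) (hn0 _ (by omega))
    refine ne_top_of_le_ne_top ?_ h1
    rw [ENNReal.tsum_mul_left]
    refine ENNReal.mul_ne_top (ENNReal.mul_ne_top (by norm_num) ENNReal.ofReal_ne_top) ?_
    have h2 : Summable fun n : ℕ => ((2:ℝ) ^ (-δ)) ^ (n + n0) := by
      have h3 : Summable fun n : ℕ => ((2:ℝ) ^ (-δ)) ^ n :=
        summable_geometric_of_lt_one (by positivity) hlt
      exact (summable_nat_add_iff n0).2 h3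
    exact h2.tsum_ofReal_ne_top
  have h0 := measure_limsup_atTop_eq_zero hsum
  have h1 : ∀ᵐ u : Fin k → ℝ, u ∉ limsup (fun n => s (n + n0)) atTop := by
    rw [ae_iff]
    simpa using h0
  filter_upwards [h1] with u hu hu1
  rw [limsup_eq_iInf_iSup_of_nat] at hu
  simp only [iInf_eq_iInter, iSup_eq_iUnion, mem_iInter, mem_iUnion, not_forall, not_exists] at hu
  obtain ⟨m, hm⟩ := hu
  rw [eventually_atTop]
  refine ⟨m + n0, fun n hn b hP => ?_⟩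
  have h2 := hm (n - n0) (by omega)
  apply h2
  have h3 : n - n0 + n0 = n := by omega
  rw [h3, hs]
  exact ⟨hu1, b, hP⟩

/-- Borel-Cantelli along `X = 2 ^ n` -/
theorem bc (k : ℕ) (P : Bool → ℕ → (Fin k → ℝ) → Prop) (B : ℝ)
    (h : ∀ R : ℕ, 1 ≤ R → ∃ (δ : ℝ) (X0 : ℕ), 0 < δ ∧ ∀ (b : Bool) (X : ℕ), X0 ≤ X →
      volume {γ : Fin k → ℝ | (∀ j, |γ j| ≤ R * (X : ℝ) ^ B) ∧ P b X γ} ≤
      ENNReal.ofReal ((R * (X : ℝ) ^ B) ^ k * (X : ℝ) ^ (-δ))) :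
    ∀ᵐ u : Fin k → ℝ, ∀ᶠ n : ℕ in atTop, ∀ b : Bool,
      ¬ P b (2 ^ n) (fun j => ((2 ^ n : ℕ) : ℝ) ^ B * u j) := by
  have h1 : ∀ᵐ u : Fin k → ℝ, ∀ R : ℕ, 1 ≤ R → (∀ j, |u j| ≤ R) → ∀ᶠ n : ℕ in atTop, ∀ b : Bool,
      ¬ P b (2 ^ n) (fun j => ((2 ^ n : ℕ) : ℝ) ^ B * u j) := by
    rw [ae_all_iff]
    intro R
    by_cases hR : 1 ≤ R
    · obtain ⟨δ, X0, hδ, h2⟩ := h R hR
      filter_upwards [bcR k P B δ X0 R hδ h2] with u hu _
      exact hu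
    · exact Eventually.of_forall fun u h3 => absurd h3 hR
  filter_upwards [h1] with u hu
  refine hu (⌈∑ j, |u j|⌉₊ + 1) (by omega) fun j => ?_
  have h2 : |u j| ≤ ∑ j, |u j| :=
    Finset.single_le_sum (f := fun j => |u j|) (fun i _ => abs_nonneg _) (Finset.mem_univ j)
  have h3 := Nat.le_ceil (∑ j, |u j|)
  push_cast
  linarith

end Pool.Agent.Y752.QF
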