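import Pool.Agent.Y752.QF.Sw

set_option autoImplicit false

/-! Project QF: the final form, with volumes. -/

namespace Pool.Agent.Y752.QF

open MeasureTheory Set Filter Complex Topology
open Pool.Agent.TH612.GS (mP zN SepA)
open scoped ENNReal

noncomputable section

lemma vol_mP (k : ℕ) (H : ℝ) (S : Set (Fin k → ℝ)) :
    volume {γ : Fin k → ℝ | (∀ i, 0 ≤ γ i ∧ γ i ≤ H) ∧ γ ∈ S} = mP (Fin k) H S := by
  unfold mP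
  rw [← Measure.restrict_pi_pi, Measure.restrict_apply' (MeasurableSet.univ_pi fun _ => measurableSet_Icc)]
  have : {γ : Fin k → ℝ | (∀ i, 0 ≤ γ i ∧ γ i ≤ H) ∧ γ ∈ S} = S ∩ Set.univ.pi fun _ => Icc 0 H := by
    ext γ
    simp only [Set.mem_inter_iff, Set.mem_univ_pi, Set.mem_Icc]
    exact and_comm
  rw [← this]
  rfl

theorem final (hOP : S_OP) (hW : S_WIN) (hR : S_REP) (hIN : S_IN) (hPL : S_PL) (hMT : S_MT)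
    (hAR : S_AR) (hPS : S_PS) (k : ℕ) (hk : 1 ≤ k) (η A : ℝ) (hη : 0 < η) :
    ∃ (δ : ℝ) (X0 : ℕ), 0 < δ ∧ ∀ (b : Bool) (X : ℕ) (H : ℝ), X0 ≤ X → (X : ℝ) ^ (1 + η) ≤ H →
    H ≤ (X : ℝ) ^ A →
    volume {γ : Fin k → ℝ | (∀ i, 0 ≤ γ i ∧ γ i ≤ H) ∧ ((X : ℝ) ^ (1 - δ) <
      ‖∑ p ∈ QFs b X, ∏ j, LL p (1 / 2 + I * (γ j : ℂ)) - (3 / Real.pi ^ 2 * X : ℝ) * Mt γ‖ ∨
      (X : ℝ) ^ (1 - δ) < ‖∑ p ∈ QFs b X, ∏ j, LL p (1 / 2 + I * (γ j : ℂ)) -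
        ∑ S : Finset (Fin k), Rt b X S γ‖)} ≤
      ENNReal.ofReal (H ^ k * (X : ℝ) ^ (-δ)) := by
  obtain ⟨δ1, X1, hδ1, h1⟩ := main hOP hW hR hIN hPL hMT k hk η A hη
  obtain ⟨δ2, X2, hδ2, h2⟩ := swp hIN hAR hPS k η A hη
  set m := min δ1 δ2 with hm
  have hm0 : 0 < m := lt_min hδ1 hδ2
  have hm1 : m ≤ δ1 := min_le_left _ _
  have hm2 : m ≤ δ2 := min_le_right _ _
  set δ := m / 2 with hδ
  have hδ0 : 0 < δ := by positivity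
  obtain ⟨X3, hX3⟩ : ∃ X3 : ℕ, ∀ X : ℕ, X3 ≤ X → 2 ≤ (X : ℝ) ^ δ := by
    have h := (tendsto_rpow_atTop hδ0).comp tendsto_natCast_atTop_atTop
    obtain ⟨X3, hX3⟩ := (h.eventually_ge_atTop 2).exists_forall_of_atTop
    exact ⟨X3, hX3⟩
  refine ⟨δ, X1 + X2 + X3 + 1, hδ0, ?_⟩
  intro b X H hX hH1 hH2
  have hX1 : 1 ≤ X := by omega
  have hX1r : (1:ℝ) ≤ X := by exact_mod_cast hX1
  have hX0 : (0:ℝ) < X := by linarith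
  have hbig := hX3 X (by omega)
  have hH0 : 0 < H := lt_of_lt_of_le (by positivity) hH1
  have b1 := h1 b X H (by omega) hH1 hH2
  have b2 := h2 b X H (by omega) hH1 hH2
  have hv := vol_mP k H {γ | (X : ℝ) ^ (1 - δ) <
      ‖∑ p ∈ QFs b X, ∏ j, LL p (1 / 2 + I * (γ j : ℂ)) - (3 / Real.pi ^ 2 * X : ℝ) * Mt γ‖ ∨
      (X : ℝ) ^ (1 - δ) < ‖∑ p ∈ QFs b X, ∏ j, LL p (1 / 2 + I * (γ j : ℂ)) -
        ∑ S : Finset (Fin k), Rt b X S γ‖}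
  refine le_trans (le_of_eq hv) ?_
  have e0 : 2 * (X : ℝ) ^ (1 - m) ≤ (X : ℝ) ^ (1 - δ) := by
    have : (X : ℝ) ^ (1 - δ) = (X : ℝ) ^ δ * (X : ℝ) ^ (1 - m) := by
      rw [← Real.rpow_add hX0]
      congr 1
      rw [hδ]
      ring
    rw [this]
    gcongr
  have e1 : (X : ℝ) ^ (1 - δ1) ≤ (X : ℝ) ^ (1 - m) := Real.rpow_le_rpow_of_exponent_le hX1r (by linarith)
  have e2 : (X : ℝ) ^ (1 - δ2) ≤ (X : ℝ) ^ (1 - m) := Real.rpow_le_rpow_of_exponent_le hX1r (by linarith)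
  have e3 : 0 < (X : ℝ) ^ (1 - m) := by positivity
  have hsub : {γ : Fin k → ℝ | (X : ℝ) ^ (1 - δ) <
      ‖∑ p ∈ QFs b X, ∏ j, LL p (1 / 2 + I * (γ j : ℂ)) - (3 / Real.pi ^ 2 * X : ℝ) * Mt γ‖ ∨
      (X : ℝ) ^ (1 - δ) < ‖∑ p ∈ QFs b X, ∏ j, LL p (1 / 2 + I * (γ j : ℂ)) -
        ∑ S : Finset (Fin k), Rt b X S γ‖} ⊆
      {γ | (X : ℝ) ^ (1 - δ1) <
        ‖∑ p ∈ QFs b X, ∏ j, LL p (1 / 2 + I * (γ j : ℂ)) - (3 / Real.pi ^ 2 * X : ℝ) * Mt γ‖} ∪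
      {γ | (X : ℝ) ^ (1 - δ2) <
        ‖∑ S : Finset (Fin k), Rt b X S γ - (3 / Real.pi ^ 2 * X : ℝ) * Mt γ‖} := by
    intro γ hγ
    by_contra hcon
    rw [Set.mem_union, not_or] at hcon
    have n1 : ‖∑ p ∈ QFs b X, ∏ j, LL p (1 / 2 + I * (γ j : ℂ)) - (3 / Real.pi ^ 2 * X : ℝ) * Mt γ‖ ≤
      (X : ℝ) ^ (1 - δ1) := not_lt.1 hcon.1
    have n2 : ‖∑ S : Finset (Fin k), Rt b X S γ - (3 / Real.pi ^ 2 * X : ℝ) * Mt γ‖ ≤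
      (X : ℝ) ^ (1 - δ2) := not_lt.1 hcon.2
    have n3 : ‖∑ p ∈ QFs b X, ∏ j, LL p (1 / 2 + I * (γ j : ℂ)) - ∑ S : Finset (Fin k), Rt b X S γ‖ ≤
        (X : ℝ) ^ (1 - δ1) + (X : ℝ) ^ (1 - δ2) := by
      have : ∑ p ∈ QFs b X, ∏ j, LL p (1 / 2 + I * (γ j : ℂ)) - ∑ S : Finset (Fin k), Rt b X S γ =
        (∑ p ∈ QFs b X, ∏ j, LL p (1 / 2 + I * (γ j : ℂ)) - (3 / Real.pi ^ 2 * X : ℝ) * Mt γ) -
        (∑ S : Finset (Fin k), Rt b X S γ - (3 / Real.pi ^ 2 * X : ℝ) * Mt γ) := by ring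
      rw [this]
      exact (norm_sub_le _ _).trans (add_le_add n1 n2)
    rcases hγ with hγ | hγ <;> linarith
  refine (measure_mono hsub).trans ((measure_union_le _ _).trans ((add_le_add b1 b2).trans ?_))
  rw [← ENNReal.ofReal_add (by positivity) (by positivity)]
  refine ENNReal.ofReal_le_ofReal ?_
  have f1 : (X : ℝ) ^ (-δ1) ≤ (X : ℝ) ^ (-m) := Real.rpow_le_rpow_of_exponent_le hX1r (by linarith)
  have f2 : (X : ℝ) ^ (-δ2) ≤ (X : ℝ) ^ (-m) := Real.rpow_le_rpow_of_exponent_le hX1r (by linarith)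
  have f3 : 2 * (X : ℝ) ^ (-m) ≤ (X : ℝ) ^ (-δ) := by
    have : (X : ℝ) ^ (-δ) = (X : ℝ) ^ δ * (X : ℝ) ^ (-m) := by
      rw [← Real.rpow_add hX0]
      congr 1
      rw [hδ]
      ring
    rw [this]
    gcongr
  calc H ^ k * (X : ℝ) ^ (-δ1) + H ^ k * (X : ℝ) ^ (-δ2) ≤ H ^ k * (X : ℝ) ^ (-m) + H ^ k * (X : ℝ) ^ (-m) := by
        gcongr
    _ = H ^ k * (2 * (X : ℝ) ^ (-m)) := by ring
    _ ≤ _ := by gcongr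

end

end Pool.Agent.Y752.QF
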