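import Pool.Agent.Y752.QF.Stm
import Pool.Agent.TH521.GS.Rep

set_option autoImplicit false

/-! Project QF: final assembly. -/

namespace Pool.Agent.Y752.QF

open MeasureTheory Set Filter Complex Topology
open Pool.Agent.TH612.GS (mP zN)
open Pool.Agent.TH521.GS (mor)
open scoped ENNReal

noncomputable section

lemma LL_cont {p : DC} (h0 : p.1 ≠ 0) (h1 : p.2 ≠ 1) :
    Continuous fun u : ℝ => LL p (1 / 2 + I * (u : ℂ)) := by
  haveI : NeZero p.1 := ⟨h0⟩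
  have h2 : Differentiable ℂ (DirichletCharacter.LFunction p.2) :=
    DirichletCharacter.differentiable_LFunction h1
  have h3 : (fun u : ℝ => LL p (1 / 2 + I * (u : ℂ))) =
      fun u : ℝ => DirichletCharacter.LFunction p.2 (1 / 2 + I * (u : ℂ)) := by
    funext u
    unfold LL
    rw [dif_pos h0]
  rw [h3]
  exact h2.continuous.comp (by fun_prop)

lemma PY_cont (Y : ℕ) (p : DC) : Continuous fun u : ℝ => PY Y p u := by
  unfold PY
  refine continuous_finsetSum _ fun n hn => continuous_const.mul ?_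
  have hn1 : (n : ℂ) ≠ 0 := by
    have := (Finset.mem_Icc.1 hn).1
    exact_mod_cast (by omega : n ≠ 0)
  exact Continuous.const_cpow (by fun_prop) (Or.inl hn1)

lemma DS_cont {k : ℕ} (Y : ℕ) : Continuous fun γ : Fin k → ℝ => DS Y γ := by
  unfold DS
  refine continuous_finsetSum _ fun n hn => continuous_const.mul ?_
  refine continuous_finsetProd _ fun j _ => ?_
  have hn1 : (n j : ℂ) ≠ 0 := by
    have := (Finset.mem_Icc.1 (Fintype.mem_piFinset.1 hn j)).1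
    exact_mod_cast (by omega : n j ≠ 0)
  exact Continuous.const_cpow (by fun_prop) (Or.inl hn1)

lemma mem_QFs (h : S_IN) {b : Bool} {X : ℕ} {p : DC} : p ∈ QFs b X ↔ p ∈ QFset b X := by
  unfold QFs
  rw [dif_pos (h b X).1, Set.Finite.mem_toFinset]

lemma card_QFs (h : S_IN) (b : Bool) (X : ℕ) : (QFs b X).card ≤ X := by
  have h1 : (QFs b X).card ≤ (Finset.Icc 1 X).card := by
    refine Finset.card_le_card_of_injOn (fun p => p.1) ?_ ?_
    · intro p hp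
      rw [Finset.mem_coe, mem_QFs h] at hp
      rw [Finset.mem_coe, Finset.mem_Icc]
      exact ⟨Nat.one_le_iff_ne_zero.2 hp.1, hp.2.1⟩
    · intro p hp p' hp' hpp
      rw [Finset.mem_coe, mem_QFs h] at hp hp'
      exact (h b X).2 p hp p' hp' hpp
  simpa using h1

/-- Markov -/
lemma mk {k : ℕ} {H : ℝ} {f : (Fin k → ℝ) → ℂ} (hf : Continuous f) {M θ : ℝ} (hθ : 0 < θ)
    (h : ∫⁻ γ, ENNReal.ofReal (‖f γ‖ ^ 2) ∂(mP (Fin k) H) ≤ ENNReal.ofReal M) :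
    mP (Fin k) H {γ | θ ≤ ‖f γ‖} ≤ ENNReal.ofReal (M / θ ^ 2) := by
  have h1 : {γ : Fin k → ℝ | θ ≤ ‖f γ‖} ⊆ {γ | ENNReal.ofReal (θ ^ 2) ≤ ENNReal.ofReal (‖f γ‖ ^ 2)} := by
    intro γ hγ
    refine ENNReal.ofReal_le_ofReal ?_
    have : θ ≤ ‖f γ‖ := hγ
    gcongr
  have hpos : ENNReal.ofReal (θ ^ 2) ≠ 0 := by
    rw [Ne, ENNReal.ofReal_eq_zero, not_le]
    positivity
  refine (measure_mono h1).trans ?_
  refine (meas_ge_le_lintegral_div (mor (hf.norm.pow 2)).aemeasurable hpos ENNReal.ofReal_ne_top).trans ?_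
  rw [ENNReal.ofReal_div_of_pos (by positivity)]
  exact ENNReal.div_le_div_right h _

theorem main (hOP : S_OP) (hW : S_WIN) (hR : S_REP) (hIN : S_IN) (hPL : S_PL) (hMT : S_MT)
    (k : ℕ) (hk : 1 ≤ k) (η A : ℝ) (hη : 0 < η) : ∃ (δ : ℝ) (X0 : ℕ), 0 < δ ∧
    ∀ (b : Bool) (X : ℕ) (H : ℝ), X0 ≤ X → (X : ℝ) ^ (1 + η) ≤ H → H ≤ (X : ℝ) ^ A →
    mP (Fin k) H {γ | (X : ℝ) ^ (1 - δ) <
      ‖∑ p ∈ QFs b X, ∏ j, LL p (1 / 2 + I * (γ j : ℂ)) - (3 / Real.pi ^ 2 * X : ℝ) * Mt γ‖} ≤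
      ENNReal.ofReal (H ^ k * (X : ℝ) ^ (-δ)) := by
  classical
  set δ' : ℝ := min η 1 / 2 with hδ'
  have hm0 : 0 < min η 1 := lt_min hη one_pos
  have hδ'0 : 0 < δ' := by positivity
  have hδ'1 : δ' ≤ 1 / 2 := by
    have := min_le_right η 1
    rw [hδ']
    linarith
  have hδ'η : δ' ≤ η := by
    have := min_le_left η 1
    rw [hδ']
    linarith
  set ε1 : ℝ := δ' / (4 * (k + 1)) with hε1
  have hk0 : (0:ℝ) < (k:ℝ) + 1 := by positivity
  have hε10 : 0 < ε1 := by positivity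
  have hkε : (k : ℝ) * ε1 ≤ δ' / 4 := by
    rw [hε1, mul_div_assoc', div_le_div_iff₀ (by positivity) (by norm_num)]
    nlinarith
  obtain ⟨C1, X1, hC1, h1⟩ := hOP η A ε1 hη hε10
  obtain ⟨C2, X2, hC2, h2⟩ := hW η A ε1 hη hε10
  obtain ⟨C4, hC4, h4⟩ := hPL k 2 (1 / 20) (by norm_num)
  obtain ⟨δ1, Y0, hδ1, h5⟩ := hMT k (max A 1) (le_max_right _ _)
  set a : ℝ := δ' / 8 with ha
  have ha0 : 0 < a := by positivity
  have ha1 : a ≤ 1 / 16 := by rw [ha]; linarith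
  set C3 : ℝ := 4 ^ k * (3 * C1) * C2 ^ (k - 1) with hC3
  have hC30 : 0 < C3 := by positivity
  -- the exponent
  set m : ℝ := min (min a (1 / 40)) δ1 with hm
  have hm0' : 0 < m := by
    rw [hm]
    exact lt_min (lt_min ha0 (by norm_num)) hδ1
  have hma : m ≤ a := (min_le_left _ _).trans (min_le_left _ _)
  have hm40 : m ≤ 1 / 40 := (min_le_left _ _).trans (min_le_right _ _)
  have hmδ : m ≤ δ1 := min_le_right _ _
  set δ : ℝ := m / 2 with hδ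
  have hδ0 : 0 < δ := by positivity
  -- large X
  obtain ⟨X3, hX3⟩ : ∃ X3 : ℕ, ∀ X : ℕ, X3 ≤ X → C3 + C4 + 3 ≤ (X : ℝ) ^ δ := by
    have h := (tendsto_rpow_atTop hδ0).comp tendsto_natCast_atTop_atTop
    obtain ⟨X3, hX3⟩ := (h.eventually_ge_atTop (C3 + C4 + 3)).exists_forall_of_atTop
    exact ⟨X3, hX3⟩
  refine ⟨δ, X1 + X2 + X3 + Y0 + 2, hδ0, ?_⟩
  intro b X H hX hH1 hH2
  have hX2' : 2 ≤ X := by omega
  have hX1' : 1 ≤ X := by omega
  have hXr : (2:ℝ) ≤ X := by exact_mod_cast hX2'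
  have hX0 : (0:ℝ) < X := by linarith
  have hX1r : (1:ℝ) ≤ X := by linarith
  have hbig := hX3 X (by omega)
  set F := QFs b X with hF
  have hcard : (F.card : ℝ) ≤ X := by exact_mod_cast card_QFs hIN b X
  set Y : ℕ := ⌊(X : ℝ) ^ (1 + δ')⌋₊ with hY
  have hpow1 : (X : ℝ) ≤ (X : ℝ) ^ (1 + δ') := by
    conv_lhs => rw [← Real.rpow_one (X : ℝ)]
    exact Real.rpow_le_rpow_of_exponent_le hX1r (by linarith)
  have hYle : (Y : ℝ) ≤ (X : ℝ) ^ (1 + δ') := Nat.floor_le (by positivity)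
  have hYX : X ≤ Y := Nat.le_floor hpow1
  have hY1 : 1 ≤ Y := hX1'.trans hYX
  have hYr : (X : ℝ) ≤ Y := by exact_mod_cast hYX
  have hY0 : (0:ℝ) < Y := by linarith
  have hYge : (X : ℝ) ^ (1 + δ') / 2 ≤ Y := by
    have := Nat.lt_floor_add_one ((X : ℝ) ^ (1 + δ'))
    rw [← hY] at this
    linarith
  have hYH : (Y : ℝ) ≤ H := by
    refine hYle.trans (le_trans ?_ hH1)
    exact Real.rpow_le_rpow_of_exponent_le hX1r (by linarith)
  have hH0 : 0 < H := by linarith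
  -- part 1
  set K : ℝ := C1 * (X : ℝ) ^ ε1 * (1 + F.card * X / Y) * H with hK
  have hK0 : 0 ≤ K := by positivity
  set V : ℝ := C2 * (X : ℝ) ^ ε1 * H with hV
  have hV0 : 0 ≤ V := by positivity
  have hmem : ∀ p ∈ F, p.1 ≠ 0 ∧ p.1 ≤ X ∧ p.2.IsPrimitive ∧ p.2 ≠ 1 := by
    intro p hp
    rw [hF, mem_QFs hIN] at hp
    exact ⟨hp.1, hp.2.1, hp.2.2.1, hp.2.2.2.2.1⟩
  have hinj : ∀ p ∈ F, ∀ p' ∈ F, p.1 = p'.1 → p = p' := by
    intro p hp p' hp' h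
    rw [hF, mem_QFs hIN] at hp hp'
    exact (hIN b X).2 p hp p' hp' h
  set f : DC → ℝ → ℂ := fun p u => if p ∈ F then LL p (1 / 2 + I * (u : ℂ)) else 0 with hf
  have hfF : ∀ p ∈ F, f p = fun u : ℝ => LL p (1 / 2 + I * (u : ℂ)) := by
    intro p hp
    funext u
    rw [hf]
    simp only [hp, if_true]
  have hfc : ∀ p, Continuous (f p) := by
    intro p
    by_cases hp : p ∈ F
    · rw [hfF p hp]
      exact LL_cont (hmem p hp).1 (hmem p hp).2.2.2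
    · have : f p = fun _ => 0 := by
        funext u
        rw [hf]
        simp only [hp, if_false]
      rw [this]
      exact continuous_const
  have r1 := hR H K V hH0.le hK0 hV0 k F f (fun p u => PY Y p u) hfc (fun p => PY_cont Y p)
    (fun w => by
      have h := h1 X H Y (by omega) hH1 hH2 hY1 hYH F hmem hinj w
      refine le_trans (le_of_eq ?_) h
      apply intervalIntegral.integral_congr
      intro u _
      dsimp only
      congr 2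
      refine Finset.sum_congr rfl fun p hp => ?_
      rw [hfF p hp])
    (fun p hp => by
      obtain ⟨q1, q2, q3, q4⟩ := hmem p hp
      have h := (h2 X H Y (by omega) hH1 hH2 hYX hYH p q1 q2 q3 q4).1
      rw [hfF p hp]
      exact h)
    (fun p hp => by
      obtain ⟨q1, q2, q3, q4⟩ := hmem p hp
      exact (h2 X H Y (by omega) hH1 hH2 hYX hYH p q1 q2 q3 q4).2) (fun _ => 1)
  -- bound of the constant
  have hKle : K ≤ 3 * C1 * (X : ℝ) ^ (ε1 + 1 - δ') * H := by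
    have e1 : (F.card : ℝ) * X / Y ≤ 2 * (X : ℝ) ^ (1 - δ') := by
      rw [div_le_iff₀ hY0]
      calc (F.card : ℝ) * X ≤ X * X := by gcongr
        _ = 2 * (X : ℝ) ^ (1 - δ') * ((X : ℝ) ^ (1 + δ') / 2) := by
            have : (X : ℝ) ^ (1 - δ') * (X : ℝ) ^ (1 + δ') = X * X := by
              rw [← Real.rpow_add hX0]
              have : 1 - δ' + (1 + δ') = ((2:ℕ) : ℝ) := by push_cast; ring
              rw [this, Real.rpow_natCast]
              ring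
            linear_combination -this
        _ ≤ _ := by gcongr
    have e2 : 1 ≤ (X : ℝ) ^ (1 - δ') := Real.one_le_rpow hX1r (by linarith)
    have e3 : (X : ℝ) ^ ε1 * (X : ℝ) ^ (1 - δ') = (X : ℝ) ^ (ε1 + 1 - δ') := by
      rw [← Real.rpow_add hX0]
      congr 1
      ring
    calc K ≤ C1 * (X : ℝ) ^ ε1 * (3 * (X : ℝ) ^ (1 - δ')) * H := by
          rw [hK]
          gcongr
          linarith
      _ = 3 * C1 * ((X : ℝ) ^ ε1 * (X : ℝ) ^ (1 - δ')) * H := by ring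
      _ = _ := by rw [e3]
  have hMle : 4 ^ k * K * V ^ (k - 1) * ∑ p ∈ F, ‖(1:ℂ)‖ ^ 2 ≤ C3 * (X : ℝ) ^ (2 - 3 / 4 * δ') * H ^ k := by
    have e1 : ∑ p ∈ F, ‖(1:ℂ)‖ ^ 2 ≤ (X : ℝ) := by
      simp only [norm_one, one_pow, Finset.sum_const, nsmul_eq_mul, mul_one]
      exact hcard
    have e2 : V ^ (k - 1) = C2 ^ (k - 1) * (X : ℝ) ^ (ε1 * (k - 1)) * H ^ (k - 1) := by
      rw [hV, mul_pow, mul_pow]
      congr 2
      rw [← Real.rpow_natCast, ← Real.rpow_mul hX0.le]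
      congr 2
      push_cast [Nat.cast_sub hk]
      ring
    have e3 : H ^ (k - 1) * H = H ^ k := by
      rw [← pow_succ]
      congr 1
      omega
    calc 4 ^ k * K * V ^ (k - 1) * ∑ p ∈ F, ‖(1:ℂ)‖ ^ 2
        ≤ 4 ^ k * (3 * C1 * (X : ℝ) ^ (ε1 + 1 - δ') * H) *
          (C2 ^ (k - 1) * (X : ℝ) ^ (ε1 * (k - 1)) * H ^ (k - 1)) * X := by
          rw [e2]
          gcongr
      _ = C3 * ((X : ℝ) ^ (ε1 + 1 - δ') * (X : ℝ) ^ (ε1 * (k - 1)) * X) * (H ^ (k - 1) * H) := by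
          rw [hC3]
          ring
      _ = C3 * (X : ℝ) ^ (ε1 + 1 - δ' + ε1 * (k - 1) + 1) * H ^ k := by
          rw [e3]
          congr 2
          rw [Real.rpow_add hX0 _ 1, Real.rpow_add hX0, Real.rpow_one]
      _ ≤ _ := by
          have : (X : ℝ) ^ (ε1 + 1 - δ' + ε1 * (k - 1) + 1) ≤ (X : ℝ) ^ (2 - 3 / 4 * δ') :=
            Real.rpow_le_rpow_of_exponent_le hX1r (by nlinarith)
          gcongr
  have hc1 : Continuous fun γ : Fin k → ℝ => ∑ p ∈ F, (1:ℂ) * (∏ j, f p (γ j) - ∏ j, PY Y p (γ j)) := by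
    refine continuous_finsetSum _ fun p _ => continuous_const.mul ?_
    exact (continuous_finsetProd _ fun j _ => (hfc p).comp (continuous_apply j)).sub
      (continuous_finsetProd _ fun j _ => (PY_cont Y p).comp (continuous_apply j))
  have b1 := mk (θ := (X : ℝ) ^ (1 - a)) hc1 (by positivity) (r1.trans (ENNReal.ofReal_le_ofReal hMle))
  -- part 2
  have hYX2 : (Y : ℝ) ≤ (X : ℝ) ^ (2 : ℝ) :=
    hYle.trans (Real.rpow_le_rpow_of_exponent_le hX1r (by linarith))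
  have r2 := h4 b X Y H hX1' hY1 hYH hYX2
  have hc2 : Continuous fun γ : Fin k → ℝ => ∑ p ∈ F, ∏ j, PY Y p (γ j) -
      (3 / Real.pi ^ 2 * X : ℝ) * DS Y γ := by
    refine Continuous.sub ?_ (continuous_const.mul (DS_cont Y))
    exact continuous_finsetSum _ fun p _ =>
      continuous_finsetProd _ fun j _ => (PY_cont Y p).comp (continuous_apply j)
  have b2 := mk (θ := (X : ℝ) ^ (1 - a)) hc2 (by positivity) r2
  -- part 3
  have hHY : H ≤ (Y : ℝ) ^ (max A 1) := by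
    refine hH2.trans ?_
    calc (X : ℝ) ^ A ≤ (X : ℝ) ^ (max A 1) :=
          Real.rpow_le_rpow_of_exponent_le hX1r (le_max_left _ _)
      _ ≤ _ := Real.rpow_le_rpow hX0.le hYr (by positivity)
  have b3 := h5 H Y (by omega) hYH hHY
  -- union
  have hsub : {γ : Fin k → ℝ | (X : ℝ) ^ (1 - δ) <
      ‖∑ p ∈ F, ∏ j, LL p (1 / 2 + I * (γ j : ℂ)) - (3 / Real.pi ^ 2 * X : ℝ) * Mt γ‖} ⊆
      ({γ | (X : ℝ) ^ (1 - a) ≤ ‖∑ p ∈ F, (1:ℂ) * (∏ j, f p (γ j) - ∏ j, PY Y p (γ j))‖} ∪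
        {γ | (X : ℝ) ^ (1 - a) ≤ ‖∑ p ∈ F, ∏ j, PY Y p (γ j) - (3 / Real.pi ^ 2 * X : ℝ) * DS Y γ‖}) ∪
        {γ | (Y : ℝ) ^ (-δ1) < ‖DS Y γ - Mt γ‖} := by
    intro γ hγ
    by_contra hcon
    rw [Set.mem_union, Set.mem_union, not_or, not_or] at hcon
    obtain ⟨⟨n1, n2⟩, n3⟩ := hcon
    simp only [Set.mem_setOf_eq, not_le, not_lt] at n1 n2 n3
    have hγ' : (X : ℝ) ^ (1 - δ) < ‖∑ p ∈ F, ∏ j, LL p (1 / 2 + I * (γ j : ℂ)) -
      (3 / Real.pi ^ 2 * X : ℝ) * Mt γ‖ := hγ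
    have e0 : ∑ p ∈ F, ∏ j, LL p (1 / 2 + I * (γ j : ℂ)) = ∑ p ∈ F, ∏ j, f p (γ j) := by
      refine Finset.sum_congr rfl fun p hp => ?_
      rw [hfF p hp]
    have e1 : ∑ p ∈ F, ∏ j, LL p (1 / 2 + I * (γ j : ℂ)) - (3 / Real.pi ^ 2 * X : ℝ) * Mt γ =
        ∑ p ∈ F, (1:ℂ) * (∏ j, f p (γ j) - ∏ j, PY Y p (γ j)) +
        (∑ p ∈ F, ∏ j, PY Y p (γ j) - (3 / Real.pi ^ 2 * X : ℝ) * DS Y γ) +
        (3 / Real.pi ^ 2 * X : ℝ) * (DS Y γ - Mt γ) := by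
      rw [e0]
      simp only [one_mul, Finset.sum_sub_distrib]
      ring
    have hpi : 3 / Real.pi ^ 2 ≤ 1 := by
      rw [div_le_one (by positivity)]
      nlinarith [Real.pi_gt_three]
    have e2 : ‖((3 / Real.pi ^ 2 * X : ℝ) : ℂ) * (DS Y γ - Mt γ)‖ ≤ (X : ℝ) ^ (1 - m) := by
      rw [norm_mul, Complex.norm_real, Real.norm_of_nonneg (by positivity)]
      calc 3 / Real.pi ^ 2 * X * ‖DS Y γ - Mt γ‖ ≤ 1 * X * (X : ℝ) ^ (-m) := by
            gcongr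
            refine n3.trans ?_
            calc (Y : ℝ) ^ (-δ1) ≤ (X : ℝ) ^ (-δ1) :=
                  Real.rpow_le_rpow_of_nonpos hX0 hYr (by linarith)
              _ ≤ _ := Real.rpow_le_rpow_of_exponent_le hX1r (by linarith)
        _ = (X : ℝ) ^ (1 - m) := by
            rw [one_mul, sub_eq_add_neg, Real.rpow_add hX0, Real.rpow_one]
    have e3 : (X : ℝ) ^ (1 - a) ≤ (X : ℝ) ^ (1 - m) :=
      Real.rpow_le_rpow_of_exponent_le hX1r (by linarith)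
    have e4 : ‖∑ p ∈ F, ∏ j, LL p (1 / 2 + I * (γ j : ℂ)) - (3 / Real.pi ^ 2 * X : ℝ) * Mt γ‖ ≤
        3 * (X : ℝ) ^ (1 - m) := by
      rw [e1]
      refine (norm_add_le _ _).trans ?_
      have := norm_add_le (∑ p ∈ F, (1:ℂ) * (∏ j, f p (γ j) - ∏ j, PY Y p (γ j)))
        (∑ p ∈ F, ∏ j, PY Y p (γ j) - (3 / Real.pi ^ 2 * X : ℝ) * DS Y γ)
      linarith
    have e5 : 3 * (X : ℝ) ^ (1 - m) ≤ (X : ℝ) ^ (1 - δ) := by
      have : (X : ℝ) ^ (1 - δ) = (X : ℝ) ^ δ * (X : ℝ) ^ (1 - m) := by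
        rw [← Real.rpow_add hX0]
        congr 1
        rw [hδ]
        ring
      rw [this]
      gcongr
      linarith
    linarith
  refine (measure_mono hsub).trans ((measure_union_le _ _).trans (le_trans (add_le_add
    ((measure_union_le _ _).trans (add_le_add b1 b2)) b3) ?_))
  rw [← ENNReal.ofReal_add (by positivity) (by positivity),
    ← ENNReal.ofReal_add (by positivity) (by positivity)]
  refine ENNReal.ofReal_le_ofReal ?_
  have hsq : ((X : ℝ) ^ (1 - a)) ^ 2 = (X : ℝ) ^ (2 - 2 * a) := by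
    rw [← Real.rpow_natCast, ← Real.rpow_mul hX0.le]
    congr 1
    push_cast
    ring
  have f1 : C3 * (X : ℝ) ^ (2 - 3 / 4 * δ') * H ^ k / ((X : ℝ) ^ (1 - a)) ^ 2 ≤
      C3 * (X : ℝ) ^ (-m) * H ^ k := by
    rw [hsq, div_le_iff₀ (by positivity)]
    calc C3 * (X : ℝ) ^ (2 - 3 / 4 * δ') * H ^ k ≤ C3 * (X : ℝ) ^ (-m + (2 - 2 * a)) * H ^ k := by
          have : (X : ℝ) ^ (2 - 3 / 4 * δ') ≤ (X : ℝ) ^ (-m + (2 - 2 * a)) := by
            refine Real.rpow_le_rpow_of_exponent_le hX1r ?_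
            rw [ha] at hma ⊢
            linarith
          gcongr
      _ = _ := by
          rw [Real.rpow_add hX0]
          ring
  have f2 : C4 * (X : ℝ) ^ (9 / 5 + 1 / 20 : ℝ) * H ^ k / ((X : ℝ) ^ (1 - a)) ^ 2 ≤
      C4 * (X : ℝ) ^ (-m) * H ^ k := by
    rw [hsq, div_le_iff₀ (by positivity)]
    calc C4 * (X : ℝ) ^ (9 / 5 + 1 / 20 : ℝ) * H ^ k ≤ C4 * (X : ℝ) ^ (-m + (2 - 2 * a)) * H ^ k := by
          have : (X : ℝ) ^ (9 / 5 + 1 / 20 : ℝ) ≤ (X : ℝ) ^ (-m + (2 - 2 * a)) :=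
            Real.rpow_le_rpow_of_exponent_le hX1r (by linarith)
          gcongr
      _ = _ := by
          rw [Real.rpow_add hX0]
          ring
  have f3 : H ^ k * (Y : ℝ) ^ (-δ1) ≤ 1 * (X : ℝ) ^ (-m) * H ^ k := by
    have : (Y : ℝ) ^ (-δ1) ≤ (X : ℝ) ^ (-m) := by
      calc (Y : ℝ) ^ (-δ1) ≤ (X : ℝ) ^ (-δ1) :=
            Real.rpow_le_rpow_of_nonpos hX0 hYr (by linarith)
        _ ≤ _ := Real.rpow_le_rpow_of_exponent_le hX1r (by linarith)
    calc H ^ k * (Y : ℝ) ^ (-δ1) ≤ H ^ k * (X : ℝ) ^ (-m) := by gcongr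
      _ = _ := by ring
  have f4 : (C3 + C4 + 1) * (X : ℝ) ^ (-m) ≤ (X : ℝ) ^ (-δ) := by
    have : (X : ℝ) ^ (-δ) = (X : ℝ) ^ δ * (X : ℝ) ^ (-m) := by
      rw [← Real.rpow_add hX0]
      congr 1
      rw [hδ]
      ring
    rw [this]
    gcongr
    linarith
  calc _ ≤ C3 * (X : ℝ) ^ (-m) * H ^ k + C4 * (X : ℝ) ^ (-m) * H ^ k + 1 * (X : ℝ) ^ (-m) * H ^ k := by
        gcongr
    _ = H ^ k * ((C3 + C4 + 1) * (X : ℝ) ^ (-m)) := by ring
    _ ≤ _ := by gcongr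

end

end Pool.Agent.Y752.QF
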