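import Pool.Agent.Y291.QF.RR3
import Pool.Agent.Y752.QF.Stm5

set_option autoImplicit false

/-! Project QF: hyperbolic region and product outside a small set, `4 N^2 ≤ H`: the splitting and the
mean squares. -/

namespace Pool.Agent.Y752.QF.R5

open MeasureTheory Set Filter Complex
open Pool.Agent.TH612.GS (mP zN)
open Pool.Agent.TH612.CF (pw pw_apply pw_mult)
open Pool.Agent.TH521.GS (mor)
open Pool.Agent.Y752.QF
open Pool.Agent.Y986.QF (dbl lx_dbl XX2_eq EH EH_le)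
open Pool.Agent.Y752.SR (TT mem_TT TT_pos XX XX_expand lx fx fx_pos fx_dvd dvd_fx prod_lx chs chs_cont
  chs_mul chs_one chs_prod sg tt_sum logp_le tls RR AA QQ PP SI cI AA_expand RR_insert RR_empty
  QQ_le RR_cont sum_inv_le)
open Pool.Agent.Y291.QF (ds ds_cont chs_sv chs_neg GG AA_ds RR_eq)

noncomputable section

variable {k : ℕ}

/-- the numbers of one edge -/
def HH (a : Fin k × Fin k) (n : ℕ) (j : Fin k) : ℕ := (if j = a.1 then n else 1) * (if j = a.2 then n else 1)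

/-- the numbers of the rest -/
def JJ (ν : Fin k × Fin k → ℕ) (j : Fin k) : ℕ := fx ν (Sum.inl j) * fx ν (Sum.inr j)

/-- one block of one edge -/
def TB (σ : Fin k → Bool) (a : Fin k × Fin k) (N i : ℕ) (γ : Fin k → ℝ) : ℂ :=
  ∑ n ∈ (Finset.Icc 1 N).filter (fun n => Nat.log 2 n = i), (n : ℂ)⁻¹ * ∏ j, chs (σ j) (HH a n j) (γ j)

/-- the rest -/
def PA (σ : Fin k → Bool) (s : Finset (Fin k × Fin k)) (W i : ℕ) (γ : Fin k → ℝ) : ℂ :=
  ∑ ν ∈ (TT s W).filter (fun ν => ∏ e, ν e ≤ W ∧ W < (∏ e, ν e) * 2 ^ i),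
    ((∏ e, ν e : ℕ) : ℂ)⁻¹ * ∏ j, chs (σ j) (JJ ν j) (γ j)

/-- the boundary -/
def BD (σ : Fin k → Bool) (s : Finset (Fin k × Fin k)) (a : Fin k × Fin k) (W N : ℕ) (γ : Fin k → ℝ) : ℂ :=
  ∑ q ∈ (SI s W N).filter (fun q => (∏ e, q.1 e) * 2 ^ (Nat.log 2 q.2) ≤ W),
    cI q * ∏ j, chs (σ j) (GG a q j) (γ j)

lemma AA_split (σ : Fin k → Bool) (s : Finset (Fin k × Fin k)) (a : Fin k × Fin k) (W N : ℕ)
    (γ : Fin k → ℝ) : AA s a W N (ds σ γ) =
      BD σ s a W N γ + ∑ i ∈ Finset.range (Nat.log 2 N + 1), PA σ s W i γ * TB σ a N i γ := by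
  classical
  rw [AA_ds, ← Finset.sum_filter_add_sum_filter_not (SI s W N)
    (fun q => (∏ e, q.1 e) * 2 ^ (Nat.log 2 q.2) ≤ W)]
  congr 1
  have e1 : ∀ i ∈ Finset.range (Nat.log 2 N + 1), PA σ s W i γ * TB σ a N i γ =
      ∑ q ∈ ((SI s W N).filter (fun q => ¬ (∏ e, q.1 e) * 2 ^ (Nat.log 2 q.2) ≤ W)).filter
        (fun q => Nat.log 2 q.2 = i), cI q * ∏ j, chs (σ j) (GG a q j) (γ j) := by
    intro i _
    unfold PA TB
    rw [Finset.sum_mul_sum, ← Finset.sum_product']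
    have hset : (((TT s W).filter (fun ν => ∏ e, ν e ≤ W ∧ W < (∏ e, ν e) * 2 ^ i)) ×ˢ
        ((Finset.Icc 1 N).filter (fun n => Nat.log 2 n = i))) =
        ((SI s W N).filter (fun q => ¬ (∏ e, q.1 e) * 2 ^ (Nat.log 2 q.2) ≤ W)).filter
        (fun q => Nat.log 2 q.2 = i) := by
      ext q
      unfold SI
      simp only [Finset.mem_product, Finset.mem_filter, Finset.mem_Icc, not_le]
      constructor
      · rintro ⟨⟨h1, h2, h3⟩, ⟨h4, h5⟩, h6⟩
        refine ⟨⟨⟨⟨h1, h4, h5⟩, h2, ?_⟩, ?_⟩, h6⟩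
        · refine lt_of_lt_of_le h3 (Nat.mul_le_mul_left _ ?_)
          rw [← h6]
          exact Nat.pow_log_le_self 2 (by omega)
        · rw [h6]
          exact h3
      · rintro ⟨⟨⟨⟨h1, h4, h5⟩, h2, h7⟩, h3⟩, h6⟩
        rw [h6] at h3
        exact ⟨⟨h1, h2, h3⟩, ⟨h4, h5⟩, h6⟩
    rw [hset]
    refine Finset.sum_congr rfl fun q _ => ?_
    unfold cI
    have e2 : ∏ j, chs (σ j) (GG a q j) (γ j) =
        (∏ j, chs (σ j) (JJ q.1 j) (γ j)) * ∏ j, chs (σ j) (HH a q.2 j) (γ j) := by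
      rw [← Finset.prod_mul_distrib]
      refine Finset.prod_congr rfl fun j _ => ?_
      rw [← chs_mul]
      rfl
    rw [e2]
    push_cast
    ring
  rw [Finset.sum_congr rfl e1]
  symm
  refine Finset.sum_fiberwise_of_maps_to (fun q hq => ?_) _
  rw [Finset.mem_filter] at hq
  have h1 := hq.1
  unfold SI at h1
  rw [Finset.mem_filter, Finset.mem_product, Finset.mem_Icc] at h1
  rw [Finset.mem_range]
  exact Nat.lt_succ_of_le (Nat.log_mono_right h1.1.2.2)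

end

end Pool.Agent.Y752.QF.R5
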