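import Pool.Agent.Y752.QF.Rr5a

set_option autoImplicit false

/-! Project QF: hyperbolic region and product outside a small set, `4 N^2 ≤ H`: mean squares. -/

namespace Pool.Agent.Y752.QF.R5

open MeasureTheory Set Filter Complex
open Pool.Agent.TH612.GS (mP zN)
open Pool.Agent.TH612.CF (pw pw_apply pw_mult)
open Pool.Agent.TH521.GS (mor)
open Pool.Agent.Y752.QF
open Pool.Agent.Y986.QF (dbl lx_dbl XX2_eq EH EH_le)
open Pool.Agent.Y752.SR (TT mem_TT TT_pos XX XX_expand lx fx fx_pos fx_dvd dvd_fx prod_lx chs chs_cont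
  chs_mul chs_one chs_prod sg tt_sum logp_le tls RR AA QQ PP SI cI AA_expand RR_insert RR_empty
  QQ_le RR_cont sum_inv_le)
open Pool.Agent.Y291.QF (ds ds_cont chs_sv chs_neg GG AA_ds RR_eq)

noncomputable section

variable {k : ℕ}

/-- the mean value theorem used -/
def MVh (C1 : ℝ) : Prop := ∀ (T : ℝ) (X : ℕ) (a : ℕ → ℂ), 1 ≤ T → (X : ℝ) ≤ T ^ 2 →
      ∫ u in (0:ℝ)..(2 * T), ‖∑ n ∈ Finset.Icc 1 X, a n * (n : ℂ) ^ (-(I * u))‖ ^ 2 ≤
        C1 * ∑ n ∈ Finset.Icc 1 X, (T + n) * ‖a n‖ ^ 2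

theorem TB_ms {C1 : ℝ} (hC1 : 0 < C1) (hMV : MVh C1) (k : ℕ) (σ : Fin k → Bool) (a : Fin k × Fin k)
    (H : ℝ) (N i : ℕ) (hN : 1 ≤ N) (hNH : (N : ℝ) ^ 2 ≤ H) :
    ∫⁻ γ, ENNReal.ofReal (‖TB σ a N i γ‖ ^ 2) ∂(mP (Fin k) H) ≤
      ENNReal.ofReal ((2 * C1 * H) ^ k * (1 / 2 ^ i)) := by
  classical
  have hN1 : (1:ℝ) ≤ N := by exact_mod_cast hN
  have hH : 1 ≤ H := le_trans (one_le_pow₀ hN1) hNH
  obtain ⟨S, hS⟩ : ∃ S : Finset ℕ, S = (Finset.Icc 1 N).filter (fun n => Nat.log 2 n = i) := ⟨_, rfl⟩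
  have hmem : ∀ n ∈ S, 1 ≤ n ∧ n ≤ N ∧ Nat.log 2 n = i := by
    intro n hn
    rw [hS, Finset.mem_filter, Finset.mem_Icc] at hn
    exact ⟨hn.1.1, hn.1.2, hn.2⟩
  have h1 := tls hC1 hMV hH k σ S (fun n => HH a n) (fun n => (n : ℂ)⁻¹) 1
    (fun n hn j => by
      obtain ⟨q1, q2, q3⟩ := hmem n hn
      unfold HH
      have h3 : 1 ≤ (if j = a.1 then n else 1) := by split_ifs <;> omega
      have h4 : 1 ≤ (if j = a.2 then n else 1) := by split_ifs <;> omega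
      have h5 : (if j = a.1 then n else 1) ≤ N := by split_ifs <;> omega
      have h6 : (if j = a.2 then n else 1) ≤ N := by split_ifs <;> omega
      refine ⟨Nat.mul_pos h3 h4, ?_⟩
      have h7 : ((if j = a.1 then n else 1) * (if j = a.2 then n else 1) : ℕ) ≤ N * N :=
        Nat.mul_le_mul h5 h6
      have h8 : (((if j = a.1 then n else 1) * (if j = a.2 then n else 1) : ℕ) : ℝ) ≤ ((N * N : ℕ) : ℝ) := by
        exact_mod_cast h7
      refine h8.trans ?_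
      push_cast
      calc (N : ℝ) * N = (N : ℝ) ^ 2 := by ring
        _ ≤ H := hNH)
    (fun n hn => by
      rw [Finset.card_le_one]
      intro n1 hn1 n2 hn2
      rw [Finset.mem_filter] at hn1 hn2
      have e1 := congrFun hn1.2 a.1
      have e2 := congrFun hn2.2 a.1
      have e3 : HH a n1 a.1 = HH a n2 a.1 := e1.trans e2.symm
      unfold HH at e3
      rw [if_pos rfl, if_pos rfl] at e3
      by_cases h : a.1 = a.2
      · rw [if_pos h, if_pos h] at e3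
        exact Nat.mul_self_inj.1 e3
      · rw [if_neg h, if_neg h] at e3
        simpa using e3)
  unfold TB
  rw [← hS]
  refine h1.trans (ENNReal.ofReal_le_ofReal ?_)
  refine mul_le_mul_of_nonneg_left ?_ (by positivity)
  have h2 : ∀ n ∈ S, ‖(n : ℂ)⁻¹‖ ^ 2 ≤ (1 / 2 ^ i) ^ 2 := by
    intro n hn
    obtain ⟨q1, q2, q3⟩ := hmem n hn
    have h3 : 2 ^ i ≤ n := by
      rw [← q3]
      exact Nat.pow_log_le_self 2 (by omega)
    have h4 : ((2:ℝ) ^ i) ≤ n := by exact_mod_cast h3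
    rw [norm_inv, Complex.norm_natCast, one_div]
    have : (0:ℝ) < 2 ^ i := by positivity
    gcongr
  have h3 : (S.card : ℝ) ≤ 2 ^ i := by
    have h4 : S ⊆ Finset.Ico (2 ^ i) (2 ^ (i + 1)) := by
      intro n hn
      obtain ⟨q1, q2, q3⟩ := hmem n hn
      rw [Finset.mem_Ico, ← q3]
      exact ⟨Nat.pow_log_le_self 2 (by omega), Nat.lt_pow_succ_log_self (by norm_num) n⟩
    have h5 := Finset.card_le_card h4
    rw [Nat.card_Ico] at h5
    have h6 : 2 ^ (i + 1) - 2 ^ i = 2 ^ i := by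
      rw [pow_succ]
      omega
    rw [h6] at h5
    exact_mod_cast h5
  calc ((1 : ℕ) : ℝ) * ∑ n ∈ S, ‖(n : ℂ)⁻¹‖ ^ 2 ≤ 1 * ∑ n ∈ S, (1 / 2 ^ i) ^ 2 := by
        rw [Nat.cast_one]
        exact mul_le_mul_of_nonneg_left (Finset.sum_le_sum h2) zero_le_one
    _ = S.card * (1 / 2 ^ i) ^ 2 := by
        rw [Finset.sum_const, nsmul_eq_mul]
        ring
    _ ≤ 2 ^ i * (1 / 2 ^ i) ^ 2 := by gcongr
    _ = 1 / 2 ^ i := by field_simp

theorem PA_ms {C1 : ℝ} (hC1 : 0 < C1) (hMV : MVh C1) (k : ℕ) {ε : ℝ} (hε : 0 < ε) :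
    ∃ C : ℝ, 1 ≤ C ∧ ∀ (σ : Fin k → Bool) (s : Finset (Fin k × Fin k))
      (H : ℝ) (W N i : ℕ), 1 ≤ W → W ≤ N → (N : ℝ) ^ 2 ≤ H →
      ∫⁻ γ, ENNReal.ofReal (‖PA σ s W i γ‖ ^ 2) ∂(mP (Fin k) H) ≤
        ENNReal.ofReal (C * H ^ k * H ^ ε * 2 ^ i / W) := by
  classical
  obtain ⟨C2, hC2, hE⟩ := EH_le (δ := ε / 2) (by positivity) (k * k)
  obtain ⟨C3, hC3, hL⟩ := logp_le (δ := ε / 2) (by positivity) (k * k)
  have hC20 : 0 < C2 := by linarith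
  have hC30 : 0 < C3 := by linarith
  refine ⟨max 1 ((2 * C1) ^ k * C2 * C3), le_max_left _ _, ?_⟩
  intro σ s H W N i hW hWN hNH
  have hN1' : 1 ≤ N := hW.trans hWN
  have hN1 : (1:ℝ) ≤ N := by exact_mod_cast hN1'
  have hW0 : (0:ℝ) < W := by exact_mod_cast hW
  have hNH' : (N : ℝ) ≤ H := by
    refine le_trans ?_ hNH
    nlinarith
  have hH : 1 ≤ H := hN1.trans hNH'
  have hH0 : 0 < H := by linarith
  have hlN : 0 ≤ Real.log N := Real.log_nonneg hN1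
  obtain ⟨S, hS⟩ : ∃ S : Finset (Fin k × Fin k → ℕ), S = (TT s W).filter
    (fun ν => ∏ e, ν e ≤ W ∧ W < (∏ e, ν e) * 2 ^ i) := ⟨_, rfl⟩
  have hmem : ∀ ν ∈ S, ν ∈ TT s W ∧ ∏ e, ν e ≤ W ∧ W < (∏ e, ν e) * 2 ^ i := by
    intro ν hν
    rw [hS, Finset.mem_filter] at hν
    exact hν
  have hpp : ∀ ν ∈ S, 1 ≤ ∏ e, ν e := by
    intro ν hν
    have : 0 < ∏ e, ν e := Finset.prod_pos fun e _ => Nat.lt_of_succ_le (TT_pos (hmem ν hν).1 e)
    exact this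
  have hfN : ∀ ν ∈ S, ∀ i, fx ν i ≤ N := fun ν hν i =>
    (Nat.le_of_dvd (hpp ν hν) (fx_dvd ν i)).trans ((hmem ν hν).2.1.trans hWN)
  have hG1 : ∀ ν ∈ S, ∀ j, 1 ≤ JJ ν j := by
    intro ν hν j
    unfold JJ
    exact Nat.mul_pos (fx_pos (TT_pos (hmem ν hν).1) (Sum.inl j)) (fx_pos (TT_pos (hmem ν hν).1) (Sum.inr j))
  have hG2 : ∀ ν ∈ S, ∀ j, (JJ ν j : ℝ) ≤ H := by
    intro ν hν j
    have h6 : JJ ν j ≤ N * N := Nat.mul_le_mul (hfN ν hν _) (hfN ν hν _)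
    have h7 : (JJ ν j : ℝ) ≤ ((N * N : ℕ) : ℝ) := by exact_mod_cast h6
    refine h7.trans ?_
    push_cast
    calc (N : ℝ) * N = (N : ℝ) ^ 2 := by ring
      _ ≤ H := hNH
  have h1 := tls hC1 hMV hH k σ S (fun ν => JJ ν) (fun ν => ((∏ e, ν e : ℕ) : ℂ)⁻¹) (EH H ^ (k * k))
    (fun ν hν j => ⟨hG1 ν hν j, hG2 ν hν j⟩)
    (fun ν hν => by
      have h2 : (S.filter fun ν' => JJ ν' = JJ ν).card ≤
          (Fintype.piFinset fun e : Fin k × Fin k => (JJ ν e.1).divisors).card := by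
        refine Finset.card_le_card ?_
        intro ν' hν'
        rw [Finset.mem_filter] at hν'
        rw [Fintype.mem_piFinset]
        intro e
        rw [Nat.mem_divisors]
        refine ⟨?_, by have := hG1 ν hν e.1; omega⟩
        rw [← congrFun hν'.2 e.1]
        unfold JJ
        exact (dvd_fx ν' e).trans (Dvd.intro _ rfl)
      refine h2.trans ?_
      rw [Fintype.card_piFinset]
      have h3 : ∏ e : Fin k × Fin k, EH H = EH H ^ (k * k) := by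
        rw [Finset.prod_const, Finset.card_univ, Fintype.card_prod, Fintype.card_fin]
      have h4 : ∀ i, (JJ ν i).divisors.card ≤ EH H := fun i => by
        unfold EH
        exact Finset.le_sup (f := fun M : ℕ => M.divisors.card) (Finset.mem_Icc.2
          ⟨hG1 ν hν i, Nat.le_floor (hG2 ν hν i)⟩)
      rw [← h3]
      exact Finset.prod_le_prod' fun e _ => h4 e.1)
  unfold PA
  rw [← hS]
  refine h1.trans (ENNReal.ofReal_le_ofReal ?_)
  push_cast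
  have h3 : ∀ ν ∈ S, ‖(∏ e, (ν e : ℂ))⁻¹‖ ^ 2 ≤ (2 ^ i / W) * ∏ e, ((ν e : ℕ) : ℝ)⁻¹ := by
    intro ν hν
    obtain ⟨h4, h7, h8⟩ := hmem ν hν
    set p : ℕ := ∏ e, ν e with hp
    have hp1 : (1:ℝ) ≤ p := by exact_mod_cast hpp ν hν
    have e1 : ∏ e, ((ν e : ℕ) : ℝ)⁻¹ = (p : ℝ)⁻¹ := by
      rw [hp, Finset.prod_inv_distrib]
      push_cast
      rfl
    have e2 : ‖(∏ e, (ν e : ℂ))⁻¹‖ = (p : ℝ)⁻¹ := by
      have : (∏ e, (ν e : ℂ)) = ((p : ℕ) : ℂ) := by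
        rw [hp]
        push_cast
        rfl
      rw [this, norm_inv, Complex.norm_natCast]
    rw [e1, e2]
    have h10 : (W : ℝ) ≤ p * 2 ^ i := by
      have : (W : ℝ) < ((p * 2 ^ i : ℕ) : ℝ) := by exact_mod_cast h8
      push_cast at this
      exact this.le
    have hx : (p : ℝ)⁻¹ ≤ 2 ^ i / W := by
      rw [le_div_iff₀ hW0, inv_mul_le_iff₀ (by linarith)]
      exact h10
    calc ((p : ℝ)⁻¹) ^ 2 = (p : ℝ)⁻¹ * (p : ℝ)⁻¹ := by ring
      _ ≤ _ := by gcongr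
  have h4 : ∑ ν ∈ S, ‖(∏ e, (ν e : ℂ))⁻¹‖ ^ 2 ≤ (2 ^ i / W) * (1 + Real.log N) ^ (k * k) := by
    refine (Finset.sum_le_sum h3).trans ?_
    rw [← Finset.mul_sum]
    refine mul_le_mul_of_nonneg_left ?_ (by positivity)
    refine le_trans ?_ (tt_sum s hW hWN)
    rw [hS]
    exact Finset.sum_le_sum_of_subset_of_nonneg (Finset.filter_subset _ _) fun ν _ _ =>
      Finset.prod_nonneg fun e _ => by positivity
  have h2 := hE H hH
  have h5 := hL N hN1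
  have h5' : (N : ℝ) ^ (ε / 2) ≤ H ^ (ε / 2) := Real.rpow_le_rpow (by linarith) hNH' (by positivity)
  have h6 : (1 + Real.log N) ^ (k * k) ≤ C3 * H ^ (ε / 2) :=
    h5.trans (mul_le_mul_of_nonneg_left h5' hC30.le)
  have hHe : H ^ (ε / 2) * H ^ (ε / 2) = H ^ ε := by
    rw [← Real.rpow_add hH0]
    congr 1
    ring
  have h7 : 0 ≤ ∑ ν ∈ S, ‖(∏ e, (ν e : ℂ))⁻¹‖ ^ 2 := Finset.sum_nonneg fun ν _ => by positivity
  calc (2 * C1 * H) ^ k * ((EH H : ℝ) ^ (k * k) * ∑ ν ∈ S, ‖(∏ e, (ν e : ℂ))⁻¹‖ ^ 2)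
      ≤ (2 * C1 * H) ^ k * ((C2 * H ^ (ε / 2)) * ((2 ^ i / W) * (C3 * H ^ (ε / 2)))) := by
        refine mul_le_mul_of_nonneg_left ?_ (by positivity)
        refine mul_le_mul h2 (h4.trans ?_) h7 (by positivity)
        gcongr
    _ = ((2 * C1) ^ k * C2 * C3) * H ^ k * (H ^ (ε / 2) * H ^ (ε / 2)) * 2 ^ i / W := by
        rw [mul_pow (2 * C1) H]
        ring
    _ = ((2 * C1) ^ k * C2 * C3) * H ^ k * H ^ ε * 2 ^ i / W := by rw [hHe]
    _ ≤ _ := by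
        gcongr
        exact le_max_right _ _

end

end Pool.Agent.Y752.QF.R5
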