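import Pool.Agent.Y752.QF.Rr5b

set_option autoImplicit false

/-! Project QF: hyperbolic region and product outside a small set, `4 N^2 ≤ H`: the boundary part. -/

namespace Pool.Agent.Y752.QF.R5

open MeasureTheory Set Filter Complex
open Pool.Agent.TH612.GS (mP zN)
open Pool.Agent.TH612.CF (pw pw_apply pw_mult)
open Pool.Agent.TH521.GS (mor)
open Pool.Agent.Y752.QF
open Pool.Agent.Y986.QF (dbl lx_dbl XX2_eq EH EH_le)
open Pool.Agent.Y752.SR (TT mem_TT TT_pos XX XX_expand lx fx fx_pos fx_dvd dvd_fx prod_lx chs chs_cont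
  chs_mul chs_one chs_prod sg tt_sum logp_le tls RR AA QQ PP SI cI AA_expand RR_insert RR_empty
  QQ_le RR_cont sum_inv_le)
open Pool.Agent.Y291.QF (ds ds_cont chs_sv chs_neg GG AA_ds RR_eq)

noncomputable section

variable {k : ℕ}

theorem BD_ms {C1 : ℝ} (hC1 : 0 < C1) (hMV : MVh C1) (k : ℕ) {ε : ℝ} (hε : 0 < ε) :
    ∃ C : ℝ, 1 ≤ C ∧ ∀ (σ : Fin k → Bool) (s : Finset (Fin k × Fin k)) (a : Fin k × Fin k)
      (H : ℝ) (W N : ℕ), 1 ≤ W → W ≤ N → 4 * (N : ℝ) ^ 2 ≤ H →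
      ∫⁻ γ, ENNReal.ofReal (‖BD σ s a W N γ‖ ^ 2) ∂(mP (Fin k) H) ≤
        ENNReal.ofReal (C * H ^ k * H ^ ε / W) := by
  obtain ⟨C2, hC2, hE⟩ := EH_le (δ := ε / 2) (by positivity) (k * k + 1)
  obtain ⟨C3, hC3, hL⟩ := logp_le (δ := ε / 2) (by positivity) (k * k + 1)
  have hC20 : 0 < C2 := by linarith
  have hC30 : 0 < C3 := by linarith
  refine ⟨max 1 ((2 * C1) ^ k * C2 * C3), le_max_left _ _, ?_⟩
  intro σ s a H W N hW hWN hNH
  classical
  have hN1' : 1 ≤ N := hW.trans hWN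
  have hN1 : (1:ℝ) ≤ N := by exact_mod_cast hN1'
  have hW0 : (0:ℝ) < W := by exact_mod_cast hW
  have hNH' : (N : ℝ) ≤ H := by
    refine le_trans ?_ hNH
    nlinarith
  have hH : 1 ≤ H := hN1.trans hNH'
  have hH0 : 0 < H := by linarith
  have hlN : 0 ≤ Real.log N := Real.log_nonneg hN1
  obtain ⟨S, hS⟩ : ∃ S : Finset ((Fin k × Fin k → ℕ) × ℕ), S = (SI s W N).filter
    (fun q => (∏ e, q.1 e) * 2 ^ (Nat.log 2 q.2) ≤ W) := ⟨_, rfl⟩
  have hSS : S ⊆ SI s W N := by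
    rw [hS]
    exact Finset.filter_subset _ _
  have hlt : ∀ q ∈ S, (∏ e, q.1 e) * q.2 ≤ 2 * W := by
    intro q hq
    rw [hS, Finset.mem_filter] at hq
    have h1 : q.2 < 2 ^ (Nat.log 2 q.2 + 1) := Nat.lt_pow_succ_log_self (by norm_num) q.2
    calc (∏ e, q.1 e) * q.2 ≤ (∏ e, q.1 e) * 2 ^ (Nat.log 2 q.2 + 1) := Nat.mul_le_mul_left _ h1.le
      _ = 2 * ((∏ e, q.1 e) * 2 ^ (Nat.log 2 q.2)) := by ring
      _ ≤ 2 * W := Nat.mul_le_mul_left _ hq.2
  have hmem : ∀ q ∈ S, q.1 ∈ TT s W ∧ (1 ≤ q.2 ∧ q.2 ≤ N) ∧ ∏ e, q.1 e ≤ W ∧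
      W < (∏ e, q.1 e) * q.2 := by
    intro q hq
    have hq := hSS hq
    unfold SI at hq
    rw [Finset.mem_filter, Finset.mem_product, Finset.mem_Icc] at hq
    exact ⟨hq.1.1, hq.1.2, hq.2⟩
  have hpp : ∀ q ∈ S, 1 ≤ ∏ e, q.1 e := by
    intro q hq
    have : 0 < ∏ e, q.1 e := Finset.prod_pos fun e _ => Nat.lt_of_succ_le (TT_pos (hmem q hq).1 e)
    exact this
  have hfN : ∀ q ∈ S, ∀ i, fx q.1 i ≤ ∏ e, q.1 e := fun q hq i =>
    Nat.le_of_dvd (hpp q hq) (fx_dvd q.1 i)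
  have hG1 : ∀ q ∈ S, ∀ i, 1 ≤ GG a q i := by
    intro q hq i
    unfold GG
    have h1 := fx_pos (TT_pos (hmem q hq).1) (Sum.inl i)
    have h2 := fx_pos (TT_pos (hmem q hq).1) (Sum.inr i)
    have h3 := (hmem q hq).2.1.1
    refine Nat.mul_pos (Nat.mul_pos h1 h2) (Nat.mul_pos ?_ ?_)
    · split_ifs <;> omega
    · split_ifs <;> omega
  have hG2 : ∀ q ∈ S, ∀ i, (GG a q i : ℝ) ≤ H := by
    intro q hq i
    have h3 := (hmem q hq).2.1.1
    have h4 : (if i = a.1 then q.2 else 1) ≤ q.2 := by split_ifs <;> omega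
    have h5 : (if i = a.2 then q.2 else 1) ≤ q.2 := by split_ifs <;> omega
    obtain ⟨p, hp⟩ : ∃ p : ℕ, p = ∏ e, q.1 e := ⟨_, rfl⟩
    have h6 : GG a q i ≤ (p * p) * (q.2 * q.2) := by
      unfold GG
      rw [hp]
      exact Nat.mul_le_mul (Nat.mul_le_mul (hfN q hq _) (hfN q hq _)) (Nat.mul_le_mul h4 h5)
    have h8 : p * q.2 ≤ 2 * N := by
      rw [hp]
      exact (hlt q hq).trans (Nat.mul_le_mul_left _ hWN)
    have h9 : (p * p) * (q.2 * q.2) ≤ (2 * N) * (2 * N) := by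
      calc (p * p) * (q.2 * q.2) = (p * q.2) * (p * q.2) := by ring
        _ ≤ _ := Nat.mul_le_mul h8 h8
    have h7 : (GG a q i : ℝ) ≤ (((2 * N) * (2 * N) : ℕ) : ℝ) := by exact_mod_cast h6.trans h9
    refine h7.trans ?_
    push_cast
    calc 2 * (N : ℝ) * (2 * N) = 4 * (N : ℝ) ^ 2 := by ring
      _ ≤ H := hNH
  have h1 := tls hC1 hMV hH k σ S (fun q => GG a q) cI (EH H ^ (k * k + 1))
    (fun q hq i => ⟨hG1 q hq i, hG2 q hq i⟩)
    (fun q hq => by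
      have h2 : (S.filter fun q' => GG a q' = GG a q).card ≤
          ((Fintype.piFinset fun e : Fin k × Fin k => (GG a q e.1).divisors) ×ˢ
            (GG a q a.1).divisors).card := by
        refine Finset.card_le_card ?_
        intro q' hq'
        rw [Finset.mem_filter] at hq'
        rw [Finset.mem_product, Fintype.mem_piFinset]
        refine ⟨fun e => ?_, ?_⟩
        · rw [Nat.mem_divisors]
          refine ⟨?_, by have := hG1 q hq e.1; omega⟩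
          rw [← congrFun hq'.2 e.1]
          unfold GG
          exact ((dvd_fx q'.1 e).trans (Dvd.intro _ rfl)).trans (Dvd.intro _ rfl)
        · rw [Nat.mem_divisors]
          refine ⟨?_, by have := hG1 q hq a.1; omega⟩
          rw [← congrFun hq'.2 a.1]
          unfold GG
          rw [if_pos rfl]
          exact (Dvd.intro _ rfl : q'.2 ∣ q'.2 * _).trans (Dvd.intro_left _ rfl)
      refine h2.trans ?_
      rw [Finset.card_product, Fintype.card_piFinset, pow_succ]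
      have h3 : ∏ e : Fin k × Fin k, EH H = EH H ^ (k * k) := by
        rw [Finset.prod_const, Finset.card_univ, Fintype.card_prod, Fintype.card_fin]
      have h4 : ∀ i, (GG a q i).divisors.card ≤ EH H := fun i => by
        unfold EH
        exact Finset.le_sup (f := fun M : ℕ => M.divisors.card) (Finset.mem_Icc.2
          ⟨hG1 q hq i, Nat.le_floor (hG2 q hq i)⟩)
      rw [← h3]
      exact Nat.mul_le_mul (Finset.prod_le_prod' fun e _ => h4 e.1) (h4 a.1))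
  unfold BD
  rw [← hS]
  refine h1.trans (ENNReal.ofReal_le_ofReal ?_)
  push_cast
  have h3 : ∀ q ∈ S, ‖cI q‖ ^ 2 ≤
      (1 / W) * ((∏ e, ((q.1 e : ℕ) : ℝ)⁻¹) * (q.2 : ℝ)⁻¹) := by
    intro q hq
    obtain ⟨h4, ⟨h5, h6⟩, h7, h8⟩ := hmem q hq
    set p : ℕ := ∏ e, q.1 e with hp
    have hp1 : (1:ℝ) ≤ p := by exact_mod_cast hpp q hq
    have hq1 : (1:ℝ) ≤ q.2 := by exact_mod_cast h5
    have e1 : ∏ e, ((q.1 e : ℕ) : ℝ)⁻¹ = (p : ℝ)⁻¹ := by
      rw [hp, Finset.prod_inv_distrib]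
      push_cast
      rfl
    have e2 : ‖cI q‖ = (p : ℝ)⁻¹ * (q.2 : ℝ)⁻¹ := by
      unfold cI
      rw [norm_mul, norm_inv, norm_inv, Complex.norm_natCast, Complex.norm_natCast]
    rw [e1, e2]
    have h10 : (W : ℝ) ≤ p * q.2 := by
      have : (W : ℝ) < ((p * q.2 : ℕ) : ℝ) := by exact_mod_cast h8
      push_cast at this
      exact this.le
    set x : ℝ := (p : ℝ)⁻¹ * (q.2 : ℝ)⁻¹ with hx
    have hx0 : 0 < x := by positivity
    have hx1 : x * ((p : ℝ) * q.2) = 1 := by rw [hx]; field_simp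
    have hxW : x ≤ 1 / W := by
      rw [le_div_iff₀ hW0]
      calc x * W ≤ x * (p * q.2) := by gcongr
        _ = 1 := hx1
    calc x ^ 2 = x * x := by ring
      _ ≤ (1 / W) * x := by gcongr
  have h4 : ∑ q ∈ S, ‖cI q‖ ^ 2 ≤ (1 + Real.log N) ^ (k * k + 1) / W := by
    refine (Finset.sum_le_sum h3).trans ?_
    rw [← Finset.mul_sum]
    have hW1 : (0:ℝ) ≤ 1 / W := by positivity
    have eW : (1 + Real.log N) ^ (k * k + 1) / (W : ℝ) =
        (1 / (W : ℝ)) * (1 + Real.log N) ^ (k * k + 1) := by ring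
    rw [eW]
    refine mul_le_mul_of_nonneg_left ?_ hW1
    have h5 : ∑ q ∈ S, (∏ e, ((q.1 e : ℕ) : ℝ)⁻¹) * (q.2 : ℝ)⁻¹ ≤
        ∑ q ∈ TT s W ×ˢ Finset.Icc 1 N, (∏ e, ((q.1 e : ℕ) : ℝ)⁻¹) * (q.2 : ℝ)⁻¹ := by
      refine Finset.sum_le_sum_of_subset_of_nonneg (hSS.trans (by
        unfold SI
        exact Finset.filter_subset _ _)) fun q _ _ => ?_
      exact mul_nonneg (Finset.prod_nonneg fun e _ => by positivity) (by positivity)
    refine h5.trans ?_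
    rw [Finset.sum_product]
    have e6 : ∑ x ∈ TT s W, ∑ y ∈ Finset.Icc 1 N, (∏ e, ((x e : ℕ) : ℝ)⁻¹) * (y : ℝ)⁻¹ =
        (∑ x ∈ TT s W, ∏ e, ((x e : ℕ) : ℝ)⁻¹) * ∑ y ∈ Finset.Icc 1 N, (y : ℝ)⁻¹ := by
      rw [Finset.sum_mul_sum]
    refine (le_of_eq e6).trans ?_
    rw [pow_succ]
    refine mul_le_mul (tt_sum s hW hWN) (sum_inv_le N) (Finset.sum_nonneg fun _ _ => by positivity) (by positivity)
  have h2 := hE H hH
  have h5 := hL N hN1
  have h5' : (N : ℝ) ^ (ε / 2) ≤ H ^ (ε / 2) := Real.rpow_le_rpow (by linarith) hNH' (by positivity)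
  have h6 : (1 + Real.log N) ^ (k * k + 1) ≤ C3 * H ^ (ε / 2) :=
    h5.trans (mul_le_mul_of_nonneg_left h5' hC30.le)
  have hHe : H ^ (ε / 2) * H ^ (ε / 2) = H ^ ε := by
    rw [← Real.rpow_add hH0]
    congr 1
    ring
  have h7 : 0 ≤ ∑ q ∈ S, ‖cI q‖ ^ 2 :=
    Finset.sum_nonneg fun q _ => pow_nonneg (norm_nonneg (cI q)) 2
  calc (2 * C1 * H) ^ k * ((EH H : ℝ) ^ (k * k + 1) * ∑ q ∈ S, ‖cI q‖ ^ 2)
      ≤ (2 * C1 * H) ^ k * ((C2 * H ^ (ε / 2)) * (C3 * H ^ (ε / 2) / W)) := by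
        refine mul_le_mul_of_nonneg_left ?_ (by positivity)
        refine mul_le_mul h2 (h4.trans ?_) h7 (by positivity)
        gcongr
    _ = ((2 * C1) ^ k * C2 * C3) * H ^ k * (H ^ (ε / 2) * H ^ (ε / 2)) / W := by
        rw [mul_pow (2 * C1) H]
        ring
    _ = ((2 * C1) ^ k * C2 * C3) * H ^ k * H ^ ε / W := by rw [hHe]
    _ ≤ _ := by
        gcongr
        exact le_max_right _ _


end

end Pool.Agent.Y752.QF.R5
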