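import Pool.Agent.Y752.QF.Rr5c
import Pool.Agent.Y752.QF.Final

set_option autoImplicit false

/-! Project QF: hyperbolic region and product outside a small set, `4 N^2 ≤ H`: the small set. -/

namespace Pool.Agent.Y752.QF.R5

open MeasureTheory Set Filter Complex
open Pool.Agent.TH612.GS (mP zN)
open Pool.Agent.TH612.CF (pw pw_apply pw_mult)
open Pool.Agent.TH521.GS (mor)
open Pool.Agent.Y752.QF
open Pool.Agent.Y986.QF (dbl lx_dbl XX2_eq EH EH_le)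
open Pool.Agent.Y752.SR (TT mem_TT TT_pos XX XX_expand lx fx fx_pos fx_dvd dvd_fx prod_lx chs chs_cont
  chs_mul chs_one chs_prod sg tt_sum logp_le tls RR AA QQ PP SI cI AA_expand RR_insert RR_empty
  QQ_le RR_cont sum_inv_le)
open Pool.Agent.Y291.QF (ds ds_cont chs_sv chs_neg GG AA_ds RR_eq)

noncomputable section

variable {k : ℕ}

/-- the good set -/
def GS (σ : Fin k → Bool) (N : ℕ) (B : ℝ) : Set (Fin k → ℝ) :=
  {γ | ∀ a : Fin k × Fin k, ∀ i : Fin (Nat.log 2 N + 1), ‖TB σ a N i γ‖ ^ 2 ≤ B / 2 ^ (i : ℕ)}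

lemma TB_cont (σ : Fin k → Bool) (a : Fin k × Fin k) (N i : ℕ) : Continuous (TB σ a N i) := by
  refine continuous_finsetSum _ fun n hn => continuous_const.mul ?_
  rw [Finset.mem_filter, Finset.mem_Icc] at hn
  refine continuous_finsetProd _ fun j _ => (chs_cont (σ j) ?_).comp (continuous_apply j)
  unfold HH
  refine Nat.mul_pos ?_ ?_
  · split_ifs <;> omega
  · split_ifs <;> omega

lemma PA_cont (σ : Fin k → Bool) (s : Finset (Fin k × Fin k)) (W i : ℕ) : Continuous (PA σ s W i) := by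
  refine continuous_finsetSum _ fun ν hν => continuous_const.mul ?_
  rw [Finset.mem_filter] at hν
  refine continuous_finsetProd _ fun j _ => (chs_cont (σ j) ?_).comp (continuous_apply j)
  unfold JJ
  exact Nat.mul_pos (fx_pos (TT_pos hν.1) (Sum.inl j)) (fx_pos (TT_pos hν.1) (Sum.inr j))

lemma BD_cont (σ : Fin k → Bool) (s : Finset (Fin k × Fin k)) (a : Fin k × Fin k) (W N : ℕ) :
    Continuous (BD σ s a W N) := by
  refine continuous_finsetSum _ fun q hq => continuous_const.mul ?_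
  rw [Finset.mem_filter] at hq
  have hq1 := hq.1
  unfold SI at hq1
  rw [Finset.mem_filter, Finset.mem_product, Finset.mem_Icc] at hq1
  refine continuous_finsetProd _ fun j _ => (chs_cont (σ j) ?_).comp (continuous_apply j)
  have h1 := fx_pos (TT_pos hq1.1.1) (Sum.inl j)
  have h2 := fx_pos (TT_pos hq1.1.1) (Sum.inr j)
  have h3 := hq1.1.2.1
  unfold GG
  refine Nat.mul_pos (Nat.mul_pos h1 h2) (Nat.mul_pos ?_ ?_)
  · split_ifs <;> omega
  · split_ifs <;> omega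

lemma GS_meas (σ : Fin k → Bool) (N : ℕ) (B : ℝ) : MeasurableSet (GS σ N B) := by
  have h : GS σ N B = ⋂ a : Fin k × Fin k, ⋂ i : Fin (Nat.log 2 N + 1),
      {γ | ‖TB σ a N i γ‖ ^ 2 ≤ B / 2 ^ (i : ℕ)} := by
    ext γ
    simp only [Set.mem_iInter]
    rfl
  rw [h]
  refine MeasurableSet.iInter fun a => MeasurableSet.iInter fun i => ?_
  exact (isClosed_le ((TB_cont σ a N i).norm.pow 2) continuous_const).measurableSet

lemma log2_le {N : ℕ} (hN : 1 ≤ N) : ((Nat.log 2 N : ℕ) : ℝ) + 1 ≤ 2 * (1 + Real.log N) := by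
  have h1 : 2 ^ (Nat.log 2 N) ≤ N := Nat.pow_log_le_self 2 (by omega)
  have h2 : ((2:ℝ) ^ (Nat.log 2 N)) ≤ N := by exact_mod_cast h1
  have h3 := Real.log_le_log (by positivity) h2
  rw [Real.log_pow] at h3
  have h4 := Real.log_two_gt_d9
  have h5 : (0:ℝ) ≤ (Nat.log 2 N : ℕ) := Nat.cast_nonneg _
  nlinarith

theorem GS_compl {C1 : ℝ} (hC1 : 0 < C1) (hMV : MVh C1) (k : ℕ) {ε : ℝ} (hε : 0 < ε) :
    ∃ C : ℝ, 1 ≤ C ∧ ∀ (σ : Fin k → Bool) (H B : ℝ) (N : ℕ), 0 < B → 1 ≤ N → (N : ℝ) ^ 2 ≤ H →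
      mP (Fin k) H (GS σ N B)ᶜ ≤ ENNReal.ofReal (C * H ^ k * H ^ ε / B) := by
  classical
  obtain ⟨C3, hC3, hL⟩ := logp_le (δ := ε) hε 1
  have hC30 : 0 < C3 := by linarith
  refine ⟨max 1 ((k * k) * (2 * C3) * (2 * C1) ^ k), le_max_left _ _, ?_⟩
  intro σ H B N hB hN hNH
  have hN1 : (1:ℝ) ≤ N := by exact_mod_cast hN
  have hNH' : (N : ℝ) ≤ H := by
    refine le_trans ?_ hNH
    nlinarith
  have hH : 1 ≤ H := hN1.trans hNH'
  have hH0 : 0 < H := by linarith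
  have hsub : (GS σ N B)ᶜ ⊆ ⋃ a : Fin k × Fin k, ⋃ i : Fin (Nat.log 2 N + 1),
      {γ | Real.sqrt (B / 2 ^ (i : ℕ)) ≤ ‖TB σ a N i γ‖} := by
    intro γ hγ
    by_contra hcon
    apply hγ
    intro a i
    by_contra h
    apply hcon
    simp only [Set.mem_iUnion]
    refine ⟨a, i, ?_⟩
    rw [not_le] at h
    exact (Real.sqrt_le_left (norm_nonneg _)).2 h.le
  have hone : ∀ (a : Fin k × Fin k) (i : Fin (Nat.log 2 N + 1)),
      mP (Fin k) H {γ | Real.sqrt (B / 2 ^ (i : ℕ)) ≤ ‖TB σ a N i γ‖} ≤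
      ENNReal.ofReal ((2 * C1 * H) ^ k / B) := by
    intro a i
    have h1 := mk (θ := Real.sqrt (B / 2 ^ (i : ℕ))) (TB_cont σ a N i) (Real.sqrt_pos.2 (by positivity))
      (TB_ms hC1 hMV k σ a H N i hN hNH)
    refine h1.trans (ENNReal.ofReal_le_ofReal (le_of_eq ?_))
    rw [Real.sq_sqrt (by positivity)]
    field_simp
  refine (measure_mono hsub).trans ((measure_iUnion_fintype_le _ _).trans ?_)
  refine (Finset.sum_le_sum fun a _ => (measure_iUnion_fintype_le _ _).trans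
    (Finset.sum_le_sum fun i _ => hone a i)).trans ?_
  simp only [Finset.sum_const, Finset.card_univ, Fintype.card_prod, Fintype.card_fin, nsmul_eq_mul]
  rw [← ENNReal.ofReal_natCast, ← ENNReal.ofReal_natCast, ← ENNReal.ofReal_mul (by positivity),
    ← ENNReal.ofReal_mul (by positivity)]
  refine ENNReal.ofReal_le_ofReal ?_
  push_cast
  have h1 := log2_le hN
  have h2 := hL N hN1
  rw [pow_one] at h2
  have h3 : (N : ℝ) ^ ε ≤ H ^ ε := Real.rpow_le_rpow (by linarith) hNH' hε.le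
  have h4 : ((Nat.log 2 N : ℕ) : ℝ) + 1 ≤ 2 * C3 * H ^ ε := by
    calc ((Nat.log 2 N : ℕ) : ℝ) + 1 ≤ 2 * (1 + Real.log N) := h1
      _ ≤ 2 * (C3 * (N : ℝ) ^ ε) := by gcongr
      _ ≤ 2 * (C3 * H ^ ε) := by gcongr
      _ = _ := by ring
  calc (k : ℝ) * k * ((((Nat.log 2 N : ℕ) : ℝ) + 1) * ((2 * C1 * H) ^ k / B)) ≤
        (k : ℝ) * k * ((2 * C3 * H ^ ε) * ((2 * C1 * H) ^ k / B)) := by gcongr
    _ = ((k * k) * (2 * C3) * (2 * C1) ^ k) * H ^ k * H ^ ε / B := by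
        rw [mul_pow (2 * C1) H]
        ring
    _ ≤ _ := by
        gcongr
        exact le_max_right _ _

theorem AA_G {C1 : ℝ} (hC1 : 0 < C1) (hMV : MVh C1) (k : ℕ) {ε : ℝ} (hε : 0 < ε) :
    ∃ C : ℝ, 1 ≤ C ∧ ∀ (σ : Fin k → Bool) (s : Finset (Fin k × Fin k)) (a : Fin k × Fin k)
      (H B : ℝ) (W N : ℕ), 1 ≤ B → 1 ≤ W → W ≤ N → 4 * (N : ℝ) ^ 2 ≤ H →
      ∫⁻ γ in GS σ N B, ENNReal.ofReal (‖AA s a W N (ds σ γ)‖ ^ 2) ∂(mP (Fin k) H) ≤
        ENNReal.ofReal (C * B * H ^ k * H ^ ε / W) := by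
  classical
  obtain ⟨C2, hC2, h2⟩ := PA_ms hC1 hMV k (ε := ε / 2) (by positivity)
  obtain ⟨C3, hC3, h3⟩ := BD_ms hC1 hMV k hε
  obtain ⟨C4, hC4, h4⟩ := logp_le (δ := ε / 2) (by positivity) 2
  have hC20 : 0 < C2 := by linarith
  have hC30 : 0 < C3 := by linarith
  have hC40 : 0 < C4 := by linarith
  refine ⟨2 * C3 + 8 * C4 * C2, by nlinarith, ?_⟩
  intro σ s a H B W N hB hW hWN hNH
  have hN1' : 1 ≤ N := hW.trans hWN
  have hN1 : (1:ℝ) ≤ N := by exact_mod_cast hN1'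
  have hW0 : (0:ℝ) < W := by exact_mod_cast hW
  have hN2 : (N : ℝ) ^ 2 ≤ H := by nlinarith
  have hNH' : (N : ℝ) ≤ H := by
    refine le_trans ?_ hN2
    nlinarith
  have hH : 1 ≤ H := hN1.trans hNH'
  have hH0 : 0 < H := by linarith
  obtain ⟨L, hL⟩ : ∃ L : ℕ, L = Nat.log 2 N + 1 := ⟨_, rfl⟩
  have hL1 : (L : ℝ) ≤ 2 * (1 + Real.log N) := by
    have := log2_le hN1'
    rw [hL]
    push_cast
    exact this
  have hL0 : (0:ℝ) ≤ L := Nat.cast_nonneg _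
  have hpt : ∀ γ ∈ GS σ N B, ENNReal.ofReal (‖AA s a W N (ds σ γ)‖ ^ 2) ≤
      ENNReal.ofReal 2 * ENNReal.ofReal (‖BD σ s a W N γ‖ ^ 2) +
        ∑ i ∈ Finset.range L, ENNReal.ofReal (2 * L * (B / 2 ^ i)) *
          ENNReal.ofReal (‖PA σ s W i γ‖ ^ 2) := by
    intro γ hγ
    have e1 : ∑ i ∈ Finset.range L, ENNReal.ofReal (2 * L * (B / 2 ^ i)) *
          ENNReal.ofReal (‖PA σ s W i γ‖ ^ 2) = ENNReal.ofReal (∑ i ∈ Finset.range L,
          2 * L * (B / 2 ^ i) * ‖PA σ s W i γ‖ ^ 2) := by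
      rw [ENNReal.ofReal_sum_of_nonneg fun i _ => by positivity]
      refine Finset.sum_congr rfl fun i _ => ?_
      rw [← ENNReal.ofReal_mul (by positivity)]
    rw [e1, ← ENNReal.ofReal_mul (by norm_num), ← ENNReal.ofReal_add (by positivity)
      (Finset.sum_nonneg fun i _ => by positivity)]
    refine ENNReal.ofReal_le_ofReal ?_
    rw [AA_split, ← hL]
    obtain ⟨U, hU⟩ : ∃ U : ℂ, U = BD σ s a W N γ := ⟨_, rfl⟩
    obtain ⟨V, hV⟩ : ∃ V : ℂ, V = ∑ i ∈ Finset.range L, PA σ s W i γ * TB σ a N i γ := ⟨_, rfl⟩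
    rw [← hU, ← hV]
    have h5 : ‖V‖ ^ 2 ≤ (L : ℝ) * ∑ i ∈ Finset.range L, (B / 2 ^ i) * ‖PA σ s W i γ‖ ^ 2 := by
      have h6 : ‖V‖ ≤ ∑ i ∈ Finset.range L, ‖PA σ s W i γ * TB σ a N i γ‖ := by
        rw [hV]
        exact norm_sum_le _ _
      have h7 : (∑ i ∈ Finset.range L, ‖PA σ s W i γ * TB σ a N i γ‖) ^ 2 ≤
          (L : ℝ) * ∑ i ∈ Finset.range L, ‖PA σ s W i γ * TB σ a N i γ‖ ^ 2 := by
        have := sq_sum_le_card_mul_sum_sq (s := Finset.range L)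
          (f := fun i => ‖PA σ s W i γ * TB σ a N i γ‖)
        rw [Finset.card_range] at this
        exact this
      refine (pow_le_pow_left₀ (norm_nonneg _) h6 2).trans (h7.trans ?_)
      refine mul_le_mul_of_nonneg_left (Finset.sum_le_sum fun i hi => ?_) hL0
      rw [norm_mul, mul_pow, mul_comm]
      refine mul_le_mul_of_nonneg_right ?_ (by positivity)
      rw [Finset.mem_range, hL] at hi
      exact hγ a ⟨i, hi⟩
    have h8 : ‖U + V‖ ^ 2 ≤ 2 * ‖U‖ ^ 2 + 2 * ‖V‖ ^ 2 := by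
      calc ‖U + V‖ ^ 2 ≤ (‖U‖ + ‖V‖) ^ 2 := by gcongr; exact norm_add_le _ _
        _ ≤ _ := by nlinarith [sq_nonneg (‖U‖ - ‖V‖)]
    have h9 : ∑ i ∈ Finset.range L, 2 * (L : ℝ) * (B / 2 ^ i) * ‖PA σ s W i γ‖ ^ 2 =
        2 * ((L : ℝ) * ∑ i ∈ Finset.range L, (B / 2 ^ i) * ‖PA σ s W i γ‖ ^ 2) := by
      rw [Finset.mul_sum, Finset.mul_sum]
      refine Finset.sum_congr rfl fun i _ => ?_
      ring
    rw [h9]
    linarith
  refine (setLIntegral_mono' (GS_meas σ N B) hpt).trans ((setLIntegral_le_lintegral _ _).trans ?_)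
  have hm1 : Measurable fun γ : Fin k → ℝ => ENNReal.ofReal (‖BD σ s a W N γ‖ ^ 2) :=
    mor ((BD_cont σ s a W N).norm.pow 2)
  have hm2 : ∀ i, Measurable fun γ : Fin k → ℝ => ENNReal.ofReal (‖PA σ s W i γ‖ ^ 2) := fun i =>
    mor ((PA_cont σ s W i).norm.pow 2)
  rw [lintegral_add_left (hm1.const_mul _), lintegral_const_mul' _ _ ENNReal.ofReal_ne_top,
    lintegral_finsetSum _ fun i _ => (hm2 i).const_mul _]
  simp only [lintegral_const_mul' _ _ ENNReal.ofReal_ne_top]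
  have k1 := h3 σ s a H W N hW hWN hNH
  have k2 : ∀ i ∈ Finset.range L, ENNReal.ofReal (2 * L * (B / 2 ^ i)) *
      ∫⁻ γ, ENNReal.ofReal (‖PA σ s W i γ‖ ^ 2) ∂(mP (Fin k) H) ≤
      ENNReal.ofReal (2 * L * (B * (C2 * H ^ k * H ^ (ε / 2)) / W)) := by
    intro i _
    refine (mul_le_mul_right (h2 σ s H W N i hW hWN hN2) _).trans ?_
    rw [← ENNReal.ofReal_mul (by positivity)]
    refine ENNReal.ofReal_le_ofReal (le_of_eq ?_)
    field_simp
  refine (add_le_add (mul_le_mul_right k1 _) (Finset.sum_le_sum k2)).trans ?_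
  rw [Finset.sum_const, Finset.card_range, nsmul_eq_mul, ← ENNReal.ofReal_natCast,
    ← ENNReal.ofReal_mul (by positivity), ← ENNReal.ofReal_mul (by positivity),
    ← ENNReal.ofReal_add (by positivity) (by positivity)]
  refine ENNReal.ofReal_le_ofReal ?_
  have k3 : (L : ℝ) ^ 2 ≤ 4 * (C4 * H ^ (ε / 2)) := by
    have h5 := h4 N hN1
    have h6 : (N : ℝ) ^ (ε / 2) ≤ H ^ (ε / 2) := Real.rpow_le_rpow (by linarith) hNH' (by positivity)
    calc (L : ℝ) ^ 2 ≤ (2 * (1 + Real.log N)) ^ 2 := by gcongr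
      _ = 4 * (1 + Real.log N) ^ 2 := by ring
      _ ≤ 4 * (C4 * (N : ℝ) ^ (ε / 2)) := by gcongr
      _ ≤ _ := by gcongr
  have hHe : H ^ (ε / 2) * H ^ (ε / 2) = H ^ ε := by
    rw [← Real.rpow_add hH0]
    congr 1
    ring
  have k4 : 2 * (C3 * H ^ k * H ^ ε / W) ≤ 2 * C3 * B * H ^ k * H ^ ε / W := by
    have : 2 * C3 * B * H ^ k * H ^ ε / W = B * (2 * (C3 * H ^ k * H ^ ε / W)) := by ring
    rw [this]
    have h5 : 0 ≤ 2 * (C3 * H ^ k * H ^ ε / W) := by positivity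
    nlinarith
  have k5 : (L : ℝ) * (2 * L * (B * (C2 * H ^ k * H ^ (ε / 2)) / W)) ≤
      8 * C4 * C2 * B * H ^ k * H ^ ε / W := by
    calc (L : ℝ) * (2 * L * (B * (C2 * H ^ k * H ^ (ε / 2)) / W)) =
          (L : ℝ) ^ 2 * (2 * (B * (C2 * H ^ k * H ^ (ε / 2)) / W)) := by ring
      _ ≤ (4 * (C4 * H ^ (ε / 2))) * (2 * (B * (C2 * H ^ k * H ^ (ε / 2)) / W)) := by gcongr
      _ = 8 * C4 * C2 * B * H ^ k * (H ^ (ε / 2) * H ^ (ε / 2)) / W := by ring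
      _ = _ := by rw [hHe]
  calc _ ≤ 2 * C3 * B * H ^ k * H ^ ε / W + 8 * C4 * C2 * B * H ^ k * H ^ ε / W := add_le_add k4 k5
    _ = _ := by ring

end

end Pool.Agent.Y752.QF.R5
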