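import Pool.Agent.Y752.QF.Final
import Pool.Agent.Y752.SR.G
import Pool.Agent.Y752.SR.K8
import Pool.Agent.TH637.GF.NA
import Pool.Agent.TH928.GS.MV

set_option autoImplicit false

/-! Project QF: the terms of the recipe with a nonempty set of swaps are small. -/

namespace Pool.Agent.Y752.QF

open MeasureTheory Set Filter Complex Topology
open Pool.Agent.TH612.GS (mP zN SepA)
open Pool.Agent.TH521.GS (mor)
open Pool.Agent.Y752.SR (chs tlsι one')
open scoped ENNReal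

noncomputable section

/-- the factor of the functional equation, without the conductor -/
def xx (a : ℕ) (s : ℂ) : ℂ :=
  (Real.pi : ℂ) ^ (s - 1 / 2) * Complex.Gamma ((1 - s + a) / 2) / Complex.Gamma ((s + a) / 2)

/-- change of signs on `S` -/
def sgn {k : ℕ} (S : Finset (Fin k)) (γ : Fin k → ℝ) : Fin k → ℝ := fun j => if j ∈ S then -γ j else γ j

/-- the term of the recipe with swaps `S` -/
def Rt {k : ℕ} (b : Bool) (X : ℕ) (S : Finset (Fin k)) (γ : Fin k → ℝ) : ℂ :=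
  (∑ p ∈ QFs b X, (p.1 : ℂ) ^ (-(I * ((∑ j ∈ S, γ j : ℝ) : ℂ)))) *
    (∏ j ∈ S, xx (if b then 1 else 0) (1 / 2 + I * (γ j : ℂ))) * Mt (sgn S γ)

lemma xx_norm (a : ℕ) (g : ℝ) : ‖xx a (1 / 2 + I * (g : ℂ))‖ = 1 := by
  unfold xx
  have h1 : (1 - (1 / 2 + I * (g : ℂ)) + a) / 2 = (starRingEnd ℂ) ((1 / 2 + I * (g : ℂ) + a) / 2) := by
    simp only [map_div₀, map_add, map_mul, Complex.conj_I, Complex.conj_ofReal, Complex.conj_natCast,
      map_ofNat, map_one]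
    ring
  have h2 : ‖(Real.pi : ℂ) ^ (1 / 2 + I * (g : ℂ) - 1 / 2)‖ = 1 := by
    rw [Complex.norm_cpow_eq_rpow_re_of_pos Real.pi_pos]
    have : (1 / 2 + I * (g : ℂ) - 1 / 2).re = 0 := by simp
    rw [this, Real.rpow_zero]
  rw [h1, Complex.Gamma_conj, norm_div, norm_mul, h2, one_mul, RCLike.norm_conj, div_self]
  rw [norm_ne_zero_iff]
  apply Complex.Gamma_ne_zero_of_re_pos
  have : ((1 / 2 + I * (g : ℂ) + a) / 2).re = (1 / 2 + a) / 2 := by simp
  rw [this]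
  positivity

lemma le_sgn {k : ℕ} (S : Finset (Fin k)) (γ : Fin k → ℝ) (e : Fin k × Fin k) :
    le (sgn S γ) e = I * ((sgn S γ e.1 + sgn S γ e.2 : ℝ) : ℂ) := by
  unfold le
  push_cast
  rfl

/-- the prediction is small at separated points -/
lemma Mt_le (hPS : S_PS) (k : ℕ) {ε : ℝ} (hε : 0 < ε) : ∃ C T₀ : ℝ, 0 < C ∧ 3 ≤ T₀ ∧
    ∀ (H : ℝ) (γ : Fin k → ℝ) (S : Finset (Fin k)), T₀ ≤ H → γ ∈ SepA (fun _ => 0) H →
    ‖Mt (sgn S γ)‖ ≤ C * H ^ ε := by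
  obtain ⟨gg, hg0, hgs, hps⟩ := hPS k
  set G : ℝ := ∑' b : ℕ, gg b * (b : ℝ) ^ (-(1:ℝ)) with hG
  have hsum := hgs 1 (by norm_num)
  have hG0 : 0 ≤ G := tsum_nonneg fun b => mul_nonneg (hg0 b) (by positivity)
  have hA : ∀ γ : Fin k → ℝ, ‖arithA γ‖ ≤ G := by
    intro γ
    obtain ⟨ps, hb, -, he⟩ := hps γ
    rw [← he]
    refine tsum_of_norm_bounded hsum.hasSum fun b => ?_
    rw [norm_div, Complex.norm_natCast, Real.rpow_neg (by positivity), Real.rpow_one, div_eq_mul_inv]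
    exact mul_le_mul_of_nonneg_right (hb b) (by positivity)
  obtain ⟨C1, T1, hC1, hT1, h1⟩ := one' Pool.Agent.TH928.GS.t_MV
  obtain ⟨C2, hC2, h2⟩ := Pool.Agent.Y752.SR.logp_le (δ := ε) hε ((Ed k).card)
  set n := (Ed k).card with hn
  refine ⟨(G + 1) * ((C1 + 1) ^ n * (2 ^ n * C2)), T1, by positivity, hT1, ?_⟩
  intro H γ S hH hγ
  have hH3 : 3 ≤ H := hT1.trans hH
  have hH0 : 0 < H := by linarith
  obtain ⟨g1, g2, g3⟩ := hγ
  have hrt : 1 ≤ H ^ (1 / 2 : ℝ) := Real.one_le_rpow (by linarith) (by norm_num)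
  have hz : ∀ e ∈ Ed k, ‖riemannZeta (1 + le (sgn S γ) e)‖ ≤ (C1 + 1) * Real.log (2 * H) := by
    intro e he
    rw [le_sgn]
    have hv2 : |sgn S γ e.1 + sgn S γ e.2| ≤ 2 * H := by
      have q1 : ∀ j, |sgn S γ j| ≤ H := by
        intro j
        unfold sgn
        split_ifs
        · rw [abs_neg, abs_of_nonneg (g1 j).1]
          exact (g1 j).2
        · rw [abs_of_nonneg (g1 j).1]
          exact (g1 j).2
      calc _ ≤ |sgn S γ e.1| + |sgn S γ e.2| := abs_add_le _ _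
        _ ≤ _ := by linarith [q1 e.1, q1 e.2]
    have hv1 : 1 ≤ |sgn S γ e.1 + sgn S γ e.2| := by
      have q2 : ∀ j, 1 ≤ γ j := by
        intro j
        have := g3 j j
        rw [sub_zero, abs_of_nonneg (g1 j).1] at this
        linarith
      unfold sgn
      by_cases h1 : e.1 = e.2
      · rw [h1]
        split_ifs
        · rw [show -γ e.2 + -γ e.2 = -(2 * γ e.2) by ring, abs_neg, abs_of_nonneg (by linarith [q2 e.2])]
          linarith [q2 e.2]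
        · rw [abs_of_nonneg (by linarith [q2 e.2])]
          linarith [q2 e.2]
      · have q3 := g2 e.1 e.2 h1
        have a1 := q2 e.1
        have a2 := q2 e.2
        split_ifs
        · rw [show -γ e.1 + -γ e.2 = -(γ e.1 + γ e.2) by ring, abs_neg, abs_of_nonneg (by linarith)]
          linarith
        · rw [show -γ e.1 + γ e.2 = -(γ e.1 - γ e.2) by ring, abs_neg]
          linarith
        · rw [← sub_eq_add_neg]
          linarith
        · rw [abs_of_nonneg (by linarith)]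
          linarith
    have h3 := (h1 (2 * H) 1 (by linarith) le_rfl (by push_cast; linarith)).1 _ hv1 hv2
    refine h3.trans ?_
    have : 0 ≤ Real.log (2 * H) := Real.log_nonneg (by linarith)
    nlinarith
  have hlog : 0 ≤ Real.log (2 * H) := Real.log_nonneg (by linarith)
  have hl2 : Real.log (2 * H) ≤ 2 * (1 + Real.log H) := by
    rw [Real.log_mul (by norm_num) hH0.ne']
    have := Real.log_two_lt_d9
    have := Real.log_nonneg (show (1:ℝ) ≤ H by linarith)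
    linarith
  have hl3 : (2 * (1 + Real.log H)) ^ n ≤ 2 ^ n * (C2 * H ^ ε) := by
    rw [mul_pow]
    exact mul_le_mul_of_nonneg_left (h2 H (by linarith)) (by positivity)
  unfold Mt
  rw [norm_mul, norm_prod]
  calc ‖arithA (sgn S γ)‖ * ∏ e ∈ Ed k, ‖riemannZeta (1 + le (sgn S γ) e)‖
      ≤ (G + 1) * ∏ _e ∈ Ed k, ((C1 + 1) * Real.log (2 * H)) := by
        refine mul_le_mul ((hA _).trans (by linarith)) ?_ (Finset.prod_nonneg fun _ _ => norm_nonneg _)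
          (by linarith)
        exact Finset.prod_le_prod (fun _ _ => norm_nonneg _) hz
    _ = (G + 1) * ((C1 + 1) ^ n * Real.log (2 * H) ^ n) := by
        rw [Finset.prod_const, mul_pow]
    _ ≤ (G + 1) * ((C1 + 1) ^ n * (2 ^ n * (C2 * H ^ ε))) := by
        have : Real.log (2 * H) ^ n ≤ (2 * (1 + Real.log H)) ^ n := pow_le_pow_left₀ hlog hl2 n
        have := this.trans hl3
        gcongr
    _ = _ := by ring

/-- mean square of the power sums over the conductors -/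
lemma pw_ms (hIN : S_IN) : ∃ C : ℝ, 0 < C ∧ ∀ (k : ℕ) (b : Bool) (X : ℕ) (H : ℝ) (S : Finset (Fin k)),
    S.Nonempty → 1 ≤ X → (X : ℝ) ≤ H →
    ∫⁻ γ, ENNReal.ofReal (‖∑ p ∈ QFs b X, (p.1 : ℂ) ^ (-(I * ((∑ j ∈ S, γ j : ℝ) : ℂ)))‖ ^ 2)
      ∂(mP (Fin k) H) ≤ ENNReal.ofReal ((C * H) ^ k * X) := by
  classical
  obtain ⟨C1, hC1, hMV⟩ := Pool.Agent.TH928.GS.t_MV
  refine ⟨2 * C1, by positivity, ?_⟩
  intro k b X H S hS hX hXH
  have hH : 1 ≤ H := le_trans (by exact_mod_cast hX) hXH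
  obtain ⟨j0, hj0⟩ := hS
  have hmem : ∀ p ∈ QFs b X, 1 ≤ p.1 ∧ p.1 ≤ X := by
    intro p hp
    rw [mem_QFs hIN] at hp
    exact ⟨Nat.one_le_iff_ne_zero.2 hp.1, hp.2.1⟩
  have h1 := tlsι hC1 hMV hH (fun _ : Fin k => true) (QFs b X)
    (fun p j => if j ∈ S then p.1 else 1) (fun _ => 1) 1
    (fun p hp j => by
      obtain ⟨q1, q2⟩ := hmem p hp
      have q3 : (p.1 : ℝ) ≤ X := by exact_mod_cast q2
      split_ifs
      · exact ⟨q1, q3.trans hXH⟩
      · exact ⟨le_rfl, by simpa using hH⟩)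
    (fun p hp => by
      rw [Finset.card_le_one]
      intro p1 hp1 p2 hp2
      rw [Finset.mem_filter] at hp1 hp2
      have e1 := congrFun hp1.2 j0
      have e2 := congrFun hp2.2 j0
      rw [if_pos hj0, if_pos hj0] at e1 e2
      have m1 := hp1.1
      have m2 := hp2.1
      rw [mem_QFs hIN] at m1 m2
      exact (hIN b X).2 p1 m1 p2 m2 (e1.trans e2.symm))
  have e1 : ∀ γ : Fin k → ℝ, ∑ p ∈ QFs b X, (p.1 : ℂ) ^ (-(I * ((∑ j ∈ S, γ j : ℝ) : ℂ))) =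
      ∑ p ∈ QFs b X, (1:ℂ) * ∏ j, chs true (if j ∈ S then p.1 else 1) (γ j) := by
    intro γ
    refine Finset.sum_congr rfl fun p hp => ?_
    have hp0 : (p.1 : ℂ) ≠ 0 := by
      have := (hmem p hp).1
      exact_mod_cast (by omega : p.1 ≠ 0)
    rw [one_mul]
    have e2 : ∀ j, chs true (if j ∈ S then p.1 else 1) (γ j) =
        if j ∈ S then (p.1 : ℂ) ^ (-(I * (γ j : ℂ))) else 1 := by
      intro j
      by_cases hj : j ∈ S
      · rw [if_pos hj, if_pos hj]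
        simp [chs]
      · rw [if_neg hj, if_neg hj]
        simp [chs]
    simp only [e2]
    rw [Finset.prod_ite_mem, Finset.univ_inter]
    push_cast
    rw [Finset.mul_sum, ← Finset.sum_neg_distrib, Complex.cpow_def_of_ne_zero hp0, Finset.mul_sum,
      Complex.exp_sum]
    refine Finset.prod_congr rfl fun j _ => ?_
    rw [Complex.cpow_def_of_ne_zero hp0]
  refine (le_of_eq (lintegral_congr fun γ => by rw [e1 γ])).trans (h1.trans (ENNReal.ofReal_le_ofReal ?_))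
  rw [Fintype.card_fin]
  have : (QFs b X).card ≤ X := card_QFs hIN b X
  have h3 : ((QFs b X).card : ℝ) ≤ X := by exact_mod_cast this
  have h4 : ((1:ℕ) : ℝ) * ∑ p ∈ QFs b X, ‖(1:ℂ)‖ ^ 2 ≤ X := by
    simp only [norm_one, one_pow, Finset.sum_const, nsmul_eq_mul, mul_one, Nat.cast_one, one_mul]
    exact h3
  exact mul_le_mul_of_nonneg_left h4 (by positivity)

theorem swp (hIN : S_IN) (hAR : S_AR) (hPS : S_PS) (k : ℕ) (η A : ℝ) (hη : 0 < η) :
    ∃ (δ : ℝ) (X0 : ℕ), 0 < δ ∧ ∀ (b : Bool) (X : ℕ) (H : ℝ), X0 ≤ X → (X : ℝ) ^ (1 + η) ≤ H →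
    H ≤ (X : ℝ) ^ A →
    mP (Fin k) H {γ | (X : ℝ) ^ (1 - δ) <
      ‖∑ S : Finset (Fin k), Rt b X S γ - (3 / Real.pi ^ 2 * X : ℝ) * Mt γ‖} ≤
      ENNReal.ofReal (H ^ k * (X : ℝ) ^ (-δ)) := by
  classical
  set ε : ℝ := 1 / (16 * (|A| + 1)) with hε
  have hA0 : 0 ≤ |A| := abs_nonneg A
  have hε0 : 0 < ε := by positivity
  obtain ⟨C1, T1, hC1, hT1, h1⟩ := Mt_le hPS k hε0
  obtain ⟨C2, hC2, h2⟩ := pw_ms hIN
  obtain ⟨C3, hC3, h3⟩ := hAR 1 one_pos
  obtain ⟨C4, T4, hC4, hT4, h4⟩ := Pool.Agent.TH637.GF.t_NA k (fun _ => 0)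
  set D : ℝ := C3 * C1 + 2 ^ k * C1 + 2 ^ k * C2 ^ k + C4 with hD
  have hD0 : 0 < D := by positivity
  obtain ⟨X3, hX3⟩ : ∃ X3 : ℕ, ∀ X : ℕ, X3 ≤ X → D + T1 + T4 ≤ (X : ℝ) ^ (1 / 32 : ℝ) := by
    have h := (tendsto_rpow_atTop (show (0:ℝ) < 1 / 32 by norm_num)).comp tendsto_natCast_atTop_atTop
    obtain ⟨X3, hX3⟩ := (h.eventually_ge_atTop (D + T1 + T4)).exists_forall_of_atTop
    exact ⟨X3, hX3⟩
  refine ⟨1 / 32, X3 + 1, by norm_num, ?_⟩
  intro b X H hX hH1 hH2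
  have hX1 : 1 ≤ X := by omega
  have hX1r : (1:ℝ) ≤ X := by exact_mod_cast hX1
  have hX0 : (0:ℝ) < X := by linarith
  have hbig := hX3 X (by omega)
  have hXH : (X : ℝ) ≤ H := by
    refine le_trans ?_ hH1
    conv_lhs => rw [← Real.rpow_one (X : ℝ)]
    exact Real.rpow_le_rpow_of_exponent_le hX1r (by linarith)
  have hH0 : 0 < H := by linarith
  have hXs : (X : ℝ) ^ (1 / 32 : ℝ) ≤ X := by
    conv_rhs => rw [← Real.rpow_one (X : ℝ)]
    exact Real.rpow_le_rpow_of_exponent_le hX1r (by norm_num)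
  have hHT1 : T1 ≤ H := by linarith
  have hHT4 : T4 ≤ H := by linarith
  have hHε : H ^ ε ≤ (X : ℝ) ^ (1 / 16 : ℝ) := by
    calc H ^ ε ≤ ((X : ℝ) ^ A) ^ ε := Real.rpow_le_rpow hH0.le hH2 hε0.le
      _ = (X : ℝ) ^ (A * ε) := by rw [← Real.rpow_mul hX0.le]
      _ ≤ _ := by
        refine Real.rpow_le_rpow_of_exponent_le hX1r ?_
        rw [hε, mul_one_div, div_le_div_iff₀ (by positivity) (by norm_num)]
        have := le_abs_self A
        linarith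
  have hM : ∀ (S : Finset (Fin k)) (γ : Fin k → ℝ), γ ∈ SepA (fun _ => 0) H →
      ‖Mt (sgn S γ)‖ ≤ C1 * (X : ℝ) ^ (1 / 16 : ℝ) := fun S γ hγ =>
    (h1 H γ S hHT1 hγ).trans (mul_le_mul_of_nonneg_left hHε hC1.le)
  -- the bad sets
  have hc : ∀ S : Finset (Fin k), Continuous fun γ : Fin k → ℝ =>
      ∑ p ∈ QFs b X, (p.1 : ℂ) ^ (-(I * ((∑ j ∈ S, γ j : ℝ) : ℂ))) := by
    intro S
    refine continuous_finsetSum _ fun p hp => ?_
    rw [mem_QFs hIN] at hp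
    have : (p.1 : ℂ) ≠ 0 := by exact_mod_cast hp.1
    exact Continuous.const_cpow (by fun_prop) (Or.inl this)
  have bS : ∀ S : Finset (Fin k), S.Nonempty → mP (Fin k) H {γ | (X : ℝ) ^ (3 / 4 : ℝ) ≤
      ‖∑ p ∈ QFs b X, (p.1 : ℂ) ^ (-(I * ((∑ j ∈ S, γ j : ℝ) : ℂ)))‖} ≤
      ENNReal.ofReal (C2 ^ k * (X : ℝ) ^ (-(1 / 2) : ℝ) * H ^ k) := by
    intro S hS
    refine (mk (hc S) (by positivity) (h2 k b X H S hS hX1 hXH)).trans (ENNReal.ofReal_le_ofReal ?_)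
    have hsq : ((X : ℝ) ^ (3 / 4 : ℝ)) ^ 2 = (X : ℝ) ^ (3 / 2 : ℝ) := by
      rw [← Real.rpow_natCast, ← Real.rpow_mul hX0.le]
      norm_num
    rw [hsq, div_le_iff₀ (by positivity), mul_pow]
    have : (X : ℝ) ^ (-(1 / 2) : ℝ) * (X : ℝ) ^ (3 / 2 : ℝ) = X := by
      rw [← Real.rpow_add hX0]
      norm_num
    refine le_of_eq ?_
    linear_combination (-(C2 ^ k * H ^ k)) * this
  have bN := h4 H hHT4
  have hsub : {γ : Fin k → ℝ | (X : ℝ) ^ (1 - 1 / 32 : ℝ) <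
      ‖∑ S : Finset (Fin k), Rt b X S γ - (3 / Real.pi ^ 2 * X : ℝ) * Mt γ‖} ⊆
      (⋃ S ∈ (Finset.univ : Finset (Finset (Fin k))).erase ∅, {γ | (X : ℝ) ^ (3 / 4 : ℝ) ≤
        ‖∑ p ∈ QFs b X, (p.1 : ℂ) ^ (-(I * ((∑ j ∈ S, γ j : ℝ) : ℂ)))‖}) ∪ (SepA (fun _ => 0) H)ᶜ := by
    intro γ hγ
    by_contra hcon
    rw [Set.mem_union, not_or, Set.mem_compl_iff, not_not] at hcon
    obtain ⟨n1, n2⟩ := hcon
    have n1' : ∀ S : Finset (Fin k), S.Nonempty →
        ‖∑ p ∈ QFs b X, (p.1 : ℂ) ^ (-(I * ((∑ j ∈ S, γ j : ℝ) : ℂ)))‖ ≤ (X : ℝ) ^ (3 / 4 : ℝ) := by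
      intro S hS
      by_contra hc
      apply n1
      simp only [Set.mem_iUnion]
      exact ⟨S, Finset.mem_erase.2 ⟨hS.ne_empty, Finset.mem_univ _⟩, (not_le.1 hc).le⟩
    have hγ' : (X : ℝ) ^ (1 - 1 / 32 : ℝ) <
      ‖∑ S : Finset (Fin k), Rt b X S γ - (3 / Real.pi ^ 2 * X : ℝ) * Mt γ‖ := hγ
    have e0 : ∑ S : Finset (Fin k), Rt b X S γ = Rt b X ∅ γ +
        ∑ S ∈ (Finset.univ : Finset (Finset (Fin k))).erase ∅, Rt b X S γ :=
      (Finset.add_sum_erase _ _ (Finset.mem_univ _)).symm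
    have hsg : sgn ∅ γ = γ := by
      funext j
      simp [sgn]
    have e1 : Rt b X ∅ γ - (3 / Real.pi ^ 2 * X : ℝ) * Mt γ = Ee b X 1 * Mt γ := by
      unfold Rt Ee mm
      rw [hsg]
      have q1 : ∑ p ∈ QFs b X, (p.1 : ℂ) ^ (-(I * ((∑ j ∈ (∅ : Finset (Fin k)), γ j : ℝ) : ℂ))) =
          ∑ p ∈ QFs b X, cv p 1 := by
        refine Finset.sum_congr rfl fun p _ => ?_
        simp [cv]
      rw [q1]
      have q2 : hw 1 = 1 := by simp [hw]
      rw [if_pos (show IsSquare 1 from ⟨1, rfl⟩), q2, mul_one, Finset.prod_empty]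
      ring
    have e2 : ‖Ee b X 1 * Mt γ‖ ≤ C3 * C1 * (X : ℝ) ^ (13 / 16 : ℝ) := by
      rw [norm_mul]
      have q1 := h3 b X 1 hX1 le_rfl
      rw [Nat.cast_one, Real.one_rpow, mul_one] at q1
      have q2 := hM ∅ γ n2
      rw [hsg] at q2
      calc ‖Ee b X 1‖ * ‖Mt γ‖ ≤ C3 * (X : ℝ) ^ (1 / 2 : ℝ) * (C1 * (X : ℝ) ^ (1 / 16 : ℝ)) := by gcongr
        _ = C3 * C1 * (X : ℝ) ^ (9 / 16 : ℝ) := by
            have : (X : ℝ) ^ (1 / 2 : ℝ) * (X : ℝ) ^ (1 / 16 : ℝ) = (X : ℝ) ^ (9 / 16 : ℝ) := by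
              rw [← Real.rpow_add hX0]
              norm_num
            rw [← this]
            ring
        _ ≤ _ := by
            have : (X : ℝ) ^ (9 / 16 : ℝ) ≤ (X : ℝ) ^ (13 / 16 : ℝ) :=
              Real.rpow_le_rpow_of_exponent_le hX1r (by norm_num)
            gcongr
    have e3 : ∀ S ∈ (Finset.univ : Finset (Finset (Fin k))).erase ∅, ‖Rt b X S γ‖ ≤
        C1 * (X : ℝ) ^ (13 / 16 : ℝ) := by
      intro S hS
      have hS' : S.Nonempty := Finset.nonempty_iff_ne_empty.2 (Finset.mem_erase.1 hS).1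
      unfold Rt
      rw [norm_mul, norm_mul, norm_prod, Finset.prod_congr rfl (fun j _ => xx_norm _ (γ j)),
        Finset.prod_const_one, mul_one]
      calc _ ≤ (X : ℝ) ^ (3 / 4 : ℝ) * (C1 * (X : ℝ) ^ (1 / 16 : ℝ)) :=
            mul_le_mul (n1' S hS') (hM S γ n2) (norm_nonneg _) (by positivity)
        _ = _ := by
            have : (X : ℝ) ^ (3 / 4 : ℝ) * (X : ℝ) ^ (1 / 16 : ℝ) = (X : ℝ) ^ (13 / 16 : ℝ) := by
              rw [← Real.rpow_add hX0]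
              norm_num
            rw [← this]
            ring
    have hcard : (((Finset.univ : Finset (Finset (Fin k))).erase ∅).card : ℝ) ≤ 2 ^ k := by
      have : ((Finset.univ : Finset (Finset (Fin k))).erase ∅).card ≤ 2 ^ k := by
        refine (Finset.card_erase_le).trans ?_
        simp
      exact_mod_cast this
    have e4 : ‖∑ S ∈ (Finset.univ : Finset (Finset (Fin k))).erase ∅, Rt b X S γ‖ ≤
        2 ^ k * C1 * (X : ℝ) ^ (13 / 16 : ℝ) := by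
      refine (norm_sum_le _ _).trans ((Finset.sum_le_sum e3).trans ?_)
      rw [Finset.sum_const, nsmul_eq_mul, mul_assoc]
      exact mul_le_mul_of_nonneg_right hcard (by positivity)
    have e5 : ‖∑ S : Finset (Fin k), Rt b X S γ - (3 / Real.pi ^ 2 * X : ℝ) * Mt γ‖ ≤
        D * (X : ℝ) ^ (13 / 16 : ℝ) := by
      have : ∑ S : Finset (Fin k), Rt b X S γ - (3 / Real.pi ^ 2 * X : ℝ) * Mt γ = Ee b X 1 * Mt γ +
          ∑ S ∈ (Finset.univ : Finset (Finset (Fin k))).erase ∅, Rt b X S γ := by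
        rw [e0, ← e1]
        ring
      rw [this]
      refine (norm_add_le _ _).trans ?_
      have hp : 0 < (X : ℝ) ^ (13 / 16 : ℝ) := by positivity
      calc _ ≤ C3 * C1 * (X : ℝ) ^ (13 / 16 : ℝ) + 2 ^ k * C1 * (X : ℝ) ^ (13 / 16 : ℝ) := add_le_add e2 e4
        _ = (C3 * C1 + 2 ^ k * C1) * (X : ℝ) ^ (13 / 16 : ℝ) := by ring
        _ ≤ _ := by
          refine mul_le_mul_of_nonneg_right ?_ hp.le
          rw [hD]
          have : 0 < 2 ^ k * C2 ^ k := by positivity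
          linarith
    have e6 : D * (X : ℝ) ^ (13 / 16 : ℝ) ≤ (X : ℝ) ^ (1 - 1 / 32 : ℝ) := by
      calc D * (X : ℝ) ^ (13 / 16 : ℝ) ≤ (X : ℝ) ^ (1 / 32 : ℝ) * (X : ℝ) ^ (13 / 16 : ℝ) := by
            gcongr
            linarith
        _ = (X : ℝ) ^ (1 / 32 + 13 / 16 : ℝ) := by rw [Real.rpow_add hX0]
        _ ≤ _ := Real.rpow_le_rpow_of_exponent_le hX1r (by norm_num)
    linarith
  have hcard : (((Finset.univ : Finset (Finset (Fin k))).erase ∅).card : ℝ) ≤ 2 ^ k := by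
    have : ((Finset.univ : Finset (Finset (Fin k))).erase ∅).card ≤ 2 ^ k := by
      refine (Finset.card_erase_le).trans ?_
      simp
    exact_mod_cast this
  refine (measure_mono hsub).trans ((measure_union_le _ _).trans (le_trans (add_le_add
    ((measure_biUnion_finset_le _ _).trans (Finset.sum_le_sum fun S hS =>
      bS S (Finset.nonempty_iff_ne_empty.2 (Finset.mem_erase.1 hS).1))) bN) ?_))
  rw [← ENNReal.ofReal_sum_of_nonneg (fun _ _ => by positivity),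
    ← ENNReal.ofReal_add (Finset.sum_nonneg fun _ _ => by positivity) (by positivity)]
  refine ENNReal.ofReal_le_ofReal ?_
  rw [Finset.sum_const, nsmul_eq_mul]
  have g1 : C4 * H ^ ((k : ℝ) - 1 / 2) ≤ C4 * (X : ℝ) ^ (-(1 / 2) : ℝ) * H ^ k := by
    have : H ^ ((k : ℝ) - 1 / 2) = H ^ k * H ^ (-(1 / 2) : ℝ) := by
      rw [sub_eq_add_neg, Real.rpow_add hH0, Real.rpow_natCast]
    rw [this]
    have h5 : H ^ (-(1 / 2) : ℝ) ≤ (X : ℝ) ^ (-(1 / 2) : ℝ) :=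
      Real.rpow_le_rpow_of_nonpos hX0 hXH (by norm_num)
    calc C4 * (H ^ k * H ^ (-(1 / 2) : ℝ)) ≤ C4 * (H ^ k * (X : ℝ) ^ (-(1 / 2) : ℝ)) := by gcongr
      _ = _ := by ring
  calc _ ≤ 2 ^ k * (C2 ^ k * (X : ℝ) ^ (-(1 / 2) : ℝ) * H ^ k) +
        C4 * (X : ℝ) ^ (-(1 / 2) : ℝ) * H ^ k := by gcongr
    _ = (2 ^ k * C2 ^ k + C4) * (X : ℝ) ^ (-(1 / 2) : ℝ) * H ^ k := by ring
    _ ≤ (X : ℝ) ^ (1 / 32 : ℝ) * (X : ℝ) ^ (-(1 / 2) : ℝ) * H ^ k := by
        gcongr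
        have : 0 < C3 * C1 + 2 ^ k * C1 := by positivity
        have hT1' : 0 ≤ T1 := by linarith
        have hT4' : 0 ≤ T4 := by linarith
        rw [hD] at hbig
        linarith
    _ = H ^ k * (X : ℝ) ^ (1 / 32 + -(1 / 2) : ℝ) := by
        rw [Real.rpow_add hX0]
        ring
    _ ≤ _ := by
        have : (X : ℝ) ^ (1 / 32 + -(1 / 2) : ℝ) ≤ (X : ℝ) ^ (-(1 / 32) : ℝ) :=
          Real.rpow_le_rpow_of_exponent_le hX1r (by norm_num)
        gcongr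

end

end Pool.Agent.Y752.QF
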